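import Mathlib

set_option autoImplicit false

open Polynomial

namespace Pool.Agent.Lib.MP_be0804_ag

variable {k : Type*} [Field k]

/-- The Legendre differential equation with eigenvalue `c`. -/
def Leg (c : k) (P : k[X]) : Prop :=
  (1 - X ^ 2) * derivative (derivative P) - 2 * X * derivative P + C c * P = 0

theorem Leg.coeff {c : k} {P : k[X]} (h : Leg c P) (j : ℕ) :
    ((j : k) + 2) * ((j : k) + 1) * P.coeff (j + 2) + (c - (j : k) * ((j : k) + 1)) * P.coeff j = 0 := by
  have h1 := congrArg (fun Q => Q.coeff j) h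
  have e2 : (2 : k[X]) * X * derivative P = C 2 * (X * derivative P) := by
    rw [mul_assoc]; rfl
  simp only [sub_mul, one_mul, e2, coeff_add, coeff_sub, coeff_C_mul, coeff_zero] at h1
  have a1 : (X * derivative P).coeff j = (j : k) * P.coeff j := by
    cases j with
    | zero => simp
    | succ j => rw [coeff_X_mul, coeff_derivative]; push_cast; ring
  have a2 : (X ^ 2 * derivative (derivative P)).coeff j = (j : k) * ((j : k) - 1) * P.coeff j := by
    rcases j with _ | _ | j
    · simp [coeff_X_pow_mul']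
    · simp [coeff_X_pow_mul']
    · rw [coeff_X_pow_mul, coeff_derivative, coeff_derivative]; push_cast; ring
  rw [a1, a2, coeff_derivative, coeff_derivative] at h1
  push_cast at h1
  linear_combination h1

theorem Leg.deg {c : k} {P : k[X]} (h : Leg c P) (hP : P ≠ 0) :
    c = (P.natDegree : k) * ((P.natDegree : k) + 1) := by
  have h1 := h.coeff P.natDegree
  rw [coeff_eq_zero_of_natDegree_lt (by omega : P.natDegree < P.natDegree + 2), mul_zero,
    zero_add] at h1
  have h2 : P.coeff P.natDegree ≠ 0 := by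
    rw [coeff_natDegree]; exact leadingCoeff_ne_zero.mpr hP
  exact sub_eq_zero.mp ((mul_eq_zero.mp h1).resolve_right h2)

theorem cast_ne_zero {p : ℕ} [CharP k p] {j : ℕ} (h0 : 0 < j) (h1 : j < p) : (j : k) ≠ 0 := by
  rw [Ne, CharP.cast_eq_zero_iff k p]
  exact fun h => absurd (Nat.le_of_dvd h0 h) (by omega)

theorem Leg.not_sq_dvd {p : ℕ} [CharP k p] {c : k} {P : k[X]} (h : Leg c P)
    (hd : P.natDegree < p) (h1 : P.eval 1 ≠ 0) (h2 : P.eval (-1) ≠ 0) (r : k) :
    ¬ (X - C r) ^ 2 ∣ P := by
  intro hdv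
  have hP : P ≠ 0 := by rintro rfl; simp at h1
  obtain ⟨Q, hQ, hQr⟩ := exists_eq_pow_rootMultiplicity_mul_and_not_dvd P hP r
  have hm : 2 ≤ P.rootMultiplicity r := (le_rootMultiplicity_iff hP).mpr hdv
  have hm2 : P.rootMultiplicity r ≤ P.natDegree := by
    have := natDegree_le_of_dvd (pow_rootMultiplicity_dvd P r) hP
    rwa [natDegree_pow, natDegree_X_sub_C, mul_one] at this
  obtain ⟨j, hj⟩ : ∃ j, P.rootMultiplicity r = j + 2 := ⟨_, (Nat.sub_add_cancel hm).symm⟩
  rw [hj] at hQ hm2
  have hr : P.eval r = 0 := by rw [hQ]; simp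
  have hr1 : 1 - r ^ 2 ≠ 0 := by
    intro h0
    have : (r - 1) * (r + 1) = 0 := by linear_combination -h0
    rcases mul_eq_zero.mp this with h | h
    · exact h1 (by rwa [← sub_eq_zero.mp h])
    · exact h2 (by rwa [← eq_neg_of_add_eq_zero_left h])
  have hQ0 : Q.eval r ≠ 0 := fun h0 => hQr (dvd_iff_isRoot.mpr h0)
  unfold Leg at h
  have d1 : derivative P = (X - C r) ^ (j + 1) * (C ((j : k) + 2) * Q + (X - C r) * derivative Q) := by
    rw [hQ, derivative_mul, derivative_X_sub_C_pow]
    simp only [map_add, map_natCast, Nat.cast_add, Nat.cast_ofNat, map_ofNat,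
      show j + 2 - 1 = j + 1 from rfl]
    ring
  set Q1 := C ((j : k) + 2) * Q + (X - C r) * derivative Q with hQ1
  have d2 : derivative (derivative P) =
      (X - C r) ^ j * (C ((j : k) + 1) * Q1 + (X - C r) * derivative Q1) := by
    rw [d1, derivative_mul, derivative_X_sub_C_pow]
    simp only [map_add, map_natCast, Nat.cast_add, Nat.cast_one, map_one,
      show j + 1 - 1 = j from rfl]
    ring
  rw [d2, d1] at h
  have h3 : (X - C r) ^ j * ((1 - X ^ 2) * (C ((j : k) + 1) * Q1 + (X - C r) * derivative Q1)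
      - 2 * X * (X - C r) * Q1 + C c * (X - C r) ^ 2 * Q) = 0 := by
    rw [← h, hQ]; ring
  have h4 := (mul_eq_zero.mp h3).resolve_left (pow_ne_zero _ (X_sub_C_ne_zero r))
  have h5 := congrArg (eval r) h4
  simp [hQ1, hQ0, hr1] at h5
  have e1 := cast_ne_zero (k := k) (p := p) (j := j + 1) (by omega) (by omega)
  have e2 := cast_ne_zero (k := k) (p := p) (j := j + 2) (by omega) (by omega)
  push_cast at e1 e2
  rcases h5 with h5 | h5
  · exact e1 h5
  · exact e2 h5

theorem Leg.separable [IsAlgClosed k] {p : ℕ} [CharP k p] {c : k} {P : k[X]} (h : Leg c P)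
    (hd : P.natDegree < p) (h1 : P.eval 1 ≠ 0) (h2 : P.eval (-1) ≠ 0) : P.roots.Nodup := by
  have hP : P ≠ 0 := by rintro rfl; simp at h1
  classical
  rw [Multiset.nodup_iff_count_le_one]
  intro r
  rw [count_roots]
  by_contra hc
  exact h.not_sq_dvd hd h1 h2 r ((le_rootMultiplicity_iff hP).mp (by omega))

theorem dvd_of_roots [IsAlgClosed k] {P Q : k[X]} (hP : P ≠ 0) (hn : P.roots.Nodup)
    (h : ∀ r, P.eval r = 0 → Q.eval r = 0) : P ∣ Q := by
  by_cases hQ : Q = 0
  · rw [hQ]; exact dvd_zero _
  refine (IsAlgClosed.splits P).dvd_of_roots_le_roots hP ?_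
  rw [Multiset.le_iff_subset hn]
  intro r hr
  rw [mem_roots hP] at hr
  rw [mem_roots hQ]
  exact h r hr

theorem eq_C_of_derivative {p : ℕ} [CharP k p] {R : k[X]} (hd : R.natDegree < p)
    (h : derivative R = 0) : R.natDegree = 0 := by
  by_contra h0
  obtain ⟨j, hj⟩ : ∃ j, R.natDegree = j + 1 := ⟨_, (Nat.succ_pred_eq_of_ne_zero h0).symm⟩
  have h1 := congrArg (fun Q => Q.coeff j) h
  simp only [coeff_derivative, coeff_zero] at h1
  have hR : R ≠ 0 := by rintro rfl; simp at h0
  have h2 : R.coeff (j + 1) ≠ 0 := by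
    rw [← hj, coeff_natDegree]; exact leadingCoeff_ne_zero.mpr hR
  have e1 := cast_ne_zero (k := k) (p := p) (j := j + 1) (by omega) (by omega)
  push_cast at e1
  exact mul_ne_zero h2 e1 h1

/-- Two Legendre polynomials of degrees `N` and `2N` or `2N+1` do not divide each other. -/
theorem exists_root [IsAlgClosed k] {p : ℕ} [CharP k p] (hp2 : 2 < p) {ch cg : k} {h g : k[X]}
    (Lh : Leg ch h) (Lg : Leg cg g) (h1 : h.eval 1 ≠ 0) (h2 : h.eval (-1) ≠ 0) (hg : g ≠ 0)
    (hd : h.natDegree + 1 < p)
    (hdeg : (g.natDegree = 2 * h.natDegree ∧ 1 ≤ h.natDegree) ∨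
      (g.natDegree = 2 * h.natDegree + 1 ∧ 2 ≤ h.natDegree)) :
    ∃ r, h.eval r = 0 ∧ g.eval r ≠ 0 := by
  by_contra hcon
  push Not at hcon
  have hh : h ≠ 0 := by rintro rfl; simp at h1
  have hn := Lh.separable (by omega) h1 h2
  obtain ⟨R, hR⟩ := dvd_of_roots hh hn hcon
  have hR0 : R ≠ 0 := by rintro rfl; simp at hR; exact hg hR
  have hdR : g.natDegree = h.natDegree + R.natDegree := by rw [hR, natDegree_mul hh hR0]
  have two : (2 : k) ≠ 0 := by
    exact_mod_cast cast_ne_zero (k := k) (p := p) (j := 2) (by omega) (by omega)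
  unfold Leg at Lh Lg
  have key : h * (C (cg - ch) * R + ((1 - X ^ 2) * derivative (derivative R) - 2 * X * derivative R))
      + 2 * (1 - X ^ 2) * derivative h * derivative R = 0 := by
    rw [hR] at Lg
    simp only [derivative_mul, derivative_add, map_sub] at Lg ⊢
    linear_combination Lg - R * Lh
  have hdvd : h ∣ derivative R := by
    refine dvd_of_roots hh hn (fun r hr => ?_)
    have h5 := congrArg (eval r) key
    have hr1 : 1 - r ^ 2 ≠ 0 := by
      intro h0
      have : (r - 1) * (r + 1) = 0 := by linear_combination -h0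
      rcases mul_eq_zero.mp this with h | h
      · exact h1 (by rwa [← sub_eq_zero.mp h])
      · exact h2 (by rwa [← eq_neg_of_add_eq_zero_left h])
    have hr2 : (derivative h).eval r ≠ 0 := by
      intro h0
      refine Leg.not_sq_dvd (p := p) Lh (by omega) h1 h2 r ?_
      obtain ⟨Q, hQ⟩ := dvd_iff_isRoot.mpr hr
      have : Q.eval r = 0 := by
        rw [hQ] at h0; simpa using h0
      obtain ⟨Q', hQ'⟩ := dvd_iff_isRoot.mpr this
      exact ⟨Q', by rw [hQ, hQ']; ring⟩
    simpa [hr, hr1, hr2, two] using h5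
  have hdR' : (derivative R).natDegree ≤ R.natDegree - 1 := natDegree_derivative_le R
  by_cases hR' : derivative R = 0
  · have := eq_C_of_derivative (p := p) (by omega) hR'
    omega
  have hle := natDegree_le_of_dvd hdvd hR'
  rcases hdeg with ⟨e1, e2⟩ | ⟨e1, e2⟩
  · omega
  obtain ⟨κ, hκ⟩ := hdvd
  have hκ0 : κ ≠ 0 := by rintro rfl; simp at hκ; exact hR' hκ
  have hκd : κ.natDegree = 0 := by
    have := natDegree_mul hh hκ0
    rw [← hκ] at this
    omega
  rw [natDegree_eq_zero] at hκd
  obtain ⟨a, rfl⟩ := hκd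
  have ha : a ≠ 0 := by rintro rfl; simp at hκ0
  have k2 : C (cg - ch) * R + C a * (3 * (1 - X ^ 2) * derivative h - 2 * X * h) = 0 := by
    rw [hκ] at key
    simp only [derivative_mul, derivative_C, mul_zero, add_zero] at key
    refine (mul_eq_zero.mp (?_ : h * _ = 0)).resolve_left hh
    linear_combination key
  have k3 := congrArg derivative k2
  simp only [derivative_add, derivative_mul, derivative_C, zero_mul, zero_add, hκ, derivative_sub,
    derivative_one, derivative_X_pow, derivative_X, derivative_ofNat, derivative_zero] at k3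
  have k4 : C a * (2 * X * derivative h - C (4 * ch + 2 - cg) * (-h)) = 0 := by
    simp only [map_sub, map_add, map_mul, map_ofNat, Nat.cast_ofNat] at k3 ⊢
    norm_num at k3
    linear_combination -k3 + 3 * C a * Lh
  have k5 := (mul_eq_zero.mp k4).resolve_left (by simpa using ha)
  have k6 : ∀ j : ℕ, (2 * (j : k) + (4 * ch + 2 - cg)) * h.coeff j = 0 := by
    intro j
    have h1 := congrArg (fun Q => Q.coeff j) k5
    have e2 : (2 : k[X]) * X * derivative h = C 2 * (X * derivative h) := by
      rw [mul_assoc]; rfl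
    have a1 : (X * derivative h).coeff j = (j : k) * h.coeff j := by
      cases j with
      | zero => simp
      | succ j => rw [coeff_X_mul, coeff_derivative]; push_cast; ring
    simp only [e2, coeff_sub, coeff_C_mul, coeff_zero, coeff_neg, a1] at h1
    linear_combination h1
  have hlc : h.coeff h.natDegree ≠ 0 := by
    rw [coeff_natDegree]; exact leadingCoeff_ne_zero.mpr hh
  have k7 := (mul_eq_zero.mp (k6 h.natDegree)).resolve_right hlc
  have k8 : ∀ j : ℕ, j < h.natDegree → h.coeff j = 0 := by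
    intro j hj
    refine (mul_eq_zero.mp (k6 j)).resolve_left (fun h0 => ?_)
    have e1 := cast_ne_zero (k := k) (p := p) (j := h.natDegree - j) (by omega) (by omega)
    rw [Nat.cast_sub hj.le] at e1
    refine mul_ne_zero two e1 ?_
    linear_combination k7 - h0
  refine Leg.not_sq_dvd (p := p) Lh (by omega) h1 h2 0 ?_
  rw [map_zero, sub_zero, X_pow_dvd_iff]
  intro d hd
  exact k8 d (by omega)

end Pool.Agent.Lib.MP_be0804_ag
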