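import Mathlib
import Pool.Agent.Lib.MP_be0804_ag.Ode

set_option autoImplicit false

open Polynomial

namespace Pool.Agent.Lib.MP_be0804_ag

variable {k : Type*} [Field k]

/-- `G dx` is an exact differential. -/
def Exact (G : k[X]) : Prop := ∃ H : k[X], derivative H = G

theorem exact_iff (p : ℕ) [CharP k p] (G : k[X]) :
    Exact G ↔ ∀ i, p ∣ i + 1 → G.coeff i = 0 := by
  constructor
  · rintro ⟨H, rfl⟩ i hi
    rw [coeff_derivative]
    have : ((i : k) + 1) = 0 := by exact_mod_cast (CharP.cast_eq_zero_iff k p (i + 1)).mpr hi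
    rw [this, mul_zero]
  · intro h
    refine ⟨G.sum (fun i a => monomial (i + 1) (a / ((i : k) + 1))), ?_⟩
    conv_rhs => rw [G.as_sum_support]
    rw [Polynomial.sum, map_sum]
    refine Finset.sum_congr rfl (fun i hi => ?_)
    rw [derivative_monomial]
    have h1 : ((i : k) + 1) ≠ 0 := by
      intro h0
      have : p ∣ i + 1 := (CharP.cast_eq_zero_iff k p (i + 1)).mp (by exact_mod_cast h0)
      exact (mem_support_iff.mp hi) (h i this)
    simp only [Nat.add_sub_cancel, Nat.cast_add, Nat.cast_one]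
    rw [div_mul_cancel₀ _ h1]

theorem Exact.C_mul {G : k[X]} (h : Exact G) (a : k) : Exact (C a * G) := by
  obtain ⟨H, rfl⟩ := h
  exact ⟨C a * H, by simp⟩

theorem Exact.comp {G : k[X]} (h : Exact G) {a : k} (ha : a ≠ 0) (b : k) :
    Exact (G.comp (C a * X + C b)) := by
  obtain ⟨H, rfl⟩ := h
  refine ⟨C a⁻¹ * H.comp (C a * X + C b), ?_⟩
  rw [derivative_C_mul, derivative_comp]
  simp only [derivative_add, derivative_C_mul, derivative_X, mul_one, derivative_C, add_zero]
  rw [← mul_assoc, ← map_mul, inv_mul_cancel₀ ha, map_one, one_mul]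

theorem Exact.reflect (p : ℕ) [CharP k p] {G : k[X]} (h : Exact G) (N : ℕ) (hN : p ∣ N + 2) :
    Exact (reflect N G) := by
  rw [exact_iff p] at h ⊢
  intro i hi
  rw [coeff_reflect]
  apply h
  by_cases hiN : i ≤ N
  · rw [revAt_le hiN]
    have : N - i + 1 = (N + 2) - (i + 1) := by omega
    rw [this]
    exact Nat.dvd_sub hN hi
  · rwa [revAt_eq_self_of_lt (by omega)]

/-- No nonzero regular differential on `y^2 = f` is exact. -/
def Ord (n : ℕ) (f : k[X]) : Prop :=
  ∀ q : k[X], q.natDegree ≤ 1 → Exact (q * f ^ n) → q = 0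

theorem Ord.of_C_mul {n : ℕ} {f : k[X]} (a : k) (h : Ord n (C a * f)) : Ord n f := by
  intro q hq he
  refine h q hq ?_
  have := he.C_mul (a ^ n)
  rwa [map_pow, mul_left_comm, ← mul_pow] at this

theorem Ord.of_comp {n : ℕ} {f : k[X]} {a : k} (ha : a ≠ 0) (b : k)
    (h : Ord n (f.comp (C a * X + C b))) : Ord n f := by
  intro q hq he
  have h1 := he.comp ha b
  rw [mul_comp, pow_comp] at h1
  have hd : (C a * X + C b).natDegree = 1 := natDegree_linear ha
  have h2 := h _ (by rw [natDegree_comp, hd]; omega) h1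
  rw [comp_eq_zero_iff] at h2
  rcases h2 with h2 | ⟨-, h2⟩
  · exact h2
  · rw [h2, natDegree_C] at hd; omega

theorem reflect_pow' (f : k[X]) {d : ℕ} (hf : f.natDegree ≤ d) (n : ℕ) :
    reflect (n * d) (f ^ n) = reflect d f ^ n := by
  induction n with
  | zero => simp
  | succ n ih =>
    rw [pow_succ, Nat.succ_mul, reflect_mul _ _ (natDegree_pow_le.trans (by gcongr)) hf, ih,
      pow_succ]

theorem Ord.of_reflect {n : ℕ} [CharP k (2 * n + 1)] {f : k[X]} (hf : f.natDegree ≤ 6)
    (h : Ord n (reflect 6 f)) : Ord n f := by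
  intro q hq he
  have h1 := he.reflect (2 * n + 1) (1 + n * 6) ⟨3, by ring⟩
  rw [reflect_mul _ _ hq (natDegree_pow_le.trans (by gcongr)), reflect_pow' _ hf] at h1
  have h2 := h _ (natDegree_reflect_le.trans (by omega)) h1
  exact reflect_eq_zero_iff.mp h2

theorem Ord.det_ne_zero {n : ℕ} [CharP k (2 * n + 1)] (hn : 1 ≤ n) {f : k[X]} (hf : f.natDegree ≤ 6)
    (h : Ord n f) :
    (f ^ n).coeff (2 * n) * (f ^ n).coeff (4 * n) -
      (f ^ n).coeff (2 * n - 1) * (f ^ n).coeff (4 * n + 1) ≠ 0 := by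
  intro h0
  have key : ∀ a b : k, a * (f ^ n).coeff (2 * n) + b * (f ^ n).coeff (2 * n - 1) = 0 →
      a * (f ^ n).coeff (4 * n + 1) + b * (f ^ n).coeff (4 * n) = 0 → a = 0 ∧ b = 0 := by
    intro a b h1 h2
    have hq : (C b * X + C a).natDegree ≤ 1 := natDegree_linear_le
    have := h (C b * X + C a) hq (by
      rw [exact_iff (2 * n + 1)]
      rintro i ⟨j, hj⟩
      have hc : ∀ i, ((C b * X + C a) * f ^ n).coeff (i + 1) =
          a * (f ^ n).coeff (i + 1) + b * (f ^ n).coeff i := by
        intro i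
        rw [add_mul, mul_assoc, coeff_add, coeff_C_mul, coeff_C_mul, coeff_X_mul]; ring
      rcases j with _ | _ | _ | j
      · omega
      · obtain rfl : i = (2 * n - 1) + 1 := by omega
        rw [hc, show 2 * n - 1 + 1 = 2 * n by omega, h1]
      · obtain rfl : i = (4 * n) + 1 := by omega
        rw [hc, h2]
      · apply coeff_eq_zero_of_natDegree_lt
        have h3 : (f ^ n).natDegree ≤ n * 6 := natDegree_pow_le.trans (by gcongr)
        have h4 := natDegree_mul_le (p := C b * X + C a) (q := f ^ n)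
        have h5 : (2 * n + 1) * 3 ≤ (2 * n + 1) * (j + 1 + 1 + 1) := by gcongr; omega
        omega)
    have ha := congrArg (fun Q => Q.coeff 0) this
    have hb := congrArg (fun Q => Q.coeff 1) this
    simp [coeff_C, coeff_X] at ha hb
    exact ⟨ha, hb⟩
  have k1 := key ((f ^ n).coeff (4 * n)) (-(f ^ n).coeff (4 * n + 1)) (by linear_combination h0)
    (by ring)
  have k2 := key (-(f ^ n).coeff (2 * n - 1)) ((f ^ n).coeff (2 * n)) (by ring)
    (by linear_combination h0)
  have k3 := key 1 0 (by rw [k2.2]; simp) (by rw [neg_eq_zero.mp k1.2]; simp)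
  exact one_ne_zero k3.1

theorem exact_iff_cubic {n : ℕ} [CharP k (2 * n + 1)] {f : k[X]} (hf : f.natDegree ≤ 3) :
    Exact (f ^ n) ↔ (f ^ n).coeff (2 * n) = 0 := by
  rw [exact_iff (2 * n + 1)]
  constructor
  · intro h; exact h _ dvd_rfl
  · rintro h i ⟨j, hj⟩
    rcases j with _ | _ | j
    · omega
    · obtain rfl : i = 2 * n := by omega
      exact h
    · apply coeff_eq_zero_of_natDegree_lt
      have h3 : (f ^ n).natDegree ≤ n * 3 := natDegree_pow_le.trans (by gcongr)
      have h5 : (2 * n + 1) * 2 ≤ (2 * n + 1) * (j + 1 + 1) := by gcongr; omega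
      omega

/-- The family `T^2 - 2 x T + 1` over `k[x]`. -/
noncomputable def quadB (k : Type*) [Field k] : k[X][X] := X ^ 2 - C (2 * X) * X + 1

/-- The family `u^3 - 3 u + 2 x` over `k[x]`. -/
noncomputable def cubC (k : Type*) [Field k] : k[X][X] := X ^ 3 - 3 * X + C (2 * X)

/-- Differentiation of the coefficients. -/
noncomputable def dX (k : Type*) [Field k] : Derivation ℤ k[X][X] k[X][X] :=
  @Differential.mapCoeffs k[X] _ ⟨(derivative' (R := k)).restrictScalars ℤ⟩

theorem coeff_dX (W : k[X][X]) (i : ℕ) : (dX k W).coeff i = derivative (W.coeff i) := rfl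

theorem dX_X : dX k X = 0 := by ext1 i; simp [coeff_dX, coeff_X]; split_ifs <;> simp

theorem dX_C (a : k[X]) : dX k (C a) = C (derivative a) := by
  ext1 i; simp only [coeff_dX, coeff_C]; split_ifs <;> simp

theorem dX_pow (W : k[X][X]) (r : ℕ) : dX k (W ^ (r + 1)) = (r + 1 : ℕ) * W ^ r * dX k W := by
  rw [Derivation.leibniz_pow]; simp [mul_assoc]

theorem dX_mul (V W : k[X][X]) : dX k (V * W) = V * dX k W + W * dX k V := by
  rw [Derivation.leibniz]; simp

theorem dX_nat (m : ℕ) : dX k (m : k[X][X]) = 0 := by simp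

theorem dX_quadB : dX k (quadB k) = -2 * X := by
  have h : (2 : k[X][X]) = C 2 := rfl
  simp only [quadB, map_add, map_sub, dX_mul, dX_C, dX_X, Derivation.map_one_eq_zero, pow_two]
  simp [h]
  ring

theorem dX_cubC : dX k (cubC k) = 2 := by
  have h3 : (3 : k[X][X]) = ((3 : ℕ) : k[X][X]) := rfl
  have h : (2 : k[X][X]) = C 2 := rfl
  simp only [cubC, map_add, map_sub, h3, dX_mul, dX_C, dX_X, dX_nat, pow_three]
  simp [h]

theorem leg_quad (r : ℕ) [CharP k (2 * (r + 2) + 1)] (m : ℕ) :
    Leg ((m : k) * ((m : k) + 1)) ((quadB k ^ (r + 2)).coeff m) := by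
  have hc : (2 * ((r : k[X][X]) + 2) + 1) = 0 := by
    have := CharP.cast_eq_zero k[X][X] (2 * (r + 2) + 1)
    exact_mod_cast this
  have d1 : dX k (quadB k ^ (r + 2)) = X * quadB k ^ (r + 1) := by
    rw [dX_pow, dX_quadB]; push_cast
    linear_combination (-X * quadB k ^ (r + 1)) * hc
  have d2 : dX k (dX k (quadB k ^ (r + 2))) = 3 * X ^ 2 * quadB k ^ r := by
    rw [d1, dX_mul, dX_X, dX_pow, dX_quadB]; push_cast
    linear_combination (-X ^ 2 * quadB k ^ r) * hc
  have hB' : derivative (quadB k) = 2 * X - C (2 * X) := by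
    simp [quadB]; norm_num
  have pde : C (1 - X ^ 2) * dX k (dX k (quadB k ^ (r + 2))) - C (2 * X) * dX k (quadB k ^ (r + 2))
      + X * derivative (derivative (X * quadB k ^ (r + 2))) = 0 := by
    rw [d2, d1]
    simp only [derivative_mul, derivative_X, one_mul, derivative_add, derivative_pow, hB',
      derivative_C, derivative_sub, derivative_ofNat, map_natCast, derivative_natCast,
      show r + 2 - 1 = r + 1 from rfl, show r + 1 - 1 = r from rfl]
    have hB : quadB k = X ^ 2 - 2 * C X * X + 1 := by simp [quadB, map_ofNat]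
    simp only [map_sub, map_one, map_pow, map_mul, map_ofNat, pow_succ (quadB k)]
    push_cast
    set W := quadB k ^ r
    rw [hB]
    linear_combination (W * (2 * ((r : k[X][X]) + 2) * X ^ 2 * (X - C X) ^ 2 +
      3 * X ^ 2 * (1 - C X ^ 2) - 2 * C X * X * (X ^ 2 - 2 * C X * X + 1))) * hc
  have h1 := congrArg (fun Q => Q.coeff m) pde
  simp only [coeff_add, coeff_sub, coeff_C_mul, coeff_dX, coeff_zero] at h1
  have h2 : (X * derivative (derivative (X * quadB k ^ (r + 2)))).coeff m =
      C ((m : k) * ((m : k) + 1)) * (quadB k ^ (r + 2)).coeff m := by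
    cases m with
    | zero => simp
    | succ m =>
      rw [coeff_X_mul, coeff_derivative, coeff_derivative, coeff_X_mul]
      simp only [map_mul, map_add, map_natCast, map_one, Nat.cast_add, Nat.cast_one]
      ring
  rw [h2] at h1
  exact h1

theorem leg_cub (r : ℕ) [CharP k (2 * (r + 2) + 1)] (h36 : (36 : k) ≠ 0) :
    Leg (-5 / 36 : k) ((cubC k ^ (r + 2)).coeff (2 * (r + 2))) := by
  have hc : (2 * ((r : k[X][X]) + 2) + 1) = 0 := by
    have := CharP.cast_eq_zero k[X][X] (2 * (r + 2) + 1)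
    exact_mod_cast this
  have hc' : (2 * ((r : k[X]) + 2) + 1) = 0 := by
    have := CharP.cast_eq_zero k[X] (2 * (r + 2) + 1)
    exact_mod_cast this
  have d1 : dX k (cubC k ^ (r + 2)) = - cubC k ^ (r + 1) := by
    rw [dX_pow, dX_cubC]; push_cast
    linear_combination (cubC k ^ (r + 1)) * hc
  have d2 : dX k (dX k (cubC k ^ (r + 2))) = 3 * cubC k ^ r := by
    rw [d1, map_neg, dX_pow, dX_cubC]; push_cast
    linear_combination (-cubC k ^ r) * hc
  have hB' : derivative (cubC k) = 3 * X ^ 2 - 3 := by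
    simp [cubC, map_ofNat]; norm_num
  have pde : C (36 * (1 - X ^ 2)) * dX k (dX k (cubC k ^ (r + 2)))
      - C (72 * X) * dX k (cubC k ^ (r + 2)) - C 5 * cubC k ^ (r + 2) =
      derivative ((10 * X ^ 4 - 42 * X ^ 2 + 8 * C X * X + 24) * cubC k ^ (r + 1)) := by
    rw [d2, d1]
    simp only [derivative_mul, derivative_X, derivative_add, derivative_pow, hB',
      derivative_C, derivative_sub, derivative_ofNat, map_natCast,
      show r + 1 - 1 = r from rfl]
    have hB : cubC k = X ^ 3 - 3 * X + 2 * C X := by simp [cubC, map_ofNat]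
    simp only [map_sub, map_one, map_pow, map_mul, map_ofNat, pow_succ (cubC k)]
    push_cast
    set W := cubC k ^ r
    rw [hB]
    linear_combination (-W * (5 * X ^ 4 - 21 * X ^ 2 + 4 * C X * X + 12) * (3 * X ^ 2 - 3)) * hc
  have h1 := congrArg (fun Q => Q.coeff (2 * (r + 2))) pde
  simp only [coeff_sub, coeff_C_mul, coeff_dX, coeff_derivative] at h1
  push_cast at h1
  rw [hc', mul_zero] at h1
  unfold Leg
  have h2 : (C (36 : k)) ≠ 0 := by simpa using h36
  refine (mul_eq_zero.mp (?_ : C (36 : k) * _ = 0)).resolve_left h2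
  have h3 : C (36 : k) * C (-5 / 36 : k) = -5 := by
    rw [← map_mul, mul_div_cancel₀ _ h36]; simp [map_ofNat]
  have h4 : C (36 : k) = 36 := map_ofNat _ _
  rw [h4] at h3 ⊢
  linear_combination h1 + ((cubC k ^ (r + 2)).coeff (2 * (r + 2))) * h3

theorem natDegree_coeff_pow_le (W : k[X][X]) (hW : ∀ i, (W.coeff i).natDegree ≤ 1) (n i : ℕ) :
    ((W ^ n).coeff i).natDegree ≤ n := by
  induction n generalizing i with
  | zero => rw [pow_zero, coeff_one]; split_ifs <;> simp
  | succ n ih =>
    rw [pow_succ, coeff_mul]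
    refine natDegree_sum_le_of_forall_le _ _ (fun c _ => natDegree_mul_le.trans ?_)
    exact add_le_add (ih _) (hW _)

theorem two_X_natDegree : (2 * X : k[X]).natDegree ≤ 1 := by compute_degree

theorem quadB_coeff (i : ℕ) : ((quadB k).coeff i).natDegree ≤ 1 := by
  have := two_X_natDegree (k := k)
  simp only [quadB, coeff_add, coeff_sub, coeff_X_pow, coeff_C_mul, coeff_X, coeff_one]
  split_ifs <;> simp_all

theorem cubC_coeff (i : ℕ) : ((cubC k).coeff i).natDegree ≤ 1 := by
  have := two_X_natDegree (k := k)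
  have h3 : (3 : k[X][X]) = C 3 := rfl
  simp only [cubC, h3, coeff_add, coeff_sub, coeff_X_pow, coeff_C_mul, coeff_X, coeff_C]
  split_ifs <;> simp_all

theorem eval_quad (x : k) (n m : ℕ) : ((quadB k ^ n).coeff m).eval x =
    ((X ^ 2 - C (2 * x) * X + 1 : k[X]) ^ n).coeff m := by
  have : (quadB k).map (evalRingHom x) = X ^ 2 - C (2 * x) * X + 1 := by simp [quadB]
  rw [← this, ← Polynomial.map_pow, coeff_map]; rfl

theorem eval_cub (x : k) (n m : ℕ) : ((cubC k ^ n).coeff m).eval x =
    ((X ^ 3 - 3 * X + C (2 * x) : k[X]) ^ n).coeff m := by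
  have : (cubC k).map (evalRingHom x) = X ^ 3 - 3 * X + C (2 * x) := by simp [cubC]
  rw [← this, ← Polynomial.map_pow, coeff_map]; rfl

end Pool.Agent.Lib.MP_be0804_ag
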