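import Mathlib
import Pool.Agent.Lib.MP_be0804_ag.Exact

set_option autoImplicit false

open Polynomial

namespace Pool.Agent.Lib.MP_be0804_ag

variable {k : Type*} [Field k]

theorem cub_eval_ne (n : ℕ) [CharP k (2 * n + 1)] (h3 : (3 : k) ≠ 0) (e : k) (he : e ^ 2 = 1) :
    ((cubC k ^ n).coeff (2 * n)).eval e ≠ 0 := by
  rw [eval_cub]
  intro h0
  have h1 := (exact_iff_cubic (by compute_degree)).mpr h0
  have h2 := h1.comp one_ne_zero e
  have he' : (C e : k[X]) ^ 2 = 1 := by rw [← map_pow, he, map_one]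
  have h4 : ((X ^ 3 - 3 * X + C (2 * e) : k[X]) ^ n).comp (C 1 * X + C e) =
      (X ^ 2 * (X + C (3 * e))) ^ n := by
    rw [pow_comp]
    congr 1
    simp only [add_comp, sub_comp, pow_comp, X_comp, mul_comp, C_comp, ofNat_comp, map_mul,
      map_ofNat, map_one]
    push_cast
    linear_combination (3 * X + C e) * he'
  rw [h4, exact_iff_cubic (by compute_degree), mul_pow, ← pow_mul] at h2
  have h5 := coeff_X_pow_mul ((X + C (3 * e)) ^ n) (2 * n) 0
  rw [zero_add] at h5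
  rw [h5, coeff_X_add_C_pow] at h2
  have he0 : e ≠ 0 := by rintro rfl; simp at he
  simp [h3, he0] at h2

theorem quad_eval_ne (n m : ℕ) (hp : (2 * n + 1).Prime) [CharP k (2 * n + 1)] (hm : m ≤ 2 * n) :
    ((quadB k ^ n).coeff m).eval 1 ≠ 0 := by
  rw [eval_quad]
  have h1 : (X ^ 2 - C (2 * 1) * X + 1 : k[X]) = (X + C (-1)) ^ 2 := by
    simp only [mul_one, map_ofNat, map_neg, map_one]; ring
  rw [h1, ← pow_mul, coeff_X_add_C_pow]
  refine mul_ne_zero (pow_ne_zero _ (by simp)) ?_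
  rw [Ne, CharP.cast_eq_zero_iff k (2 * n + 1)]
  intro hd
  have h2 := Nat.choose_mul_factorial_mul_factorial hm
  have h3 : 2 * n + 1 ∣ (2 * n).factorial := by
    rw [← h2, mul_assoc]; exact Dvd.dvd.mul_right hd _
  have := (Nat.Prime.dvd_factorial hp).mp h3
  omega

theorem exists_x0 [IsAlgClosed k] (n : ℕ) (hp : (2 * n + 1).Prime) [CharP k (2 * n + 1)]
    (hn : 3 ≤ n) (h11 : n ≠ 5) :
    ∃ x : k, x ≠ 1 ∧ x ≠ -1 ∧ Exact ((X ^ 3 - 3 * X + C (2 * x) : k[X]) ^ n) ∧
      ((X ^ 2 - C (2 * x) * X + 1 : k[X]) ^ n).coeff ((2 * n + 1) / 3) ≠ 0 := by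
  obtain ⟨r, rfl⟩ : ∃ r, n = r + 2 := ⟨n - 2, by omega⟩
  set n := r + 2 with hnr
  set m := (2 * n + 1) / 3 with hm
  have h2 : (2 : k) ≠ 0 := by
    exact_mod_cast cast_ne_zero (k := k) (p := 2 * n + 1) (j := 2) (by omega) (by omega)
  have h3 : (3 : k) ≠ 0 := by
    exact_mod_cast cast_ne_zero (k := k) (p := 2 * n + 1) (j := 3) (by omega) (by omega)
  have h36 : (36 : k) ≠ 0 := by
    have : (36 : k) = 2 ^ 2 * 3 ^ 2 := by norm_num
    rw [this]; positivity
  have Lh := leg_cub (k := k) r h36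
  have Lg := leg_quad (k := k) r m
  have e1 := cub_eval_ne (k := k) n h3 1 (by norm_num)
  have e2 := cub_eval_ne (k := k) n h3 (-1) (by norm_num)
  have e3 := quad_eval_ne (k := k) n m hp (by omega)
  have dh := natDegree_coeff_pow_le _ (cubC_coeff (k := k)) n (2 * n)
  have dg := natDegree_coeff_pow_le _ (quadB_coeff (k := k)) n m
  set h := (cubC k ^ n).coeff (2 * n) with hh
  set g := (quadB k ^ n).coeff m with hg
  have hh0 : h ≠ 0 := by intro h0; rw [h0] at e1; simp at e1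
  have hg0 : g ≠ 0 := by intro h0; rw [h0] at e3; simp at e3
  have n3 : ¬ 3 ∣ 2 * n + 1 := by
    intro hd
    have := (Nat.prime_dvd_prime_iff_eq Nat.prime_three hp).mp hd
    omega
  have hdg : g.natDegree = m := by
    have a1 := Lg.deg hg0
    have a2 : ((g.natDegree : k) - m) * ((g.natDegree + m + 1 : ℕ) : k) = 0 := by
      push_cast; linear_combination -a1
    have a3 := (mul_eq_zero.mp a2).resolve_right
      (cast_ne_zero (p := 2 * n + 1) (by omega) (by omega))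
    exact CharP.natCast_injOn_Iio k (2 * n + 1) (by simp only [Set.mem_Iio]; omega)
      (by simp only [Set.mem_Iio]; omega) (sub_eq_zero.mp a3)
  have hdh : 6 * h.natDegree + 1 = 2 * n + 1 ∨ 6 * h.natDegree + 5 = 2 * n + 1 := by
    have a1 := Lh.deg hh0
    have a2 : ((6 * h.natDegree + 1 : ℕ) : k) * ((6 * h.natDegree + 5 : ℕ) : k) = 0 := by
      push_cast
      rw [div_eq_iff h36] at a1
      linear_combination -a1
    rcases mul_eq_zero.mp a2 with a3 | a3
    · rw [CharP.cast_eq_zero_iff k (2 * n + 1)] at a3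
      obtain ⟨j, hj⟩ := a3
      left
      rcases j with _ | _ | _ | j
      · omega
      · omega
      · omega
      · have h5 : (2 * n + 1) * 3 ≤ (2 * n + 1) * (j + 1 + 1 + 1) := by gcongr; omega
        omega
    · rw [CharP.cast_eq_zero_iff k (2 * n + 1)] at a3
      obtain ⟨j, hj⟩ := a3
      right
      rcases j with _ | _ | _ | _ | j
      · omega
      · omega
      · omega
      · omega
      · have h5 : (2 * n + 1) * 4 ≤ (2 * n + 1) * (j + 1 + 1 + 1 + 1) := by gcongr; omega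
        omega
  obtain ⟨x, hx1, hx2⟩ := exists_root (p := 2 * n + 1) (by omega) Lh Lg e1 e2 hg0 (by omega)
    (by rw [hdg]; omega)
  refine ⟨x, ?_, ?_, ?_, ?_⟩
  · rintro rfl; exact e1 hx1
  · rintro rfl; exact e2 hx1
  · rw [exact_iff_cubic (by compute_degree), ← eval_cub]; exact hx1
  · rw [← eval_quad]; exact hx2

theorem ord_sextic (n : ℕ) (hp : (2 * n + 1).Prime) [CharP k (2 * n + 1)] (hn : 3 ≤ n) (y : k)
    (hy : ((X ^ 2 - C y * X + 1 : k[X]) ^ n).coeff ((2 * n + 1) / 3) ≠ 0) :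
    Ord n (X ^ 6 - C y * X ^ 3 + 1 : k[X]) := by
  have hS : (X ^ 6 - C y * X ^ 3 + 1 : k[X]) = expand k 3 (X ^ 2 - C y * X + 1) := by
    simp [← pow_mul]
  have hB : reflect 2 (X ^ 2 - C y * X + 1 : k[X]) = X ^ 2 - C y * X + 1 := by
    have : reflect 2 (X : k[X]) = X := by
      have := reflect_monomial (R := k) 2 1
      rwa [revAt_le (by norm_num), pow_one] at this
    rw [reflect_add, reflect_sub, reflect_C_mul, reflect_one, reflect_monomial, this,
      revAt_le le_rfl]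
    ring
  have hpal : ∀ i, i ≤ n * 2 → ((X ^ 2 - C y * X + 1 : k[X]) ^ n).coeff (n * 2 - i) =
      ((X ^ 2 - C y * X + 1 : k[X]) ^ n).coeff i := by
    intro i hi
    have := reflect_pow' (X ^ 2 - C y * X + 1 : k[X]) (d := 2) (by compute_degree) n
    rw [hB] at this
    conv_rhs => rw [← this, coeff_reflect, revAt_le hi]
  have n3 : ¬ 3 ∣ 2 * n + 1 := by
    intro hd
    have := (Nat.prime_dvd_prime_iff_eq Nat.prime_three hp).mp hd
    omega
  have n3' : n % 3 ≠ 1 := by omega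
  intro q hq he
  rw [exact_iff (2 * n + 1), hS, ← map_pow] at he
  set B := (X ^ 2 - C y * X + 1 : k[X]) ^ n
  rw [eq_X_add_C_of_natDegree_le_one hq] at he ⊢
  set a := q.coeff 0
  set b := q.coeff 1
  have hc : ∀ i, ((C b * X + C a) * expand k 3 B).coeff (i + 1) =
      a * (expand k 3 B).coeff (i + 1) + b * (expand k 3 B).coeff i := by
    intro i
    rw [add_mul, mul_assoc, coeff_add, coeff_C_mul, coeff_C_mul, coeff_X_mul]; ring
  have k1 := he (2 * n - 1 + 1) ⟨1, by omega⟩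
  have k2 := he (4 * n + 1) ⟨2, by omega⟩
  rw [hc, coeff_expand (by norm_num), coeff_expand (by norm_num)] at k1 k2
  have : a = 0 ∧ b = 0 := by
    by_cases h : 3 ∣ n
    · rw [if_pos (by omega), if_neg (by omega),
        show (2 * n - 1 + 1) / 3 = (2 * n + 1) / 3 by omega] at k1
      rw [if_neg (by omega), if_pos (by omega),
        show 4 * n / 3 = n * 2 - (2 * n + 1) / 3 by omega, hpal _ (by omega)] at k2
      exact ⟨by simpa [hy] using k1, by simpa [hy] using k2⟩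
    · rw [if_neg (by omega), if_pos (by omega),
        show (2 * n - 1) / 3 = (2 * n + 1) / 3 by omega] at k1
      rw [if_pos (by omega), if_neg (by omega),
        show (4 * n + 1) / 3 = n * 2 - (2 * n + 1) / 3 by omega, hpal _ (by omega)] at k2
      exact ⟨by simpa [hy] using k2, by simpa [hy] using k1⟩
  rw [this.1, this.2]; simp

theorem exact_legendre (n : ℕ) {a b y l : k} (ha : a ≠ 0) (h1 : 3 * b = -a * (1 + l))
    (h2 : 3 * b ^ 2 - 3 = a ^ 2 * l) (h3 : b ^ 3 - 3 * b + y = 0)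
    (h : Exact ((X ^ 3 - 3 * X + C y : k[X]) ^ n)) : Exact ((X * (X - 1) * (X - C l)) ^ n) := by
  have h4 := (h.comp ha b).C_mul ((a ^ 3)⁻¹ ^ n)
  have h5 : (X ^ 3 - 3 * X + C y : k[X]).comp (C a * X + C b) =
      C (a ^ 3) * (X * (X - 1) * (X - C l)) := by
    have c1 := congrArg (C : k → k[X]) h1
    have c2 := congrArg (C : k → k[X]) h2
    have c3 := congrArg (C : k → k[X]) h3
    simp only [map_mul, map_add, map_sub, map_neg, map_pow, map_ofNat, map_one, map_zero] at c1 c2 c3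
    simp only [add_comp, sub_comp, pow_comp, X_comp, mul_comp, C_comp, ofNat_comp, map_pow]
    push_cast
    linear_combination (C a ^ 2 * X ^ 2) * c1 + (C a * X) * c2 + c3
  rwa [pow_comp, h5, map_pow, ← mul_pow, ← mul_assoc, ← map_mul,
    inv_mul_cancel₀ (pow_ne_zero 3 ha), map_one, one_mul] at h4

theorem reflect_lin (a b : k) : reflect 1 (C a * X + C b) = C a + C b * X := by
  rw [reflect_add, reflect_C_mul, reflect_one_X, reflect_C]; simp

theorem ord_transfer (n : ℕ) [CharP k (2 * n + 1)] {κ b e : k} (hκ : κ ≠ 0)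
    {r1 r2 r3 r4 r5 t1 t2 t3 t4 t5 : k}
    (h1 : (b - r1) * (e - t1) = κ) (h2 : (b - r2) * (e - t2) = κ) (h3 : (b - r3) * (e - t3) = κ)
    (h4 : (b - r4) * (e - t4) = κ) (h5 : (b - r5) * (e - t5) = κ)
    (h : Ord n ((X - C e) * (X - C t1) * (X - C t2) * (X - C t3) * (X - C t4) * (X - C t5))) :
    Ord n ((X - C r1) * (X - C r2) * (X - C r3) * (X - C r4) * (X - C r5)) := by
  refine Ord.of_comp hκ b ?_
  have e1 : ∀ r : k, (X - C r).comp (C κ * X + C b) = C κ * X + C (b - r) := by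
    intro r; simp; ring
  simp only [mul_comp, e1]
  refine Ord.of_reflect (by compute_degree!) ?_
  have e2 : ∀ c1 c2 c3 c4 c5 : k, reflect 6 ((C κ * X + C c1) * (C κ * X + C c2) *
      (C κ * X + C c3) * (C κ * X + C c4) * (C κ * X + C c5)) =
      X * (C κ + C c1 * X) * (C κ + C c2 * X) * (C κ + C c3 * X) * (C κ + C c4 * X) *
        (C κ + C c5 * X) := by
    intro c1 c2 c3 c4 c5
    rw [← one_mul (C κ * X + C c1), show 6 = 1 + 1 + 1 + 1 + 1 + 1 from rfl,
      reflect_mul _ _ (by compute_degree!) natDegree_linear_le,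
      reflect_mul _ _ (by compute_degree!) natDegree_linear_le,
      reflect_mul _ _ (by compute_degree!) natDegree_linear_le,
      reflect_mul _ _ (by compute_degree!) natDegree_linear_le,
      reflect_mul _ _ (by compute_degree!) natDegree_linear_le]
    simp only [reflect_lin, reflect_one, pow_one]
  rw [e2]
  refine Ord.of_comp one_ne_zero (-e) ?_
  have e3 : ∀ r t : k, (b - r) * (e - t) = κ →
      (C κ + C (b - r) * X).comp (C 1 * X + C (-e)) = C (b - r) * (X - C t) := by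
    intro r t hrt
    rw [← hrt]; simp; ring
  have e4 : ∀ r t : k, (b - r) * (e - t) = κ → b - r ≠ 0 := by
    intro r t hrt h0
    rw [h0, zero_mul] at hrt; exact hκ hrt.symm
  simp only [mul_comp, e3 _ _ h1, e3 _ _ h2, e3 _ _ h3, e3 _ _ h4, e3 _ _ h5, X_comp]
  have hc : (b - r1) * (b - r2) * (b - r3) * (b - r4) * (b - r5) ≠ 0 := by
    have := e4 _ _ h1; have := e4 _ _ h2; have := e4 _ _ h3; have := e4 _ _ h4
    have := e4 _ _ h5; positivity
  refine Ord.of_C_mul ((b - r1) * (b - r2) * (b - r3) * (b - r4) * (b - r5))⁻¹ ?_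
  convert h using 1
  have := congrArg (C : k → k[X]) (inv_mul_cancel₀ hc)
  simp only [map_mul, map_one, map_neg] at this ⊢
  linear_combination ((X - C e) * (X - C t1) * (X - C t2) * (X - C t3) * (X - C t4) * (X - C t5)) * this

/-- The value of the Legendre parameter attached to `v`. -/
noncomputable def lam (w v : k) : k := -w ^ 2 * (v ^ 2 - 1) / (v ^ 2 - w)

theorem sub_ne_of_cube {w z : k} (hw : w ^ 3 = 1) (hz : z ^ 3 ≠ 1) : z - w ≠ 0 := by
  intro h; rw [sub_eq_zero.mp h] at hz; exact hz hw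

theorem lam_good (n : ℕ) {w v y : k} (h3 : (3 : k) ≠ 0) (hw : w ^ 2 + w + 1 = 0) (hv : v ≠ 0)
    (hz : (v ^ 2) ^ 3 ≠ 1) (hy : y = v ^ 3 + v⁻¹ ^ 3)
    (h : Exact ((X ^ 3 - 3 * X + C y : k[X]) ^ n)) :
    lam w v ≠ 0 ∧ lam w v ≠ 1 ∧ Exact ((X * (X - 1) * (X - C (lam w v))) ^ n) := by
  have w3 : w ^ 3 = 1 := by linear_combination (w - 1) * hw
  have w0 : w ≠ 0 := by rintro rfl; simp at w3
  have w1 : 1 - w ^ 2 ≠ 0 := by
    intro h0
    apply h3
    linear_combination (2 - w) * hw + (1 - w) * h0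
  have z0 : v ^ 2 - 1 ≠ 0 := sub_ne_of_cube (one_pow 3) hz
  have z1 : v ^ 2 - w ≠ 0 := sub_ne_of_cube w3 hz
  have z2 : v ^ 2 - w ^ 2 ≠ 0 := sub_ne_of_cube (by linear_combination (w ^ 3 + 1) * w3) hz
  refine ⟨?_, ?_, ?_⟩
  · unfold lam
    exact div_ne_zero (mul_ne_zero (neg_ne_zero.mpr (pow_ne_zero 2 w0)) z0) z1
  · unfold lam
    rw [Ne, div_eq_one_iff_eq z1]
    intro h0
    apply mul_ne_zero w0 z2
    linear_combination h0 + (v ^ 2 - w) * hw
  · refine exact_legendre n (a := -(1 - w ^ 2) * (v ^ 2 - w) / v) (b := -(w ^ 2 * v + w / v))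
      (div_ne_zero (mul_ne_zero (neg_ne_zero.mpr w1) z1) hv) ?_ ?_ ?_ h
    · unfold lam
      field_simp
      clear * - hw
      grind
    · unfold lam
      field_simp
      clear * - hw
      grind
    · rw [hy]
      field_simp
      clear * - hw
      grind

theorem main_generic [IsAlgClosed k] (n : ℕ) (hp : (2 * n + 1).Prime) [CharP k (2 * n + 1)]
    (hn : 3 ≤ n) (h11 : n ≠ 5) :
    ∃ l1 l2 l3 : k, l1 ≠ l2 ∧ l1 ≠ l3 ∧ l2 ≠ l3 ∧
      (l1 ≠ 0 ∧ l1 ≠ 1 ∧ Exact ((X * (X - 1) * (X - C l1)) ^ n)) ∧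
      (l2 ≠ 0 ∧ l2 ≠ 1 ∧ Exact ((X * (X - 1) * (X - C l2)) ^ n)) ∧
      (l3 ≠ 0 ∧ l3 ≠ 1 ∧ Exact ((X * (X - 1) * (X - C l3)) ^ n)) ∧
      Ord n (X * (X - 1) * (X - C l1) * (X - C l2) * (X - C l3)) := by
  obtain ⟨x, hx1, hx2, hE, hg⟩ := exists_x0 (k := k) n hp hn h11
  have hO := ord_sextic n hp hn _ hg
  have h3 : (3 : k) ≠ 0 := by
    exact_mod_cast cast_ne_zero (k := k) (p := 2 * n + 1) (j := 3) (by omega) (by omega)
  have h2 : (2 : k) ≠ 0 := by
    exact_mod_cast cast_ne_zero (k := k) (p := 2 * n + 1) (j := 2) (by omega) (by omega)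
  obtain ⟨w, hw⟩ : ∃ w : k, w ^ 2 + w + 1 = 0 := by
    obtain ⟨w, hw⟩ := IsAlgClosed.exists_root (X ^ 2 + X + 1 : k[X]) (by
      have : (X ^ 2 + X + 1 : k[X]).degree = 2 := by compute_degree!
      rw [this]; decide)
    exact ⟨w, by simpa using hw⟩
  obtain ⟨v, hv⟩ : ∃ v : k, v ^ 6 - 2 * x * v ^ 3 + 1 = 0 := by
    obtain ⟨v, hv⟩ := IsAlgClosed.exists_root (X ^ 6 - C (2 * x) * X ^ 3 + 1 : k[X]) (by
      have : (X ^ 6 - C (2 * x) * X ^ 3 + 1 : k[X]).degree = 6 := by compute_degree!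
      rw [this]; decide)
    exact ⟨v, by simpa using hv⟩
  have v0 : v ≠ 0 := by rintro rfl; simp at hv
  have w3 : w ^ 3 = 1 := by linear_combination (w - 1) * hw
  have w0 : w ≠ 0 := by rintro rfl; simp at w3
  have w1 : 1 - w ^ 2 ≠ 0 := by
    intro h0
    apply h3
    linear_combination (2 - w) * hw + (1 - w) * h0
  have hz : (v ^ 2) ^ 3 ≠ 1 := by
    intro h0
    have a1 : 2 * (1 - x * v ^ 3) = 0 := by linear_combination hv - h0
    have a2 := (mul_eq_zero.mp a1).resolve_left h2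
    have a3 : (x - 1) * (x + 1) = 0 := by
      linear_combination (-x ^ 2) * h0 - (1 + x * v ^ 3) * a2
    rcases mul_eq_zero.mp a3 with h | h
    · exact hx1 (sub_eq_zero.mp h)
    · exact hx2 (eq_neg_of_add_eq_zero_left h)
  have hy : 2 * x = v ^ 3 + v⁻¹ ^ 3 := by field_simp; linear_combination -hv
  have z0 : v ^ 2 - 1 ≠ 0 := sub_ne_of_cube (one_pow 3) hz
  have z1 : v ^ 2 - w ≠ 0 := sub_ne_of_cube w3 hz
  have z2 : v ^ 2 - w ^ 2 ≠ 0 := sub_ne_of_cube (by linear_combination (w ^ 3 + 1) * w3) hz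
  have g1 := lam_good n h3 hw v0 hz hy hE
  have g2 := lam_good n (v := w * v) h3 hw (mul_ne_zero w0 v0)
    (by rw [show ((w * v) ^ 2) ^ 3 = (w ^ 3) ^ 2 * (v ^ 2) ^ 3 by ring, w3]; simpa using hz)
    (by rw [hy, inv_pow, inv_pow, mul_pow, w3, one_mul]) hE
  have g3 := lam_good n (v := w ^ 2 * v) h3 hw (mul_ne_zero (pow_ne_zero 2 w0) v0)
    (by rw [show ((w ^ 2 * v) ^ 2) ^ 3 = (w ^ 3) ^ 4 * (v ^ 2) ^ 3 by ring, w3]; simpa using hz)
    (by rw [hy, inv_pow, inv_pow, show (w ^ 2 * v) ^ 3 = (w ^ 3) ^ 2 * v ^ 3 by ring, w3]; simp) hE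
  have q1 : lam w v = -w ^ 2 * (v ^ 2 - 1) / (v ^ 2 - w) := rfl
  have q2 : lam w (w * v) = -w ^ 2 * (v ^ 2 - w) / (v ^ 2 - w ^ 2) := by
    have : (w * v) ^ 2 - w ≠ 0 := by
      intro h0; apply mul_ne_zero (pow_ne_zero 2 w0) z2; clear * - hw h0; grind
    unfold lam; rw [div_eq_div_iff this z2]; clear * - hw; grind
  have q3 : lam w (w ^ 2 * v) = -w ^ 2 * (v ^ 2 - w ^ 2) / (v ^ 2 - 1) := by
    have : (w ^ 2 * v) ^ 2 - w ≠ 0 := by
      intro h0; apply mul_ne_zero w0 z0; clear * - hw h0; grind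
    unfold lam; rw [div_eq_div_iff this z0]; clear * - hw; grind
  have hne : (3 : k) * v ^ 2 ≠ 0 := mul_ne_zero h3 (pow_ne_zero 2 v0)
  refine ⟨_, _, _, ?_, ?_, ?_, g1, g2, g3, ?_⟩
  · rw [q1, q2, Ne, div_eq_div_iff z1 z2]
    intro h0; apply hne; clear * - hw h0; grind
  · rw [q1, q3, Ne, div_eq_div_iff z1 z0]
    intro h0; apply hne; clear * - hw h0; grind
  · rw [q2, q3, Ne, div_eq_div_iff z2 z0]
    intro h0; apply hne; clear * - hw h0; grind
  · have := ord_transfer n (κ := w * v * (1 - w ^ 2)) (b := -w) (e := w ^ 2 * v)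
      (mul_ne_zero (mul_ne_zero w0 v0) w1) (r1 := 0) (r2 := 1) (r3 := lam w v)
      (r4 := lam w (w * v)) (r5 := lam w (w ^ 2 * v)) (t1 := v) (t2 := w * v) (t3 := v⁻¹)
      (t4 := w * v⁻¹) (t5 := w ^ 2 * v⁻¹) (by clear * - hw; grind) (by clear * - hw; grind)
      (by rw [q1]; field_simp; clear * - hw; grind) (by rw [q2]; field_simp; clear * - hw; grind)
      (by rw [q3]; field_simp; clear * - hw; grind) (by
        convert hO using 1
        have c1 := congrArg (C : k → k[X]) hw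
        have c2 := congrArg (C : k → k[X]) (mul_inv_cancel₀ v0)
        rw [hy]
        simp only [map_mul, map_add, map_pow, map_one, map_zero] at c1 c2 ⊢
        generalize C w = W at *
        generalize C v = V at *
        generalize C v⁻¹ = U at *
        clear * - c1 c2
        grind)
    simpa using this

end Pool.Agent.Lib.MP_be0804_ag
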