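import Mathlib
import Pool.Agent.Lib.MP_be0804_ag.Main

set_option autoImplicit false

open Polynomial

namespace Pool.Agent.Lib.MP_be0804_ag

variable {k : Type*} [Field k]

theorem hasse_eleven (l : k) : ((X * (X - 1) * (X - C l)) ^ 5).coeff 10 =
    -(1 + 25 * l + 100 * l ^ 2 + 100 * l ^ 3 + 25 * l ^ 4 + l ^ 5) := by
  have h1 : (X * (X - 1) * (X - C l)) ^ 5 = X ^ 5 * ((X + C (-1)) ^ 5 * (X + C (-l)) ^ 5) := by
    simp only [map_neg, map_one]; ring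
  rw [h1, show 10 = 5 + 5 from rfl, coeff_X_pow_mul, coeff_mul]
  simp only [Finset.Nat.antidiagonal_succ, Finset.Nat.antidiagonal_zero, Finset.sum_cons,
    Finset.sum_map, Finset.sum_singleton, coeff_X_add_C_pow]
  simp [Nat.choose]
  ring

theorem main_eleven [IsAlgClosed k] [CharP k 11] :
    ∃ l1 l2 l3 : k, l1 ≠ l2 ∧ l1 ≠ l3 ∧ l2 ≠ l3 ∧
      (l1 ≠ 0 ∧ l1 ≠ 1 ∧ ((X * (X - 1) * (X - C l1)) ^ 5).coeff 10 = 0) ∧
      (l2 ≠ 0 ∧ l2 ≠ 1 ∧ ((X * (X - 1) * (X - C l2)) ^ 5).coeff 10 = 0) ∧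
      (l3 ≠ 0 ∧ l3 ≠ 1 ∧ ((X * (X - 1) * (X - C l3)) ^ 5).coeff 10 = 0) ∧
      ((X * (X - 1) * (X - C l1) * (X - C l2) * (X - C l3)) ^ 5).coeff 10 *
        ((X * (X - 1) * (X - C l1) * (X - C l2) * (X - C l3)) ^ 5).coeff 20 -
      ((X * (X - 1) * (X - C l1) * (X - C l2) * (X - C l3)) ^ 5).coeff 9 *
        ((X * (X - 1) * (X - C l1) * (X - C l2) * (X - C l3)) ^ 5).coeff 21 ≠ 0 := by
  obtain ⟨w, hw⟩ : ∃ w : k, w ^ 2 - w + 1 = 0 := by
    obtain ⟨w, hw⟩ := IsAlgClosed.exists_root (X ^ 2 - X + 1 : k[X]) (by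
      have : (X ^ 2 - X + 1 : k[X]).degree = 2 := by compute_degree!
      rw [this]; decide)
    exact ⟨w, by simpa using hw⟩
  have h11 : (11 : k) = 0 := by exact_mod_cast CharP.cast_eq_zero k 11
  have h3 : (3 : k) ≠ 0 := by
    exact_mod_cast cast_ne_zero (k := k) (p := 11) (j := 3) (by omega) (by omega)
  have h2 : (2 : k) ≠ 0 := by
    exact_mod_cast cast_ne_zero (k := k) (p := 11) (j := 2) (by omega) (by omega)
  refine ⟨2, w, 1 - w, ?_, ?_, ?_, ⟨h2, ?_, ?_⟩, ⟨?_, ?_, ?_⟩, ⟨?_, ?_, ?_⟩, ?_⟩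
  · intro h; apply h3; rw [← h] at hw; linear_combination hw
  · intro h; apply h3
    have : w = -1 := by linear_combination h
    rw [this] at hw; linear_combination hw
  · intro h; apply h3; linear_combination 4 * hw - (2 * w - 1) * h
  · intro h; apply (one_ne_zero : (1 : k) ≠ 0); linear_combination h
  · rw [hasse_eleven]; linear_combination (-153) * h11
  · rintro rfl; simp at hw
  · rintro rfl; simp at hw
  · rw [hasse_eleven]; clear * - hw h11; grind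
  · intro h
    have : w = 1 := by linear_combination -h
    rw [this] at hw; simp at hw
  · intro h
    have : w = 0 := by linear_combination -h
    rw [this] at hw; simp at hw
  · rw [hasse_eleven]; clear * - hw h11; grind
  · have c1 := congrArg (C : k → k[X]) hw
    simp only [map_add, map_sub, map_pow, map_one, map_zero] at c1
    have e1 : (X * (X - 1) * (X - C 2) * (X - C w) * (X - C (1 - w)) : k[X]) =
        X ^ 5 - 4 * X ^ 4 + 6 * X ^ 3 - 5 * X ^ 2 + 2 * X := by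
      simp only [map_sub, map_one, map_ofNat]
      linear_combination (-(X * (X - 1) * (X - 2))) * c1
    have e2 : (X ^ 5 - 4 * X ^ 4 + 6 * X ^ 3 - 5 * X ^ 2 + 2 * X : k[X]) ^ 5 =
        1 * X ^ 25 - 20 * X ^ 24 + 190 * X ^ 23 - 1145 * X ^ 22 + 4930 * X ^ 21 - 16184 * X ^ 20 + 42170 * X ^ 19 - 89560 * X ^ 18 + 157820 * X ^ 17 - 233490 * X ^ 16 + 292116 * X ^ 15 - 310080 * X ^ 14 + 279205 * X ^ 13 - 212420 * X ^ 12 + 135430 * X ^ 11 - 71365 * X ^ 10 + 30410 * X ^ 9 - 10120 * X ^ 8 + 2480 * X ^ 7 - 400 * X ^ 6 + 32 * X ^ 5 := by ring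
    rw [e1, e2]
    simp only [coeff_add, coeff_sub, coeff_ofNat_mul, coeff_X_pow, one_mul]
    norm_num
    intro h
    have h5 : (1 : k) ≠ 0 := by
      exact_mod_cast cast_ne_zero (k := k) (p := 11) (j := 1) (by omega) (by omega)
    apply h5
    linear_combination h - (91368169) * h11

/-- The conjecture in coordinates. -/
theorem main_all [IsAlgClosed k] (n : ℕ) (hp : (2 * n + 1).Prime) [CharP k (2 * n + 1)]
    (hn : 3 ≤ n) :
    ∃ l1 l2 l3 : k, l1 ≠ l2 ∧ l1 ≠ l3 ∧ l2 ≠ l3 ∧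
      (l1 ≠ 0 ∧ l1 ≠ 1 ∧ ((X * (X - 1) * (X - C l1)) ^ n).coeff (2 * n) = 0) ∧
      (l2 ≠ 0 ∧ l2 ≠ 1 ∧ ((X * (X - 1) * (X - C l2)) ^ n).coeff (2 * n) = 0) ∧
      (l3 ≠ 0 ∧ l3 ≠ 1 ∧ ((X * (X - 1) * (X - C l3)) ^ n).coeff (2 * n) = 0) ∧
      ((X * (X - 1) * (X - C l1) * (X - C l2) * (X - C l3)) ^ n).coeff (2 * n) *
        ((X * (X - 1) * (X - C l1) * (X - C l2) * (X - C l3)) ^ n).coeff (4 * n) -
      ((X * (X - 1) * (X - C l1) * (X - C l2) * (X - C l3)) ^ n).coeff (2 * n - 1) *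
        ((X * (X - 1) * (X - C l1) * (X - C l2) * (X - C l3)) ^ n).coeff (4 * n + 1) ≠ 0 := by
  by_cases h : n = 5
  · subst h
    exact main_eleven
  · obtain ⟨l1, l2, l3, a1, a2, a3, ⟨b1, b2, b3⟩, ⟨c1, c2, c3⟩, ⟨d1, d2, d3⟩, e⟩ :=
      main_generic (k := k) n hp hn h
    rw [exact_iff_cubic (by compute_degree!)] at b3 c3 d3
    exact ⟨l1, l2, l3, a1, a2, a3, ⟨b1, b2, b3⟩, ⟨c1, c2, c3⟩, ⟨d1, d2, d3⟩,
      e.det_ne_zero (by omega) (by compute_degree!)⟩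

end Pool.Agent.Lib.MP_be0804_ag
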