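import Mathlib

/-! The Cartier operator on polynomials and logarithmic differentials on `y ^ 2 = f`. -/

set_option autoImplicit false

open Polynomial

namespace Pool.Agent.Lib.MP_be0804_ag.NN

variable {R : Type} [CommRing R]

/-- the coefficients of index `k p + p - 1` -/
noncomputable def car (p : ℕ) (h : R[X]) : R[X] := divX (contract p (X * h))

theorem coeff_car {p : ℕ} (hp : p ≠ 0) (h : R[X]) (k : ℕ) :
    (car p h).coeff k = h.coeff (k * p + (p - 1)) := by
  rw [car, coeff_divX, coeff_contract hp,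
    show (k + 1) * p = k * p + (p - 1) + 1 by rw [add_mul]; omega, coeff_X_mul]

theorem car_zero (p : ℕ) : car p (0 : R[X]) = 0 := by
  ext k; simp [car, contract]

theorem car_add {p : ℕ} (hp : p ≠ 0) (g h : R[X]) : car p (g + h) = car p g + car p h := by
  ext k; simp [coeff_car hp]

theorem car_sub {p : ℕ} (hp : p ≠ 0) (g h : R[X]) : car p (g - h) = car p g - car p h := by
  ext k; simp [coeff_car hp]

theorem car_C_mul {p : ℕ} (hp : p ≠ 0) (c : R) (h : R[X]) : car p (C c * h) = C c * car p h := by
  ext k; simp [coeff_car hp]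

theorem car_expand_mul {p : ℕ} (hp : p ≠ 0) (r h : R[X]) :
    car p (expand R p r * h) = r * car p h := by
  have h1 : contract p (X * h) = X * car p h := by
    have := X_mul_divX_add (contract p (X * h))
    rw [coeff_contract hp, zero_mul, coeff_X_mul_zero, map_zero, add_zero] at this
    exact this.symm
  rw [car, show X * (expand R p r * h) = X * h * expand R p r by ring, contract_mul_expand hp, h1]
  ext k
  rw [coeff_divX, mul_assoc, coeff_X_mul, mul_comm]

theorem car_map {S : Type} [CommRing S] {p : ℕ} (hp : p ≠ 0) (j : R →+* S) (h : R[X]) :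
    (car p h).map j = car p (h.map j) := by
  ext k; simp [coeff_car hp]

theorem car_low {p : ℕ} (hp : p ≠ 0) {h : R[X]} (hd : h.degree < (p - 1 : ℕ)) : car p h = 0 := by
  ext k
  rw [coeff_car hp, coeff_zero]
  exact coeff_eq_zero_of_degree_lt (hd.trans_le (by exact_mod_cast Nat.le_add_left _ _))

variable (p : ℕ) [hp : Fact p.Prime] [CharP R p]

/-- raising the coefficients to the power `p` -/
noncomputable def fr : R[X] →+* R[X] := mapRingHom (frobenius R p)

theorem fr_apply (r : R[X]) : fr p r = r.map (frobenius R p) := rfl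

theorem coeff_fr (r : R[X]) (k : ℕ) : (fr p r).coeff k = r.coeff k ^ p := by
  rw [fr_apply, coeff_map, frobenius_def]

theorem fr_C (c : R) : fr p (C c) = C (c ^ p) := by rw [fr_apply, map_C, frobenius_def]

theorem fr_X : fr p (X : R[X]) = X := by rw [fr_apply, map_X]

theorem expand_fr (r : R[X]) : expand R p (fr p r) = r ^ p := by
  rw [fr_apply, ← map_expand, map_frobenius_expand]

theorem eval_fr (r : R[X]) (x : R) : (fr p r).eval (x ^ p) = r.eval x ^ p := by
  rw [← expand_eval, expand_fr, eval_pow]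

theorem fr_map {S : Type} [CommRing S] [CharP S p] (j : R →+* S) (h : R[X]) :
    (fr p h).map j = fr p (h.map j) := by
  ext k; simp [coeff_fr]

theorem car_pow_mul (r h : R[X]) : car p (r ^ p * h) = fr p r * car p h := by
  rw [← expand_fr, car_expand_mul hp.out.ne_zero]

omit [CharP R p] in
theorem car_lin (a : R) : car p ((X + C a) ^ (p - 1)) = 1 := by
  have h0 := hp.out.ne_zero
  nontriviality R
  have hm : ((X + C a) ^ (p - 1)).Monic := (monic_X_add_C a).pow _
  have hd : ((X + C a) ^ (p - 1)).natDegree = p - 1 := by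
    rw [(monic_X_add_C a).natDegree_pow, natDegree_X_add_C, mul_one]
  ext k
  rw [coeff_car h0]
  rcases k with _ | k
  · rw [zero_mul, zero_add, coeff_one_zero]
    have := hm.coeff_natDegree
    rwa [hd] at this
  · rw [coeff_eq_zero_of_natDegree_lt, coeff_one, if_neg (by omega)]
    rw [hd, add_mul]
    omega

theorem car_log {g : R[X]} (hg : g.Splits) :
    car p (g ^ (p - 1) * derivative g) = fr p (derivative g) := by
  have h0 := hp.out.ne_zero
  have e : ∀ u : R[X], u ^ p = u ^ (p - 1) * u := fun u => by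
    rw [← pow_succ, Nat.sub_add_cancel hp.out.pos]
  induction hg using Submonoid.closure_induction with
  | mem x hx =>
    rcases hx with ⟨a, rfl⟩ | ⟨a, rfl⟩
    · simp [car_zero]
    · simp [car_lin]
  | one => simp [car_zero]
  | mul a b _ _ ha hb =>
    have : (a * b) ^ (p - 1) * derivative (a * b) =
        b ^ p * (a ^ (p - 1) * derivative a) + a ^ p * (b ^ (p - 1) * derivative b) := by
      rw [derivative_mul, e, e, mul_pow]; ring
    rw [this, car_add h0, car_pow_mul, car_pow_mul, ha, hb, derivative_mul]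
    simp only [map_add, map_mul]
    ring

/-- the operator `g ↦ 2 y (y g)'` -/
noncomputable def LL (f g : R[X]) : R[X] := derivative f * g + 2 * f * derivative g

/-- the numerator of the logarithmic derivative of `(a + b y) / (a - b y)` -/
noncomputable def ZZ (f a b : R[X]) : R[X] := a * LL f b - 2 * f * derivative a * b

theorem car_hyp_field {K : Type} [Field K] [IsAlgClosed K] [CharP K p] {m : ℕ} (hm : p = 2 * m + 1)
    {f : K[X]} (hf : f ≠ 0) (a b : K[X]) :
    car p ((a ^ 2 - b ^ 2 * f) ^ (p - 1) * (f ^ m * ZZ f a b)) = fr p (ZZ f a b) := by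
  have h0 := hp.out.ne_zero
  have e : ∀ u : K[X], u ^ p = u ^ (p - 1) * u := fun u => by
    rw [← pow_succ, Nat.sub_add_cancel hp.out.pos]
  have hf' : fr p f ≠ 0 := by rw [fr_apply]; exact map_ne_zero hf
  refine mul_left_cancel₀ hf' (Polynomial.funext fun ξ => ?_)
  rw [eval_mul, eval_mul]
  by_cases hξ : (fr p f).eval ξ = 0
  · rw [hξ, zero_mul, zero_mul]
  congr 1
  obtain ⟨x, rfl⟩ := IsAlgClosed.exists_pow_nat_eq ξ hp.out.pos
  rw [eval_fr] at hξ
  obtain ⟨c, hc⟩ := IsAlgClosed.exists_pow_nat_eq ((f.eval x ^ p)⁻¹) two_pos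
  have hc1 : c ^ 2 * f.eval x ^ p = 1 := by rw [hc, inv_mul_cancel₀ hξ]
  have hc0 : c ≠ 0 := by rintro rfl; simp at hc1
  set g₁ := a + C c * (b * f ^ (m + 1)) with hg₁
  set g₂ := a - C c * (b * f ^ (m + 1)) with hg₂
  have hpz : (2 * (m : K[X]) + 1) = 0 := by
    have := CharP.cast_eq_zero K[X] p
    rw [hm] at this
    exact_mod_cast this
  have h1 : derivative g₁ * g₂ - g₁ * derivative g₂ = C c * (f ^ m * ZZ f a b) := by
    simp only [hg₁, hg₂, ZZ, LL, derivative_sub, derivative_mul, derivative_C,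
      derivative_pow_succ, map_add, map_natCast, map_one]
    linear_combination (C c * a * b * f ^ m * derivative f) * hpz
  have h2 : car p ((g₁ * g₂) ^ (p - 1) * (derivative g₁ * g₂ - g₁ * derivative g₂)) =
      fr p (derivative g₁ * g₂ - g₁ * derivative g₂) := by
    have : (g₁ * g₂) ^ (p - 1) * (derivative g₁ * g₂ - g₁ * derivative g₂) =
        g₂ ^ p * (g₁ ^ (p - 1) * derivative g₁) - g₁ ^ p * (g₂ ^ (p - 1) * derivative g₂) := by
      rw [e, e, mul_pow]; ring
    rw [this, car_sub h0, car_pow_mul, car_pow_mul, car_log p (IsAlgClosed.splits _),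
      car_log p (IsAlgClosed.splits _)]
    simp only [map_sub, map_mul]
    ring
  have h3 : (X - C x) ^ p ∣ g₁ * g₂ - (a ^ 2 - b ^ 2 * f) := by
    have d : (X - C x) ^ p ∣ (C (f.eval x) - f) ^ p :=
      pow_dvd_pow_of_dvd (dvd_iff_isRoot.2 (by simp)) p
    rw [sub_pow_char (C (f.eval x))] at d
    have c2 := congrArg (C : K → K[X]) hc1
    simp only [map_mul, map_pow, map_one] at c2
    have : g₁ * g₂ - (a ^ 2 - b ^ 2 * f) = C c ^ 2 * b ^ 2 * f * (C (f.eval x) ^ p - f ^ p) := by
      rw [hg₁, hg₂, hm]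
      rw [hm] at c2
      linear_combination (-b ^ 2 * f) * c2
    rw [this]
    exact d.mul_left _
  obtain ⟨r, hr⟩ := h3.trans (sub_dvd_pow_sub_pow _ _ (p - 1))
  rw [h1, eq_add_of_sub_eq hr, add_mul, car_add h0, mul_assoc, car_pow_mul,
    mul_left_comm (_ ^ (p - 1)), car_C_mul h0] at h2
  have h4 := congrArg (eval (x ^ p)) h2
  simp only [eval_add, eval_mul, eval_fr, eval_C, eval_sub, eval_X, sub_self, zero_pow h0,
    zero_mul, zero_add, eval_pow] at h4
  rw [eval_fr]
  refine mul_left_cancel₀ hc0 (h4.trans ?_)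
  have : (c ^ 2 * f.eval x ^ p) ^ m = 1 := by rw [hc1, one_pow]
  rw [mul_pow, mul_pow, hm]
  rw [hm] at this
  linear_combination (c * (ZZ f a b).eval x ^ (2 * m + 1)) * this

theorem car_hyp [IsDomain R] {m : ℕ} (hm : p = 2 * m + 1) {f : R[X]} (hf : f ≠ 0) (a b : R[X]) :
    car p ((a ^ 2 - b ^ 2 * f) ^ (p - 1) * (f ^ m * ZZ f a b)) = fr p (ZZ f a b) := by
  let K := AlgebraicClosure (FractionRing R)
  let j : R →+* K := (algebraMap (FractionRing R) K).comp (algebraMap R (FractionRing R))
  have hj : Function.Injective j :=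
    (algebraMap (FractionRing R) K).injective.comp (IsFractionRing.injective R _)
  have : CharP K p := charP_of_injective_ringHom hj p
  refine map_injective j hj ?_
  have := car_hyp_field p hm ((Polynomial.map_ne_zero_iff hj).2 hf) (a.map j) (b.map j)
  rw [car_map hp.out.ne_zero, fr_map]
  simpa [ZZ, LL] using this

end Pool.Agent.Lib.MP_be0804_ag.NN
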