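import Pool.Agent.Lib.MP_be0804_ag.NFund

/-! The dimension count on the square of the curve. -/

set_option autoImplicit false
set_option linter.unusedSectionVars false

open Polynomial Module
open Pool.Agent.Lib.MP_639284_nt

namespace Pool.Agent.Lib.MP_be0804_ag.NN

variable {k : Type} [Field k] {f : k[X]} (hm : f.Monic) (hd : f.natDegree = 5)

theorem finrank_lt {N : ℕ} (hN : 4 ≤ N) : finrank k ((str hm hd).lt N) + 2 = N := by
  have := (str hm hd).finrank_lt N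
  rwa [show {d ∈ Finset.range N | d ∈ (str hm hd).G} = {1, 3} by
    ext d
    change _ ↔ d ∈ (str hm hd).G
    rw [Finset.mem_filter, and_iff_right_iff_imp, Finset.mem_range]
    intro h
    have : d ∈ ({1, 3} : Finset ℕ) := h
    simp only [Finset.mem_insert, Finset.mem_singleton] at this
    omega] at this

theorem dim_lemma {W O : Type} [AddCommGroup W] [Module k W] [FiniteDimensional k W]
    [AddCommGroup O] [Module k O] (ρ ρ' c : W →ₗ[k] O) (A B T : Submodule k O)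
    [FiniteDimensional k A] [FiniteDimensional k B] [FiniteDimensional k T] (r1 : ∀ z, ρ' z ∈ A)
    (r2 : ∀ z, ρ' z = 0 → ρ z ∈ B) (r3 : ∀ z, ρ z = 0 → ρ' z = 0 → c z ∈ T)
    (r4 : ∀ z, ρ z = 0 → ρ' z = 0 → c z = 0 → z = 0)
    (h : finrank k A + finrank k B + finrank k T ≤ finrank k W) :
    ∀ w ∈ T, ∃ z, ρ z = 0 ∧ ρ' z = 0 ∧ c z = w := by
  let K := LinearMap.ker (ρ.domRestrict (LinearMap.ker ρ'))
  let top : K →ₗ[k] T :=
    (c ∘ₗ (LinearMap.ker ρ').subtype ∘ₗ K.subtype).codRestrict _ fun z => r3 _ z.2 z.1.2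
  have inj : Function.Injective top := (injective_iff_map_eq_zero _).2 fun z hz =>
    Subtype.ext (Subtype.ext (r4 _ z.2 z.1.2 (congrArg Subtype.val hz)))
  have f1 := LinearMap.finrank_range_add_finrank_ker ρ'
  have f2 := LinearMap.finrank_range_add_finrank_ker (ρ.domRestrict (LinearMap.ker ρ'))
  have f3 := Submodule.finrank_mono (show LinearMap.range ρ' ≤ A by rintro _ ⟨z, rfl⟩; exact r1 z)
  have f4 := Submodule.finrank_mono (show LinearMap.range (ρ.domRestrict (LinearMap.ker ρ')) ≤ B by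
    rintro _ ⟨z, rfl⟩; exact r2 _ z.2)
  have f8 := LinearMap.finrank_le_finrank_of_injective inj
  have sur : Function.Surjective top := by
    refine (LinearMap.injective_iff_surjective_of_finrank_eq_finrank (le_antisymm f8 ?_)).1 inj
    change _ ≤ finrank k (LinearMap.ker (ρ.domRestrict (LinearMap.ker ρ')))
    omega
  intro w hw
  obtain ⟨z, hz⟩ := sur ⟨w, hw⟩
  exact ⟨_, z.2, z.1.2, congrArg Subtype.val hz⟩

variable {p : ℕ} [hp : Fact p.Prime] [CharP k p] {s : ℕ}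

theorem exists_sur (H : Setup p f (sx f) (ty f)) (hs : p ^ 2 = 2 * s + 3) (J : Ideal (OO f))
    (hJ0 : J ≠ ⊥) (hJ : (p ^ 2) ^ 2 + 4 * p ^ 2 ≤ idg k J)
    (hJ1 : ∀ z : Ix s → OO f, ∑ i, star (uu f i) ^ p ^ 2 * z i = 0 → ∑ i, uu f i * z i ^ p ^ 2 ∈ J)
    {t : Ix s} (ht : 5 ≤ dd t)
    (h0 : ∀ z : Ix s → OO f, InM p z → (z t = 0 → z = 0) ∧ ∀ j, dd t < dd j → z j = 0) :
    ∃ m, p ^ 2 + 5 ≤ m ∧ ∀ w ∈ (str hm hd).lt (m - p ^ 2), ∃ z : Ix s → OO f,
      InM p z ∧ (∀ i, z i ∈ (str hm hd).lt (m + 1)) ∧ z t = w := by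
  classical
  have := (str hm hd).isDomain
  have FL : ∀ N, 4 ≤ N → finrank k ((str hm hd).lt N) + 2 = N := fun N => finrank_lt hm hd
  set D := str hm hd
  obtain ⟨N₀, hN₀⟩ := Filter.eventually_atTop.1 (D.idg_add hJ0)
  obtain ⟨m, hm1, hm2⟩ : ∃ m, p ^ 2 + 5 ≤ m ∧ N₀ ≤ m := ⟨N₀ + p ^ 2 + 5, by omega, by omega⟩
  refine ⟨m, hm1, ?_⟩
  let mm : Ix s → ℕ := fun i => if i = .inl (Fin.last _) then m else m + 1
  have hmm : ∀ i, mm i ≤ m + 1 := fun i => by dsimp only [mm]; split_ifs <;> omega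
  have hdd : ∀ i : Ix s, i ≠ .inl (Fin.last _) → dd i ≤ 2 * s + 5 := fun i hi => by
    have h1 := dd_le i
    have h2 := dd_inj.ne hi
    simp only [dd, Sum.elim_inl, Fin.val_last] at h1 h2 ⊢
    omega
  let Φ : OO f →ₗ[k] OO f :=
    { toFun := fun u => u ^ p ^ 2
      map_add' := fun u v => add_pow_char_pow ..
      map_smul' := fun c u => by rw [_root_.smul_pow, H.fix, RingHom.id_apply] }
  let c : ∀ i, (∀ i, D.lt (mm i)) →ₗ[k] OO f := fun i => (D.lt _).subtype ∘ₗ LinearMap.proj i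
  let ρ' : (∀ i, D.lt (mm i)) →ₗ[k] OO f :=
    ∑ i, LinearMap.mulLeft k (star (uu f i) ^ p ^ 2) ∘ₗ c i
  let ρ : (∀ i, D.lt (mm i)) →ₗ[k] OO f := ∑ i, LinearMap.mulLeft k (uu f i) ∘ₗ Φ ∘ₗ c i
  have e' : ∀ z, ρ' z = ∑ i, star (uu f i) ^ p ^ 2 * (z i : OO f) := fun z => by
    simp only [ρ', LinearMap.sum_apply]; rfl
  have e : ∀ z, ρ z = ∑ i, uu f i * (z i : OO f) ^ p ^ 2 := fun z => by
    simp only [ρ, LinearMap.sum_apply]; rfl
  have r1 : ∀ z, ρ' z ∈ D.lt (p ^ 2 * (2 * s + 6) + m) := by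
    intro z
    rw [e']
    refine Submodule.sum_mem _ fun i _ => D.lt_mono ?_
      (RH.mul_mem_lt D (m := p ^ 2 * dd i) (by rw [D.dg_pow, dg_star, dg_uu]) (z i).2)
    dsimp only [mm]
    split_ifs with hi
    · exact Nat.add_le_add_right (Nat.mul_le_mul_left _ (dd_le i)) _
    · have : p ^ 2 * (dd i + 1) ≤ p ^ 2 * (2 * s + 6) :=
        Nat.mul_le_mul_left _ (Nat.succ_le_succ (hdd i hi))
      rw [mul_add] at this
      omega
  have r2 : ∀ z, ρ' z = 0 → ρ z ∈ J.restrictScalars k ⊓ D.lt (2 * s + 6 + p ^ 2 * m) := by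
    intro z hz0
    rw [e]
    refine ⟨hJ1 _ ((e' _).symm.trans hz0), Submodule.sum_mem _ fun i _ => ?_⟩
    by_cases hz : (z i : OO f) = 0
    · rw [hz, zero_pow (by omega), mul_zero]; exact zero_mem _
    have h1 := (D.mem_lt' hz).1 (z i).2
    rw [D.mem_lt' (mul_ne_zero (uu_ne hm hd i) (pow_ne_zero _ hz)),
      D.dg_mul (uu_ne hm hd i) (pow_ne_zero _ hz), dg_uu, D.dg_pow]
    dsimp only [mm] at h1
    split_ifs at h1 with hi
    · have : p ^ 2 * (D.dg (z i : OO f) + 1) ≤ p ^ 2 * m := Nat.mul_le_mul_left _ h1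
      have := dd_le i
      rw [mul_add] at *
      omega
    · have : p ^ 2 * D.dg (z i : OO f) ≤ p ^ 2 * m := Nat.mul_le_mul_left _ (by omega)
      have := hdd i hi
      omega
  have hK : ∀ z, ρ z = 0 → ρ' z = 0 → InM p fun i => (z i : OO f) := fun z a b =>
    ⟨(e _).symm.trans a, (e' _).symm.trans b⟩
  have hb : ∀ (z : ∀ i, D.lt (mm i)) i, (z i : OO f) ∈ D.lt (m + 1) := fun z i =>
    D.lt_mono (hmm i) (z i).2
  have f0 : finrank k (∀ i, D.lt (mm i)) + 1 = (2 * s + 5) * (m - 1) := by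
    rw [finrank_pi_fintype, ← Finset.add_sum_erase _ _ (Finset.mem_univ (.inl (Fin.last _))),
      Finset.sum_congr rfl (g := fun _ => m - 1) fun i hi => by
        have := FL (mm i) (by dsimp only [mm]; split_ifs <;> omega)
        have e : mm i = m + 1 := if_neg (Finset.ne_of_mem_erase hi)
        omega]
    have := FL (mm (.inl (Fin.last _))) (by dsimp only [mm]; split_ifs <;> omega)
    have e : mm (.inl (Fin.last _)) = m := if_pos rfl
    rw [Finset.sum_const, Finset.card_erase_of_mem (Finset.mem_univ _), Finset.card_univ,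
      Fintype.card_sum, Fintype.card_fin, Fintype.card_fin, smul_eq_mul,
      show s + 4 + (s + 1) - 1 = 2 * s + 4 by omega, show 2 * s + 5 = 2 * s + 4 + 1 from rfl,
      add_mul _ 1]
    omega
  have f5 := FL (p ^ 2 * (2 * s + 6) + m) (by omega)
  have f6 := hN₀ (2 * s + 6 + p ^ 2 * m) (by rw [hs]; nlinarith)
  have f7 := FL (m - p ^ 2) (by omega)
  have f9 : D.G.card = 2 := rfl
  intro w hw
  obtain ⟨z, a, b, hz⟩ := dim_lemma ρ ρ' (c t) _ _ _ r1 r2
    (fun z a b => (hK z a b).top hm hd hs (hb z) ht (h0 _ (hK z a b)).2)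
    (fun z a b h => funext fun i => Subtype.ext (congrFun ((h0 _ (hK z a b)).1 h) i)) (by
      obtain ⟨m', rfl⟩ : ∃ m', m = m' + 1 := ⟨m - 1, by omega⟩
      rw [Nat.add_sub_cancel] at f0
      have g : (m' + 1 - p ^ 2) + p ^ 2 = m' + 1 := by omega
      generalize finrank k (D.lt (p ^ 2 * (2 * s + 6) + (m' + 1))) = x1 at *
      generalize finrank k (D.lt (m' + 1 - p ^ 2)) = x2 at *
      generalize finrank k ↥(J.restrictScalars k ⊓ D.lt (2 * s + 6 + p ^ 2 * (m' + 1))) = x3 at *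
      generalize m' + 1 - p ^ 2 = x4 at *
      rw [hs] at f5 f6 hJ g
      nlinarith) w hw
  exact ⟨_, hK z a b, hb z, hz⟩

/-- the hyperelliptic involution -/
noncomputable def inv (f : k[X]) : OO f →ₗ[k] OO f where
  toFun := star
  map_add' := star_add
  map_smul' c u := by ext1 <;> simp

include hm hd in
theorem exists_fund (H : Setup p f (sx f) (ty f)) (hs : p ^ 2 = 2 * s + 3) (h1 : 1 ≤ s) (Ω : Type)
    [Field Ω] [Algebra k Ω] [CharP Ω p]
    (hN : (p ^ 2) ^ 2 + 4 * p ^ 2 ≤ (Fix k Ω ((p ^ 2) ^ 2) (inv f)).ncard) :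
    ∃ a b, Fund p (sx f) (ty f) a b := by
  have := (str hm hd).isDomain
  by_contra hF
  push Not at hF
  obtain ⟨t, ht, h0⟩ := exists_top H hs h1 hF
  let J : Ideal (OO f) := ⨅ P ∈ Fix k Ω ((p ^ 2) ^ 2) (inv f), RingHom.ker P
  have hJ : ∀ x, x ∈ J ↔ ∀ P ∈ Fix k Ω ((p ^ 2) ^ 2) (inv f), P x = 0 := fun x => by
    simp only [J, Ideal.mem_iInf, RingHom.mem_ker]
  have hJ0 : J ≠ ⊥ := fun e => H.pow_ne (by
    rw [← Ideal.mem_bot, ← e, hJ]
    intro P hP
    have := hP (sx f)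
    rw [map_sub, map_pow, map_pow, ← pow_mul, ← sq, this]
    exact sub_eq_zero.2 (congrArg P star_sx))
  obtain ⟨c1, c2⟩ := card_le_idg (str hm hd) Ω hJ0
  obtain ⟨m, hm1, hm2⟩ := exists_sur hm hd H hs J hJ0
    (hN.trans ((Set.ncard_le_ncard (fun P hP x hx => (hJ x).1 hx P hP) c1).trans c2))
    (fun z hz => (hJ _).2 fun P hP => by
      have e := congrArg (fun u => P u ^ p ^ 2) hz
      simp only [map_zero, map_sum, sum_pow_char_pow, zero_pow (show p ^ 2 ≠ 0 by omega)] at e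
      rw [map_sum, ← e]
      refine Finset.sum_congr rfl fun i _ => ?_
      rw [map_mul, map_mul, map_pow, map_pow, mul_pow, ← pow_mul, ← sq, hP]
      congr 2
      exact (star_star _).symm) ht h0
  obtain ⟨w, hw⟩ := ((str hm hd).gap (m - p ^ 2 - 1)).1 (by
    change _ ∉ ({1, 3} : Finset ℕ)
    simp only [Finset.mem_insert, Finset.mem_singleton]
    omega)
  have hw0 := (str hm hd).ne_of_deg hw
  have hw1 := (str hm hd).dg_of_deg hw
  obtain ⟨z₀, a0, -, c0⟩ := hm2 1 (((str hm hd).mem_lt' one_ne_zero).2 (by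
    rw [DegStr.dg_one]; omega))
  obtain ⟨z₁, a1, b1, c1⟩ := hm2 w (((str hm hd).mem_lt' hw0).2 (by omega))
  have e := (h0 _ (a0.comb a1 w)).1 (by rw [c0, c1, mul_one, sub_self])
  obtain ⟨a, b, hab⟩ := a0.swap hm hd H hs h1 (fun h => by simp [h] at c0) fun i => by
    by_cases hz : z₀ i = 0
    · rw [hz, DegStr.dg_zero]; omega
    have e1 : w * z₀ i = z₁ i := sub_eq_zero.1 (congrFun e i)
    have e2 := (str hm hd).mem_lt_succ.1 (b1 i)
    rw [← e1, DegStr.dg_mul _ hw0 hz] at e2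
    omega
  exact hF a b hab

end Pool.Agent.Lib.MP_be0804_ag.NN
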