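import Pool.Agent.Lib.MP_be0804_ag.NTail

/-! The fundamental function on the square of the curve forces the matrix to vanish. -/

set_option autoImplicit false
set_option linter.unusedSectionVars false

open Polynomial

namespace Pool.Agent.Lib.MP_be0804_ag.NN

variable {k O : Type} [Field k] [CommRing O] [Algebra k O] (p : ℕ) [hp : Fact p.Prime] [CharP O p]

/-- evaluation on the graph of Frobenius -/
noncomputable def ev (S : O) : O[X] →+* O := eval₂RingHom (iterateFrobenius O p 2) S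

theorem ev_C (S a : O) : ev p S (C a) = a ^ p ^ 2 := by simp [ev, iterateFrobenius_def]

theorem ev_X (S : O) : ev p S X = S := by simp [ev]

/-- the generic point `(S, T)` of `y ^ 2 = f` -/
structure Setup (f : k[X]) (S T : O) : Prop where
  fix : ∀ c : k, c ^ p ^ 2 = c
  eq : T ^ 2 = aeval S f
  tr : ∀ g : k[X], aeval S g = 0 → g = 0
  ker : ∀ h : O[X], ev p S h = 0 → X ^ p ^ 2 - C S ∣ h
  mon : f.Monic
  deg : f.natDegree = 5

variable {p} {f : k[X]} {S T : O}

namespace Setup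

theorem ev_map (H : Setup p f S T) (g : k[X]) : ev p S (g.map (algebraMap k O)) = aeval S g := by
  rw [ev, coe_eval₂RingHom, eval₂_map, aeval_def]
  congr 1
  ext c
  simp [iterateFrobenius_def, ← map_pow, H.fix]

theorem aeval_pow (H : Setup p f S T) (u : O) (g : k[X]) :
    aeval (u ^ p ^ 2) g = aeval u g ^ p ^ 2 := by
  induction g using Polynomial.induction_on' with
  | add a b ha hb => rw [map_add, map_add, ha, hb, add_pow_char_pow]
  | monomial i c =>
    rw [aeval_monomial, aeval_monomial, mul_pow, ← map_pow, H.fix, ← pow_mul, ← pow_mul, mul_comm i]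

theorem one_lt : 1 < p ^ 2 := Nat.one_lt_pow two_ne_zero hp.out.one_lt

theorem pow_ne (H : Setup p f S T) : (S ^ p ^ 2) ^ p ^ 2 - S ≠ 0 := fun h => by
  have h1 := H.tr (X ^ (p ^ 2 * p ^ 2) - X) (by simpa [pow_mul] using h)
  have h2 := congrArg (coeff · 1) h1
  have h3 : 1 ≠ p ^ 2 * p ^ 2 := by have := one_lt (p := p); nlinarith
  simp [coeff_X_pow, h3] at h2

theorem T_ne (H : Setup p f S T) : T ≠ 0 := fun h => by
  have := H.eq
  rw [h, zero_pow two_ne_zero] at this
  exact H.mon.ne_zero (H.tr f this.symm)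

theorem eval_F (H : Setup p f S T) :
    (f.map (algebraMap k O)).eval (S ^ p ^ 2) = (T ^ p ^ 2) ^ 2 := by
  rw [eval_map_algebraMap, H.aeval_pow, ← H.eq, ← pow_mul, ← pow_mul, mul_comm]

variable [IsDomain O]

theorem dvd2 (H : Setup p f S T) {h : O[X]} (h1 : ev p S h = 0) (h2 : h.eval (S ^ p ^ 2) = 0) :
    (X ^ p ^ 2 - C S) * (X - C (S ^ p ^ 2)) ∣ h := by
  obtain ⟨g, rfl⟩ := H.ker h h1
  refine mul_dvd_mul_left _ (dvd_iff_isRoot.2 ?_)
  rw [eval_mul] at h2
  exact (mul_eq_zero.1 h2).resolve_left (by simpa using H.pow_ne)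

theorem monic2 (S : O) : ((X ^ p ^ 2 - C S) * (X - C (S ^ p ^ 2)) : O[X]).Monic :=
  (monic_X_pow_sub_C _ (by have := one_lt (p := p); omega)).mul (monic_X_sub_C _)

theorem natDegree2 (S : O) :
    ((X ^ p ^ 2 - C S) * (X - C (S ^ p ^ 2)) : O[X]).natDegree = p ^ 2 + 1 := by
  rw [(monic_X_pow_sub_C _ (by have := one_lt (p := p); omega)).natDegree_mul (monic_X_sub_C _),
    natDegree_X_pow_sub_C, natDegree_X_sub_C]

theorem zero2 (H : Setup p f S T) {h : O[X]} (h1 : ev p S h = 0) (h2 : h.eval (S ^ p ^ 2) = 0)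
    (h3 : h.natDegree ≤ p ^ 2) : h = 0 :=
  eq_zero_of_dvd_of_natDegree_lt (H.dvd2 h1 h2) (by rw [natDegree2]; omega)

end Setup

variable (p) in
/-- a function with divisor `q Frob⁻¹ R + ι Frob R - (q + 1) ∞` -/
structure Fund (S T : O) (a b : O[X]) : Prop where
  ne : a ≠ 0 ∨ b ≠ 0
  da : 2 * a.natDegree ≤ p ^ 2 + 1
  db : 2 * b.natDegree + 5 ≤ p ^ 2
  h1 : ev p S a + ev p S b * T = 0
  h2 : a.eval (S ^ p ^ 2) - b.eval (S ^ p ^ 2) * T ^ p ^ 2 = 0

variable [IsDomain O] {a b : O[X]}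

theorem norm_ne {F : O[X]} (hF : F.Monic) (hd : Odd F.natDegree) (h : a ≠ 0 ∨ b ≠ 0) :
    a ^ 2 - b ^ 2 * F ≠ 0 := fun h0 => by
  have h1 := sub_eq_zero.1 h0
  by_cases hb : b = 0
  · rw [hb] at h1
    exact h.resolve_right (by simpa using hb) (by simpa using h1)
  · have h2 := congrArg natDegree h1
    rw [natDegree_mul (pow_ne_zero _ hb) hF.ne_zero, natDegree_pow, natDegree_pow] at h2
    obtain ⟨j, hj⟩ := hd
    omega

theorem ZZ_hom {A B : Type} [CommRing A] [CommRing B] (φ : A[X] →+* B) {F a b : A[X]} {y : B}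
    (h1 : φ a + φ b * y = 0) (h2 : φ F = y ^ 2) :
    φ (ZZ F a b) = y * φ (derivative (a ^ 2 - b ^ 2 * F)) := by
  simp only [ZZ, LL, derivative_mul, derivative_sq, map_add, map_sub, map_mul,
    map_pow, map_ofNat, h2]
  linear_combination (φ (derivative F) * φ b + 2 * y ^ 2 * φ (derivative b) -
    2 * y * φ (derivative a)) * h1

theorem deriv_E (S : O) : derivative (X ^ p ^ 2 - C S : O[X]) = 0 := by
  rw [derivative_sub, derivative_C, derivative_pow_char p _ (dvd_pow_self p two_ne_zero), sub_zero]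

theorem Fund.norm (H : Setup p f S T) (G : Fund p S T a b) : ∃ c, c ≠ 0 ∧
    a ^ 2 - b ^ 2 * f.map (algebraMap k O) = C c * ((X ^ p ^ 2 - C S) * (X - C (S ^ p ^ 2))) := by
  have hF := H.mon.map (algebraMap k O)
  have hd : (f.map (algebraMap k O)).natDegree = 5 := by rw [H.mon.natDegree_map, H.deg]
  have h0 := norm_ne hF (by rw [hd]; decide) G.ne
  obtain ⟨g, hg⟩ := H.dvd2 (h := a ^ 2 - b ^ 2 * f.map (algebraMap k O)) (by
    rw [map_sub, map_mul, map_pow, map_pow, H.ev_map, ← H.eq]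
    linear_combination (ev p S a - ev p S b * T) * G.h1) (by
    rw [eval_sub, eval_mul, eval_pow, eval_pow, H.eval_F]
    linear_combination (a.eval (S ^ p ^ 2) + b.eval (S ^ p ^ 2) * T ^ p ^ 2) * G.h2)
  have hg0 : g ≠ 0 := by rintro rfl; exact h0 (by simpa using hg)
  have h1 : (a ^ 2 - b ^ 2 * f.map (algebraMap k O)).natDegree ≤ p ^ 2 + 1 := by
    refine (natDegree_sub_le _ _).trans (max_le ?_ (natDegree_mul_le.trans ?_))
    · rw [natDegree_pow]; exact G.da
    · rw [natDegree_pow, hd]; have := G.db; omega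
  rw [hg, (Setup.monic2 S).natDegree_mul' hg0, Setup.natDegree2] at h1
  obtain ⟨c, rfl⟩ := natDegree_eq_zero.1 (show g.natDegree = 0 by omega)
  exact ⟨c, by simpa using hg0, by rw [hg, mul_comm]⟩

theorem Fund.num (H : Setup p f S T) (G : Fund p S T a b) {c : O}
    (hc : a ^ 2 - b ^ 2 * f.map (algebraMap k O) =
      C c * ((X ^ p ^ 2 - C S) * (X - C (S ^ p ^ 2)))) : ∃ w₀ w₁ : O,
    ZZ (f.map (algebraMap k O)) a b = (X ^ p ^ 2 - C S) *
      ((C w₀ + C w₁ * X) * (X - C (S ^ p ^ 2)) - C (c * T ^ p ^ 2)) := by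
  have hd : (f.map (algebraMap k O)).natDegree = 5 := by rw [H.mon.natDegree_map, H.deg]
  have hN : derivative (a ^ 2 - b ^ 2 * f.map (algebraMap k O)) = C c * (X ^ p ^ 2 - C S) := by
    rw [hc, derivative_mul, derivative_mul, deriv_E, derivative_X_sub_C, derivative_C]; ring
  have hE : (X ^ p ^ 2 - C S : O[X]).Monic :=
    monic_X_pow_sub_C _ (by have := Setup.one_lt (p := p); omega)
  obtain ⟨P, hP⟩ := H.ker (ZZ (f.map (algebraMap k O)) a b) (by
    rw [ZZ_hom _ G.h1 (by rw [H.ev_map, H.eq]), hN]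
    simp [ev_C, ev_X])
  have h1 := ZZ_hom (evalRingHom (S ^ p ^ 2)) (F := f.map (algebraMap k O)) (a := a) (b := b)
    (y := -T ^ p ^ 2) (by simpa [sub_eq_add_neg] using G.h2) (by
      rw [coe_evalRingHom, H.eval_F, neg_sq])
  rw [hN, hP] at h1
  simp only [coe_evalRingHom, eval_mul, eval_sub, eval_pow, eval_X, eval_C] at h1
  have h2 : P.eval (S ^ p ^ 2) = -(c * T ^ p ^ 2) :=
    mul_left_cancel₀ H.pow_ne (h1.trans (by ring))
  have h3 : P.natDegree ≤ 2 := by
    rcases eq_or_ne P 0 with rfl | hP0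
    · simp
    have h4 : (ZZ (f.map (algebraMap k O)) a b).natDegree ≤ a.natDegree + b.natDegree + 4 := by
      set F := f.map (algebraMap k O)
      have d1 : (derivative F).natDegree ≤ 4 := (natDegree_derivative_le F).trans (by omega)
      have d2 : ∀ u : O[X], (2 * F * derivative u).natDegree ≤ u.natDegree + 4 := fun u => by
        rcases Nat.eq_zero_or_pos u.natDegree with h | h
        · rw [derivative_of_natDegree_zero h]; simp
        · have := natDegree_derivative_le u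
          have e : (2 * F).natDegree ≤ 5 := by
            rw [two_mul]; exact (natDegree_add_le _ _).trans (by omega)
          exact natDegree_mul_le.trans (by omega)
      refine (natDegree_sub_le _ _).trans (max_le (natDegree_mul_le.trans ?_)
        (natDegree_mul_le.trans ?_))
      · have : (LL F b).natDegree ≤ b.natDegree + 4 :=
          (natDegree_add_le _ _).trans (max_le (natDegree_mul_le.trans (by omega)) (d2 b))
        omega
      · have := d2 a
        omega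
    rw [hP, hE.natDegree_mul' hP0, natDegree_X_pow_sub_C] at h4
    have := G.da
    have := G.db
    omega
  have h5 := modByMonic_add_div P (X - C (S ^ p ^ 2))
  rw [modByMonic_X_sub_C_eq_C_eval, h2] at h5
  have h6 : (P /ₘ (X - C (S ^ p ^ 2))).natDegree ≤ 1 := by
    rw [natDegree_divByMonic _ (monic_X_sub_C _), natDegree_X_sub_C]; omega
  refine ⟨(P /ₘ (X - C (S ^ p ^ 2))).coeff 0, (P /ₘ (X - C (S ^ p ^ 2))).coeff 1, ?_⟩
  rw [hP, add_comm (C _), ← eq_X_add_C_of_natDegree_le_one h6]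
  congr 1
  rw [map_neg] at h5
  linear_combination -h5

theorem Fund.cartier (H : Setup p f S T) {m : ℕ} (hm : p = 2 * m + 1) {c w₀ w₁ : O}
    (hc : a ^ 2 - b ^ 2 * f.map (algebraMap k O) =
      C c * ((X ^ p ^ 2 - C S) * (X - C (S ^ p ^ 2))))
    (hw : ZZ (f.map (algebraMap k O)) a b = (X ^ p ^ 2 - C S) *
      ((C w₀ + C w₁ * X) * (X - C (S ^ p ^ 2)) - C (c * T ^ p ^ 2))) (i : ℕ) :
    (C w₀ + C w₁ * X).coeff i ^ p = c ^ (p - 1) *
      (w₀ * algebraMap k O ((f ^ m).coeff ((i + 1) * p - 1)) +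
        w₁ * algebraMap k O ((f ^ m).coeff ((i + 1) * p - 2)) -
        c * T ^ p ^ 2 * aeval (S ^ p ^ 2) (tl ((i + 1) * p) (f ^ m))) := by
  have h0 := hp.out.ne_zero
  have h2 := hp.out.two_le
  set F := f.map (algebraMap k O) with hF
  set U := S ^ p ^ 2 with hU
  have e : ∀ u : O[X], u ^ p = u ^ (p - 1) * u := fun u => by
    rw [← pow_succ, Nat.sub_add_cancel hp.out.pos]
  have h1 := car_hyp p hm (H.mon.map (algebraMap k O)).ne_zero a b
  rw [← hF, hc, hw] at h1
  have h3 : (C c * ((X ^ p ^ 2 - C S) * (X - C U))) ^ (p - 1) * (F ^ m * ((X ^ p ^ 2 - C S) *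
      ((C w₀ + C w₁ * X) * (X - C U) - C (c * T ^ p ^ 2)))) = (X ^ p ^ 2 - C S) ^ p *
      (C (c ^ (p - 1)) * ((X - C U) ^ p * ((C w₀ + C w₁ * X) * F ^ m) -
        C (c * T ^ p ^ 2) * ((X - C U) ^ (p - 1) * F ^ m))) := by
    rw [e (X ^ p ^ 2 - C S), e (X - C U), mul_pow, mul_pow, map_pow C c]; ring
  rw [h3, car_pow_mul, car_C_mul h0, car_sub h0, car_pow_mul, car_C_mul h0, car_lin_mul,
    map_mul (fr p), fr_lin] at h1
  have hE : fr p (X ^ p ^ 2 - C S : O[X]) ≠ 0 := ((monic_X_pow_sub_C _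
    (by have := Setup.one_lt (p := p); omega)).map (frobenius O p)).ne_zero
  have h4 := mul_left_cancel₀ hE h1
  rw [map_sub (fr p), map_mul (fr p) (C w₀ + C w₁ * X), fr_lin, fr_C, eval_pow, H.eval_F] at h4
  have h5 : c ^ (p - 1) * (c * T ^ p ^ 2) * ((T ^ p ^ 2) ^ 2) ^ m = (c * T ^ p ^ 2) ^ p := by
    generalize T ^ p ^ 2 = y
    rw [hm, Nat.add_sub_cancel]; ring
  have h6 : C (c ^ (p - 1)) * (car p ((C w₀ + C w₁ * X) * F ^ m) -
      C (c * T ^ p ^ 2) * car p (F ^ m /ₘ (X - C U))) = fr p (C w₀ + C w₁ * X) := by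
    refine mul_left_cancel₀ (X_sub_C_ne_zero (U ^ p)) ?_
    rw [← h5, map_mul C _ (((T ^ p ^ 2) ^ 2) ^ m), map_mul C (c ^ (p - 1))] at h4
    linear_combination h4
  have h7 := congrArg (coeff · i) h6
  simp only [coeff_C_mul, coeff_sub, coeff_fr, coeff_car h0, coeff_div_lin] at h7
  obtain ⟨d, hd⟩ : ∃ d, (i + 1) * p = d + 2 := ⟨(i + 1) * p - 2, by rw [add_mul]; omega⟩
  have hd1 : i * p + (p - 1) = d + 1 := by rw [add_mul] at hd; omega
  rw [← h7, hd, hd1, add_mul, mul_assoc (C w₁), coeff_add, coeff_C_mul, coeff_C_mul, coeff_X_mul,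
    hF, ← Polynomial.map_pow, coeff_map, coeff_map, ← tl_map, eval_map_algebraMap]
  rfl

end Pool.Agent.Lib.MP_be0804_ag.NN
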