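import Pool.Agent.Lib.MP_be0804_ag.NEnd

/-! The mixed derivative of the logarithm of the fundamental function. -/

set_option autoImplicit false
set_option linter.unusedSectionVars false

open Polynomial Differential

namespace Pool.Agent.Lib.MP_be0804_ag.NN

variable {k O : Type} [Field k] [CommRing O] [Algebra k O] {p : ℕ} [hp : Fact p.Prime] [CharP O p]
  [CharP k p] [IsDomain O] {f : k[X]} {S T : O} {a b : O[X]}

/-- the product of the twisted matrix with the matrix vanishes -/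
def Nil (p : ℕ) (h : k[X]) : Prop := ∀ i l : ℕ, i < 2 → l < 2 →
  h.coeff ((i + 1) * p - 1) ^ p * h.coeff (p - (l + 1)) +
    h.coeff ((i + 1) * p - 2) ^ p * h.coeff (2 * p - (l + 1)) = 0

theorem Setup.tl_eq (H : Setup p f S T) {m : ℕ} (hm : p = 2 * m + 1) (h3 : 3 ≤ p) (i : ℕ) :
    tl ((i + 1) * p ^ 2) (f ^ m * (f ^ m) ^ p) =
      C ((f ^ m).coeff ((i + 1) * p - 1) ^ p) * tl p (f ^ m) +
      C ((f ^ m).coeff ((i + 1) * p - 2) ^ p) * tl (2 * p) (f ^ m) +
      f ^ m * tl ((i + 1) * p) (f ^ m) ^ p :=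
  tl_pow p _ (by rw [natDegree_pow, H.deg]; omega) h3 (by omega)

theorem Fund.explicit (H : Setup p f S T) {m : ℕ} (hm : p = 2 * m + 1) (h3 : 3 ≤ p)
    (hA : Nil p (f ^ m)) {c w₀ w₁ : O}
    (hc : a ^ 2 - b ^ 2 * f.map (algebraMap k O) =
      C c * ((X ^ p ^ 2 - C S) * (X - C (S ^ p ^ 2))))
    (hw : ZZ (f.map (algebraMap k O)) a b = (X ^ p ^ 2 - C S) *
      ((C w₀ + C w₁ * X) * (X - C (S ^ p ^ 2)) - C (c * T ^ p ^ 2))) {i : ℕ} (hi : i < 2) :
    (C w₀ + C w₁ * X).coeff i =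
      -(c * (T * aeval S (tl ((i + 1) * p ^ 2) (f ^ m * (f ^ m) ^ p)))) := by
  have h0 := Fund.cartier H hm hc hw 0
  have h1 := Fund.cartier H hm hc hw 1
  have h2 := congrArg (· ^ p) (Fund.cartier H hm hc hw i)
  have a0 := congrArg (algebraMap k O) (hA i 0 hi (by omega))
  have a1 := congrArg (algebraMap k O) (hA i 1 hi (by omega))
  simp only [coeff_add, coeff_C_zero, coeff_mul_X_zero, add_zero, zero_add, one_mul] at h0
  simp only [coeff_add, coeff_C_succ, coeff_mul_X, zero_add, coeff_C_zero, one_add_one_eq_two] at h1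
  simp only [map_add, map_mul, map_pow, map_zero, zero_add, one_add_one_eq_two] at a0 a1
  simp only [mul_pow, sub_pow_char, add_pow_char] at h2
  rw [h0, h1] at h2
  have h4 : (T ^ p ^ 2) ^ p = T ^ p ^ 2 * aeval (S ^ p ^ 2) f ^ m := by
    rw [H.aeval_pow, ← H.eq, ← pow_mul T 2, mul_comm 2, pow_mul T]
    generalize T ^ p ^ 2 = y
    rw [hm]; ring
  have hodd : Odd (p ^ 2) := Odd.pow ⟨m, hm⟩
  have h5 : c ^ p ^ 2 = (c ^ (p - 1)) ^ p * (c ^ (p - 1) * c) := by
    rw [hm, Nat.add_sub_cancel]; ring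
  have h6 : c ^ p = c ^ (p - 1) * c := by rw [← pow_succ, Nat.sub_add_cancel hp.out.pos]
  refine sub_eq_zero.1 (pow_eq_zero_iff (n := p ^ 2) (pow_ne_zero 2 hp.out.ne_zero) |>.1 ?_)
  rw [sub_pow_char_pow, hodd.neg_pow, mul_pow, mul_pow, ← H.aeval_pow, H.tl_eq hm h3, h5,
    sq p, pow_mul, h2, ← sq p, h4, h6]
  simp only [map_add, map_mul, map_pow, aeval_C]
  linear_combination ((c ^ (p - 1)) ^ p * c ^ (p - 1) * w₀) * a0 +
    ((c ^ (p - 1)) ^ p * c ^ (p - 1) * w₁) * a1

theorem low_degree {R : Type} [CommRing R] {h : R[X]} {n : ℕ} (hn : 0 < n)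
    (hd : h.natDegree < 3 * n) (s : R) :
    (h - (X ^ n - C s) * (tl n h + C s * tl (2 * n) h)).natDegree < n := by
  have e : h - (X ^ n - C s) * (tl n h + C s * tl (2 * n) h) = (h - X ^ n * tl n h) +
      C s * (tl n h - X ^ n * tl (2 * n) h) + C s * (C s * tl (2 * n) h) := by ring
  rw [e]
  refine Nat.lt_of_le_pred hn (natDegree_le_iff_coeff_eq_zero.2 fun j hj => ?_)
  obtain ⟨i, rfl⟩ : ∃ i, j = i + n := ⟨j - n, by rw [Nat.pred_eq_sub_one] at hj; omega⟩
  simp only [coeff_add, coeff_sub, coeff_C_mul, coeff_X_pow_mul, coeff_tl]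
  rw [coeff_eq_zero_of_natDegree_lt (show h.natDegree < i + n + 2 * n by omega),
    show i + n + n = i + 2 * n by omega]
  ring

variable [Differential O]

/-- the derivation `2 y d / d x` -/
structure Der (f : k[X]) (S T : O) : Prop where
  dc : ∀ c : k, (algebraMap k O c)′ = 0
  dS : S′ = 2 * T
  dT : T′ = aeval S (derivative f)

theorem Der.map (D : Der f S T) (g : k[X]) : mapCoeffs (g.map (algebraMap k O)) = 0 := by
  ext i; simp [D.dc]

theorem deriv_eval (u : O) (g : O[X]) :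
    (g.eval u)′ = (mapCoeffs g).eval u + (derivative g).eval u * u′ := by
  simpa using deriv_aeval_eq u g

theorem Der.aeval (D : Der f S T) (H : Setup p f S T) (g : k[X]) :
    (T * aeval S g)′ = aeval S (LL f g) := by
  rw [Derivation.leibniz, ← eval_map_algebraMap, deriv_eval, D.map, D.dS, D.dT, derivative_map]
  simp only [LL, eval_map_algebraMap, map_add, map_mul, ← H.eq, map_ofNat, smul_eq_mul, eval_zero]
  ring

theorem deriv_pow_char (u : O) : (u ^ p ^ 2)′ = 0 := by
  rw [Derivation.leibniz_pow, nsmul_eq_mul, (CharP.cast_eq_zero_iff O p _).2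
    (dvd_pow_self p two_ne_zero), zero_mul]

theorem mapCoeffs_derivative (g : O[X]) : mapCoeffs (derivative g) = derivative (mapCoeffs g) := by
  ext i
  simp [coeff_derivative, Derivation.leibniz, mul_comm]

theorem natDegree_mapCoeffs (g : O[X]) : (mapCoeffs g).natDegree ≤ g.natDegree :=
  natDegree_le_iff_coeff_eq_zero.2 fun j hj => by simp [coeff_eq_zero_of_natDegree_lt hj]

theorem mixed {F : O[X]} (hF : mapCoeffs F = 0) (a b : O[X]) :
    mapCoeffs (ZZ F a b) * (a ^ 2 - b ^ 2 * F) - ZZ F a b * mapCoeffs (a ^ 2 - b ^ 2 * F) =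
      LL F (a * mapCoeffs b - b * mapCoeffs a) * (a ^ 2 - b ^ 2 * F) -
        2 * F * (a * mapCoeffs b - b * mapCoeffs a) * derivative (a ^ 2 - b ^ 2 * F) := by
  have h2 : mapCoeffs (2 : O[X]) = 0 := by
    rw [← one_add_one_eq_two, map_add, Derivation.map_one_eq_zero, add_zero]
  simp only [ZZ, LL, sq, map_sub, map_add, Derivation.leibniz, mapCoeffs_derivative, hF, h2,
    derivative_mul, smul_eq_mul, derivative_zero]
  ring

theorem Fund.lam (H : Setup p f S T) (D : Der f S T) (G : Fund p S T a b) {m : ℕ}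
    (hm : p = 2 * m + 1) {c : O}
    (hc : a ^ 2 - b ^ 2 * f.map (algebraMap k O) =
      C c * ((X ^ p ^ 2 - C S) * (X - C (S ^ p ^ 2)))) {h : O[X]}
    (hh : h = (f ^ m * (f ^ m) ^ p).map (algebraMap k O)) :
    a * mapCoeffs b - b * mapCoeffs a = -(C c * (X - C (S ^ p ^ 2)) *
      (h - (X ^ p ^ 2 - C S) * (tl (p ^ 2) h + C S * tl (2 * p ^ 2) h))) := by
  have h1l := Setup.one_lt (p := p)
  have h2 : (2 : O) ≠ 0 := fun e => by
    have := (CharP.cast_eq_zero_iff O p 2).1 (by exact_mod_cast e)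
    have := Nat.le_of_dvd two_pos this
    have := hp.out.two_le
    omega
  refine eq_neg_of_add_eq_zero_left (H.zero2 ?_ ?_ ?_)
  · have e1 := congrArg (fun u => ev p S (mapCoeffs u)) hc
    have e2 : ev p S h * T = T ^ p ^ 2 := by
      rw [hh, H.ev_map]
      simp only [map_mul, map_pow]
      rw [← H.eq, hm]; ring
    have e3 : ev p S (X ^ p ^ 2 - C S) = 0 := by simp [ev_C, ev_X]
    have e4 : mapCoeffs (X ^ p ^ 2 - C S : O[X]) = -C (2 * T) := by
      simp [Derivation.leibniz_pow, D.dS]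
    have e5 : mapCoeffs (X - C (S ^ p ^ 2) : O[X]) = 0 := by
      rw [map_sub, mapCoeffs_X, mapCoeffs_C, deriv_pow_char]; simp
    have e6 : ev p S (C 2) * ev p S (C T) = 2 * T ^ p ^ 2 := by
      rw [ev_C p S T, map_ofNat, map_ofNat]
    simp only [Derivation.leibniz, e4, e5, smul_eq_mul, map_add, map_mul, e3, map_neg, e6,
      map_zero] at e1
    simp only [sq a, sq b, map_sub, map_add, map_mul, Derivation.leibniz, D.map, smul_eq_mul,
      H.ev_map, ← H.eq, map_zero] at e1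
    refine mul_left_cancel₀ (mul_ne_zero h2 H.T_ne) ?_
    simp only [map_add, map_mul, map_sub (ev p S) h, e3, map_sub (ev p S) (a * _)]
    simp only [map_sub]
    linear_combination e1 + (2 * T * ev p S (mapCoeffs b) - 2 * ev p S (mapCoeffs a)) * G.h1 +
      (2 * ev p S (C c) * (ev p S X - ev p S (C (S ^ p ^ 2)))) * e2
  · have e1 := congrArg Differential.deriv G.h2
    simp only [map_sub, Derivation.leibniz, deriv_eval, deriv_pow_char, smul_eq_mul, mul_zero,
      add_zero, zero_add, map_zero] at e1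
    simp only [eval_add, eval_sub, eval_mul, eval_X, eval_C, sub_self, mul_zero, zero_mul, add_zero]
    linear_combination (mapCoeffs b).eval (S ^ p ^ 2) * G.h2 - b.eval (S ^ p ^ 2) * e1
  · have d1 := natDegree_mapCoeffs a
    have d2 := natDegree_mapCoeffs b
    have d3 := G.da
    have d4 := G.db
    have d5 := low_degree (h := h) (n := p ^ 2) (by omega) (by
      rw [hh, ((H.mon.pow m).mul ((H.mon.pow m).pow p)).natDegree_map, ← pow_succ', natDegree_pow,
        natDegree_pow, H.deg, hm]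
      nlinarith) S
    refine (natDegree_add_le _ _).trans (max_le ((natDegree_sub_le _ _).trans
      (max_le (natDegree_mul_le.trans (by omega)) (natDegree_mul_le.trans (by omega))))
      (natDegree_mul_le.trans ?_))
    have := (natDegree_C_mul_le c _).trans (natDegree_X_sub_C_le (S ^ p ^ 2))
    omega

theorem Fund.symm (H : Setup p f S T) (D : Der f S T) (G : Fund p S T a b) {m : ℕ}
    (hm : p = 2 * m + 1) (h3 : 3 ≤ p) (hA : Nil p (f ^ m)) {B : ℕ → k[X]}
    (hB : ∀ i, B i = LL f (tl ((i + 1) * p ^ 2) (f ^ m * (f ^ m) ^ p))) :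
    (B 0).map (algebraMap k O) + C S * (B 1).map (algebraMap k O) + C (aeval S (B 0)) +
      C (aeval S (B 1)) * X = 0 := by
  obtain ⟨c, hc0, hc⟩ := G.norm H
  obtain ⟨w₀, w₁, hw⟩ := G.num H hc
  have h0 := Fund.explicit H hm h3 hA hc hw (i := 0) (by omega)
  have h1 := Fund.explicit H hm h3 hA hc hw (i := 1) (by omega)
  simp only [coeff_add, coeff_C_zero, coeff_mul_X_zero, add_zero] at h0
  simp only [coeff_add, coeff_C_succ, coeff_mul_X, zero_add, coeff_C_zero] at h1
  have l := G.lam H D hm hc rfl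
  have mx := mixed (D.map f) a b
  have e4 : derivative (X ^ p ^ 2 - C S : O[X]) = 0 := deriv_E S
  have e5 : mapCoeffs (X - C (S ^ p ^ 2) : O[X]) = 0 := by
    rw [map_sub, mapCoeffs_X, mapCoeffs_C, deriv_pow_char]; simp
  have e6 : LL (f.map (algebraMap k O)) ((f ^ m * (f ^ m) ^ p).map (algebraMap k O)) = 0 := by
    rw [← LL_map, ← pow_mul, ← pow_add, LL_pow p f ⟨p, by rw [hm]; ring⟩, Polynomial.map_zero]
  have b0 := congrArg (Polynomial.map (algebraMap k O)) (hB 0)
  have b1 := congrArg (Polynomial.map (algebraMap k O)) (hB 1)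
  have c0 := D.aeval H (tl ((0 + 1) * p ^ 2) (f ^ m * (f ^ m) ^ p))
  have c1 := D.aeval H (tl ((1 + 1) * p ^ 2) (f ^ m * (f ^ m) ^ p))
  rw [← hB] at c0 c1
  rw [LL_map, tl_map] at b0 b1
  rw [zero_add, one_mul] at b0
  rw [one_add_one_eq_two] at b1
  have hE : (X ^ p ^ 2 - C S : O[X]) ≠ 0 :=
    (monic_X_pow_sub_C _ (by have := Setup.one_lt (p := p); omega)).ne_zero
  have hV : (X - C (S ^ p ^ 2) : O[X]) ≠ 0 := X_sub_C_ne_zero _
  have hV' : derivative (X - C (S ^ p ^ 2) : O[X]) = 1 := derivative_X_sub_C _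
  have hY : mapCoeffs (C (T ^ p ^ 2) : O[X]) = 0 := by rw [mapCoeffs_C, deriv_pow_char, map_zero]
  rw [hw, hc, l, h0, h1] at mx
  rw [b0, b1, ← c0, ← c1]
  generalize T * aeval S (tl ((0 + 1) * p ^ 2) (f ^ m * (f ^ m) ^ p)) = u₀ at *
  generalize T * aeval S (tl ((1 + 1) * p ^ 2) (f ^ m * (f ^ m) ^ p)) = u₁ at *
  generalize (f ^ m * (f ^ m) ^ p).map (algebraMap k O) = h at *
  generalize tl (p ^ 2) h = q₀ at *
  generalize tl (2 * p ^ 2) h = q₁ at *
  rw [map_mul C c (T ^ p ^ 2)] at mx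
  generalize (X ^ p ^ 2 - C S : O[X]) = E at *
  generalize (X - C (S ^ p ^ 2) : O[X]) = V at *
  generalize (C (T ^ p ^ 2) : O[X]) = Y at *
  generalize f.map (algebraMap k O) = F at *
  refine mul_left_cancel₀ (mul_ne_zero (pow_ne_zero 2 (C_ne_zero.2 hc0))
    (mul_ne_zero (pow_ne_zero 2 hE) (pow_ne_zero 2 hV))) ?_
  simp only [LL, map_neg, map_mul, map_sub, map_add, Derivation.leibniz, e5, hY, mapCoeffs_X,
    mapCoeffs_C, smul_eq_mul, derivative_mul, derivative_C, e4, hV'] at mx e6 ⊢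
  linear_combination -mx + (C c ^ 2 * E * V ^ 2) * e6

theorem Fund.zero (H : Setup p f S T) (D : Der f S T) (G : Fund p S T a b) {m : ℕ}
    (hm : p = 2 * m + 1) (h5 : 5 ≤ p) (hA : Nil p (f ^ m))
    (hs : ∀ v : k[X], LL f v = 0 → f ^ m ∣ v) (i l : ℕ) (hi : i < 2) (hl : l < 2) :
    (f ^ m).coeff ((i + 1) * p - (l + 1)) = 0 := by
  have h0 := hp.out.ne_zero
  obtain ⟨B, hB⟩ : ∃ B : ℕ → k[X], ∀ i, B i = LL f (tl ((i + 1) * p ^ 2) (f ^ m * (f ^ m) ^ p)) :=
    ⟨_, fun _ => rfl⟩
  have h1 := G.symm H D hm (by omega) hA hB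
  have h2 : (2 : k) ≠ 0 := fun e => by
    have := (CharP.cast_eq_zero_iff k p 2).1 (by exact_mod_cast e)
    have := Nat.le_of_dvd two_pos this
    omega
  have e0 : C ((B 0).coeff 0) + X * C ((B 1).coeff 0) + B 0 = 0 := H.tr _ (by
    simpa [mul_comm S] using congrArg (coeff · 0) h1)
  have e1 : C ((B 0).coeff 1) + X * C ((B 1).coeff 1) + B 1 = 0 := H.tr _ (by
    simpa [coeff_C_succ, mul_comm S] using congrArg (coeff · 1) h1)
  have f0 : (B 0).coeff 0 = 0 := by
    have := congrArg (coeff · 0) e0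
    simp only [coeff_add, coeff_C_zero, coeff_X_mul_zero, coeff_zero] at this
    exact (mul_eq_zero.1 (by linear_combination this)).resolve_left h2
  have f1 : (B 1).coeff 1 = 0 := by
    have := congrArg (coeff · 1) e1
    simp only [coeff_add, coeff_C_succ, coeff_X_mul, coeff_zero, coeff_C_zero] at this
    exact (mul_eq_zero.1 (by linear_combination this)).resolve_left h2
  rw [f0, map_zero, zero_add] at e0
  rw [f1, map_zero, mul_zero, add_zero] at e1
  have f2 : (B 0).coeff 1 = -(B 1).coeff 0 := by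
    have := congrArg (coeff · 1) e0
    simp only [coeff_add, coeff_X_mul, coeff_zero, coeff_C_zero] at this
    linear_combination this
  rw [f2, map_neg] at e1
  generalize (B 1).coeff 0 = t at e0 e1
  have g : ∀ i, B i = LL f (C ((f ^ m).coeff ((i + 1) * p - 1) ^ p) * tl p (f ^ m) +
      C ((f ^ m).coeff ((i + 1) * p - 2) ^ p) * tl (2 * p) (f ^ m)) := fun i => by
    rw [hB, H.tl_eq hm (by omega), LL_add, mul_comm (f ^ m),
      LL_const_mul _ _ (derivative_pow_char p _ dvd_rfl), LL_pow p f (hm ▸ dvd_rfl), mul_zero,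
      add_zero]
  have hd : (f ^ m).natDegree = 5 * m := by rw [natDegree_pow, H.deg, mul_comm]
  have key : ∀ x y : k, LL f (C x * tl p (f ^ m) + C y * tl (2 * p) (f ^ m)) = 0 → x = 0 ∧ y = 0 :=
    fun x y hxy => by
    have z := eq_zero_of_dvd_of_natDegree_lt (hs _ hxy) (by
      refine (natDegree_add_le _ _).trans_lt (max_lt ((natDegree_C_mul_le _ _).trans_lt ?_)
        ((natDegree_C_mul_le _ _).trans_lt ?_)) <;> rw [natDegree_tl, hd] <;> omega)
    have z1 := congrArg (coeff · (5 * m - p)) z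
    have z2 := congrArg (coeff · (5 * m - 2 * p)) z
    have top : (f ^ m).coeff (5 * m) = 1 := by rw [← hd]; exact (H.mon.pow m).coeff_natDegree
    simp only [coeff_add, coeff_C_mul, coeff_tl, coeff_zero] at z1 z2
    rw [show 5 * m - p + p = 5 * m by omega, top,
      coeff_eq_zero_of_natDegree_lt (show _ < 5 * m - p + 2 * p by omega)] at z1
    rw [show 5 * m - 2 * p + 2 * p = 5 * m by omega, top] at z2
    have hx : x = 0 := by simpa using z1
    exact ⟨hx, by simpa [hx] using z2⟩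
  have g0 := g 0
  have g1 := g 1
  have a00 := hA 0 l (by omega) hl
  have a10 := hA 1 l (by omega) hl
  simp only [zero_add, one_mul, one_add_one_eq_two] at g0 g1 a00 a10
  suffices hh : ((f ^ m).coeff (p - 1) ^ p * (f ^ m).coeff (2 * p - 2) ^ p -
      (f ^ m).coeff (p - 2) ^ p * (f ^ m).coeff (2 * p - 1) ^ p = 0) →
      ((f ^ m).coeff (p - 1) ^ p = 0 ∧ (f ^ m).coeff (p - 2) ^ p = 0) ∧
      (f ^ m).coeff (2 * p - 1) ^ p = 0 ∧ (f ^ m).coeff (2 * p - 2) ^ p = 0 by
    by_cases hdet : (f ^ m).coeff (p - 1) ^ p * (f ^ m).coeff (2 * p - 2) ^ p -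
      (f ^ m).coeff (p - 2) ^ p * (f ^ m).coeff (2 * p - 1) ^ p = 0
    · obtain ⟨⟨x1, x2⟩, x3, x4⟩ := hh hdet
      simp only [pow_eq_zero_iff h0] at x1 x2 x3 x4
      interval_cases i <;> interval_cases l <;> simpa
    · refine (mul_eq_zero.1 ?_).resolve_left hdet
      interval_cases i
      · simp only [zero_add, one_mul]
        linear_combination (f ^ m).coeff (2 * p - 2) ^ p * a00 - (f ^ m).coeff (p - 2) ^ p * a10
      · simp only [one_add_one_eq_two]
        linear_combination (f ^ m).coeff (p - 1) ^ p * a10 - (f ^ m).coeff (2 * p - 1) ^ p * a00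
  intro hdet
  generalize (f ^ m).coeff (p - 1) ^ p = x1 at *
  generalize (f ^ m).coeff (p - 2) ^ p = x2 at *
  generalize (f ^ m).coeff (2 * p - 1) ^ p = x3 at *
  generalize (f ^ m).coeff (2 * p - 2) ^ p = x4 at *
  by_cases ht : t = 0
  · rw [ht, map_zero] at e0 e1
    exact ⟨key _ _ (by rw [← g0]; simpa using e0), key _ _ (by rw [← g1]; simpa using e1)⟩
  have hdet' := congrArg (C : k → k[X]) hdet
  simp only [map_sub, map_mul, map_zero] at hdet'
  rw [LL_add, LL_const_mul _ _ derivative_C, LL_const_mul _ _ derivative_C] at g0 g1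
  have lin : ∀ x y : k, C x * B 0 = C y * B 1 → x = 0 ∧ y = 0 := fun x y h => by
    have h' : X * C (x * t) + C (y * t) = 0 := by
      rw [map_mul, map_mul]
      linear_combination C x * e0 - C y * e1 - h
    have z0 := congrArg (coeff · 0) h'
    have z1 := congrArg (coeff · 1) h'
    simp only [coeff_add, coeff_C_succ, coeff_X_mul, coeff_zero, coeff_C_zero, coeff_X_mul_zero,
      zero_add, add_zero] at z0 z1
    exact ⟨(mul_eq_zero.1 z1).resolve_right ht, (mul_eq_zero.1 z0).resolve_right ht⟩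
  have l1 := lin x3 x1 (by rw [g0, g1]; linear_combination -(LL f (tl (2 * p) (f ^ m))) * hdet')
  have l2 := lin x4 x2 (by rw [g0, g1]; linear_combination (LL f (tl p (f ^ m))) * hdet')
  exact ⟨⟨l1.2, l2.2⟩, l1.1, l2.1⟩

end Pool.Agent.Lib.MP_be0804_ag.NN
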