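import Pool.Agent.Lib.MP_be0804_ag.NRing

/-! Existence of the fundamental function when the twist has many points. -/

set_option autoImplicit false
set_option linter.unusedSectionVars false

open Polynomial Module
open Pool.Agent.Lib.MP_639284_nt

namespace Pool.Agent.Lib.MP_be0804_ag.NN

variable {k : Type} [Field k] {f : k[X]}

/-- a polynomial with given coefficients -/
noncomputable def pl {O : Type} [CommRing O] {d : ℕ} (z : Fin d → O) : O[X] :=
  ∑ i, C (z i) * X ^ (i : ℕ)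

theorem coeff_pl {O : Type} [CommRing O] {d : ℕ} (z : Fin d → O) (i : Fin d) :
    (pl z).coeff i = z i := by
  simp [pl, coeff_X_pow, Fin.val_inj]

theorem natDegree_pl {O : Type} [CommRing O] {d e : ℕ} (z : Fin d → O)
    (h : ∀ i : Fin d, e < i → z i = 0) : (pl z).natDegree ≤ e := by
  refine natDegree_sum_le_of_forall_le _ _ fun i _ => ?_
  by_cases hi : e < i
  · simp [h i hi]
  · exact (natDegree_C_mul_X_pow_le _ _).trans (by omega)

/-- the index set of a basis -/
abbrev Ix (s : ℕ) : Type := Fin (s + 4) ⊕ Fin (s + 1)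

/-- the basis -/
noncomputable def uu (f : k[X]) {s : ℕ} : Ix s → OO f :=
  Sum.elim (fun i => sx f ^ (i : ℕ)) fun j => sx f ^ (j : ℕ) * ty f

/-- the pole orders -/
def dd {s : ℕ} : Ix s → ℕ := Sum.elim (fun i => 2 * i) fun j => 2 * j + 5

theorem dd_inj {s : ℕ} : Function.Injective (dd (s := s)) := by
  rintro (i | i) (j | j) h <;> simp only [dd, Sum.elim_inl, Sum.elim_inr] at h
  · exact congrArg _ (Fin.ext (by omega))
  · omega
  · omega
  · exact congrArg _ (Fin.ext (by omega))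

theorem dd_le {s : ℕ} (i : Ix s) : dd i ≤ 2 * s + 6 := by
  rcases i with i | i <;> simp only [dd, Sum.elim_inl, Sum.elim_inr] <;> omega

variable (hm : f.Monic) (hd : f.natDegree = 5) {s : ℕ}

theorem sx_ne : sx f ≠ 0 := fun e => by simpa [sx] using congrArg QuadraticAlgebra.re e

theorem ty_ne : ty f ≠ 0 := fun e => by simpa [ty] using congrArg QuadraticAlgebra.im e

include hm hd in
theorem uu_ne (i : Ix s) : uu f i ≠ 0 := by
  have := (str hm hd).isDomain
  rcases i with i | i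
  · exact pow_ne_zero _ sx_ne
  · exact mul_ne_zero (pow_ne_zero _ sx_ne) ty_ne

theorem dg_uu (i : Ix s) : (str hm hd).dg (uu f i) = dd i := by
  have := (str hm hd).isDomain
  rcases i with i | i <;> simp only [uu, dd, Sum.elim_inl, Sum.elim_inr]
  · rw [DegStr.dg_pow, dg_sx, mul_comm]
  · rw [DegStr.dg_mul _ (pow_ne_zero _ sx_ne) ty_ne, DegStr.dg_pow, dg_sx, dg_ty, mul_comm]

variable (p : ℕ) [hp : Fact p.Prime] [CharP k p]

/-- vanishing on both graphs -/
structure InM (z : Ix s → OO f) : Prop where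
  h1 : ∑ i, uu f i * z i ^ p ^ 2 = 0
  h2 : ∑ i, star (uu f i) ^ p ^ 2 * z i = 0

variable {p}

theorem InM.comb {z z' : Ix s → OO f} (h : InM p z) (h' : InM p z') (w : OO f) :
    InM p (fun i => w * z i - z' i) where
  h1 := by
    simp only [sub_pow_char_pow, mul_pow, mul_sub, mul_left_comm _ (w ^ _), Finset.sum_sub_distrib,
      ← Finset.mul_sum, h.h1, h'.h1, mul_zero, sub_zero]
  h2 := by
    simp only [mul_sub, mul_left_comm _ w, Finset.sum_sub_distrib, ← Finset.mul_sum, h.h2, h'.h2,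
      mul_zero, sub_zero]

theorem InM.ev' {z : Ix s → OO f} (h : InM p z) :
    ev p (sx f) (pl (z ∘ Sum.inl)) + ev p (sx f) (pl (z ∘ Sum.inr)) * ty f = 0 := by
  rw [← h.h1, Fintype.sum_sum_type]
  simp only [pl, map_sum, map_mul, map_pow, ev_C, ev_X, Finset.sum_mul, uu, Sum.elim_inl,
    Sum.elim_inr, Function.comp]
  refine congrArg₂ (· + ·) ?_ ?_ <;> exact Finset.sum_congr rfl fun i _ => by ring

theorem InM.eval {z : Ix s → OO f} (h : InM p z) (hs : p ^ 2 = 2 * s + 3) :
    (pl (z ∘ Sum.inl)).eval (sx f ^ p ^ 2) -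
      (pl (z ∘ Sum.inr)).eval (sx f ^ p ^ 2) * ty f ^ p ^ 2 = 0 := by
  have ho : Odd (p ^ 2) := ⟨s + 1, by omega⟩
  rw [← h.h2, Fintype.sum_sum_type, sub_eq_add_neg]
  simp only [pl, eval_finsetSum, eval_mul, eval_pow, eval_C, eval_X, Finset.sum_mul, uu,
    Sum.elim_inl, Sum.elim_inr, Function.comp, star_mul', star_pow, star_sx, star_ty, mul_pow,
    ho.neg_pow, ← Finset.sum_neg_distrib]
  refine congrArg₂ (· + ·) ?_ ?_ <;> exact Finset.sum_congr rfl fun i _ => by ring

theorem InM.small {z : Ix s → OO f} (h : InM p z) (hs : p ^ 2 = 2 * s + 3) (h1 : 1 ≤ s)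
    (hF : ∀ a b, ¬ Fund p (sx f) (ty f) a b) (a1 : z (.inl (Fin.last _)) = 0)
    (a2 : z (.inr (Fin.last _)) = 0) : z = 0 := by
  by_contra h0
  have d1 : (pl (z ∘ Sum.inl)).natDegree ≤ s + 2 := natDegree_pl _ fun i hi => by
    rw [show i = Fin.last _ from Fin.ext (by simp; omega)]; exact a1
  have d2 : (pl (z ∘ Sum.inr)).natDegree ≤ s - 1 := natDegree_pl _ fun i hi => by
    rw [show i = Fin.last _ from Fin.ext (by simp; omega)]; exact a2
  refine hF _ _ ⟨?_, by omega, by omega, h.ev', h.eval hs⟩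
  by_contra hc
  push Not at hc
  refine h0 (funext ?_)
  rintro (i | i)
  · simpa [hc.1] using (coeff_pl (z ∘ Sum.inl) i).symm
  · simpa [hc.2] using (coeff_pl (z ∘ Sum.inr) i).symm

theorem InM.cross [IsDomain (OO f)] (H : Setup p f (sx f) (ty f)) {z z' : Ix s → OO f}
    (h : InM p z) (h' : InM p z') (hs : p ^ 2 = 2 * s + 3) :
    z (.inl (Fin.last _)) * z' (.inr (Fin.last _)) =
      z' (.inl (Fin.last _)) * z (.inr (Fin.last _)) := by
  have d1 : ∀ z : Ix s → OO f, (pl (z ∘ Sum.inl)).natDegree ≤ s + 3 := fun z =>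
    natDegree_pl _ fun i hi => by omega
  have d2 : ∀ z : Ix s → OO f, (pl (z ∘ Sum.inr)).natDegree ≤ s := fun z =>
    natDegree_pl _ fun i hi => by omega
  have e := H.zero2 (h := pl (z ∘ Sum.inl) * pl (z' ∘ Sum.inr) - pl (z' ∘ Sum.inl) * pl (z ∘ Sum.inr))
    (by
      rw [map_sub, map_mul, map_mul]
      linear_combination ev p (sx f) (pl (z' ∘ Sum.inr)) * h.ev' -
        ev p (sx f) (pl (z ∘ Sum.inr)) * h'.ev')
    (by
      rw [eval_sub, eval_mul, eval_mul]
      linear_combination (pl (z' ∘ Sum.inr)).eval (sx f ^ p ^ 2) * h.eval hs -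
        (pl (z ∘ Sum.inr)).eval (sx f ^ p ^ 2) * h'.eval hs)
    ((natDegree_sub_le _ _).trans (max_le
      (natDegree_mul_le.trans (by have := d1 z; have := d2 z'; omega))
      (natDegree_mul_le.trans (by have := d1 z'; have := d2 z; omega))))
  have e2 := congrArg (coeff · (s + 3 + s)) (sub_eq_zero.1 e)
  simp only [coeff_mul_add_eq_of_natDegree_le (d1 _) (d2 _)] at e2
  have c1 : ∀ z : Ix s → OO f, (pl (z ∘ Sum.inl)).coeff (s + 3) = z (.inl (Fin.last _)) :=
    fun z => coeff_pl (z ∘ Sum.inl) (Fin.last _)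
  have c2 : ∀ z : Ix s → OO f, (pl (z ∘ Sum.inr)).coeff s = z (.inr (Fin.last _)) :=
    fun z => coeff_pl (z ∘ Sum.inr) (Fin.last _)
  simpa only [c1, c2] using e2

theorem exists_top [IsDomain (OO f)] (H : Setup p f (sx f) (ty f)) (hs : p ^ 2 = 2 * s + 3)
    (h1 : 1 ≤ s) (hF : ∀ a b, ¬ Fund p (sx f) (ty f) a b) :
    ∃ t : Ix s, 5 ≤ dd t ∧ ∀ z : Ix s → OO f, InM p z →
      (z t = 0 → z = 0) ∧ ∀ j, dd t < dd j → z j = 0 := by
  by_cases h : ∃ z : Ix s → OO f, InM p z ∧ z (.inl (Fin.last _)) ≠ 0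
  · obtain ⟨z', h', h0⟩ := h
    refine ⟨.inl (Fin.last _), by simp [dd]; omega, fun z hz => ⟨fun e => hz.small hs h1 hF e ?_,
      fun j hj => ?_⟩⟩
    · have := hz.cross H h' hs
      rw [e, zero_mul] at this
      exact (mul_eq_zero.1 this.symm).resolve_left h0
    · have := dd_le j
      simp [dd] at hj this
      omega
  · push Not at h
    refine ⟨.inr (Fin.last _), by simp [dd], fun z hz => ⟨hz.small hs h1 hF (h z hz), ?_⟩⟩
    rintro (j | j) hj
    · rw [show j = Fin.last _ from Fin.ext (by simp [dd] at hj ⊢; omega)]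
      exact h z hz
    · simp [dd] at hj
      omega

theorem InM.swap (H : Setup p f (sx f) (ty f)) {z : Ix s → OO f} (h : InM p z)
    (hs : p ^ 2 = 2 * s + 3) (h1 : 1 ≤ s) (h0 : z ≠ 0)
    (hz : ∀ i, (str hm hd).dg (z i) ≤ p ^ 2 + 1) : ∃ a b, Fund p (sx f) (ty f) a b := by
  have := (str hm hd).isDomain
  have ho : Odd (p ^ 2) := ⟨s + 1, by omega⟩
  have key : ∀ c : Ix s → k[X], ∑ i, C (star (uu f i)) * (c i).map (algebraMap k (OO f)) = 0 →
      ∀ i, c i = 0 := fun c hc i => by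
    ext j
    have e := congrArg (coeff · j) hc
    simp only [finsetSum_coeff, coeff_C_mul, coeff_map, coeff_zero] at e
    have hu : ∀ i : Ix s, star (uu f i) ≠ 0 := fun i => star_ne_zero.2 (uu_ne hm hd i)
    have := sum_distinct (str hm hd) _ _ (fun a _ b _ ha hb he => by
      rw [DegStr.dg_mul _ (hu a) (right_ne_zero_of_mul ha),
        DegStr.dg_mul _ (hu b) (right_ne_zero_of_mul hb), DegStr.dg_algebraMap,
        DegStr.dg_algebraMap, dg_star, dg_star, dg_uu, dg_uu] at he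
      exact dd_inj (by omega)) e i (Finset.mem_univ _)
    simpa using (mul_eq_zero.1 this).resolve_left (hu i)
  have dg : ∀ (c : Ix s → k[X]) (e : ℕ), (∀ i, (c i).natDegree ≤ e) →
      (∑ i, C (star (uu f i)) * (c i).map (algebraMap k (OO f))).natDegree ≤ e := fun c e hc =>
    natDegree_sum_le_of_forall_le _ _ fun i _ =>
      (natDegree_C_mul_le _ _).trans (natDegree_map_le.trans (hc i))
  have d1 := dg (fun i => (z i).re) (s + 2) fun i => by
    have := (dg_bounds hm hd (z i)).1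
    have := hz i
    omega
  have d2 := dg (fun i => (z i).im) (s - 1) fun i => by
    have := hz i
    rcases (dg_bounds hm hd (z i)).2 with h | h
    · simp [h]
    · omega
  refine ⟨_, _, ⟨?_, le_trans (Nat.mul_le_mul_left 2 d1) (by omega),
    le_trans (Nat.add_le_add_right (Nat.mul_le_mul_left 2 d2) 5) (by omega), ?_, ?_⟩⟩
  · by_contra hc
    push Not at hc
    refine h0 (funext fun i => ?_)
    ext1
    · exact key _ hc.1 i
    · exact key _ hc.2 i
  · rw [← h.h2]
    simp only [map_sum, map_mul, ev_C, H.ev_map, Finset.sum_mul, ← Finset.sum_add_distrib]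
    refine Finset.sum_congr rfl fun i _ => ?_
    conv_rhs => rw [decomp (z i)]
    ring
  · have e := congrArg star h.h1
    rw [star_zero, star_sum] at e
    rw [← e]
    simp only [eval_finsetSum, eval_mul, eval_C, eval_map_algebraMap, H.aeval_pow, Finset.sum_mul,
      ← Finset.sum_sub_distrib]
    refine Finset.sum_congr rfl fun i _ => ?_
    conv_rhs => rw [decomp (z i)]
    rw [star_mul', star_pow, star_add, star_mul', star_aeval, star_aeval, star_ty, add_pow_char_pow,
      mul_pow, ho.neg_pow]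
    ring

theorem InM.top {z : Ix s → OO f} (h : InM p z) (hs : p ^ 2 = 2 * s + 3) {m : ℕ}
    (hz : ∀ i, z i ∈ (str hm hd).lt (m + 1)) {t : Ix s} (ht : 5 ≤ dd t)
    (h0 : ∀ j, dd t < dd j → z j = 0) : z t ∈ (str hm hd).lt (m - p ^ 2) := by
  classical
  have := (str hm hd).isDomain
  set D := str hm hd
  have hz' : ∀ i, D.dg (z i) ≤ m := fun i => D.mem_lt_succ.1 (hz i)
  have hn : p ^ 2 ≠ 0 := by omega
  have e1 : ∀ i, z i ≠ 0 → D.dg (uu f i * z i ^ p ^ 2) = dd i + p ^ 2 * D.dg (z i) := fun i hi => by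
    rw [D.dg_mul (uu_ne hm hd i) (pow_ne_zero _ hi), dg_uu, D.dg_pow]
  have e2 : ∀ i, z i ≠ 0 → D.dg (star (uu f i) ^ p ^ 2 * z i) = p ^ 2 * dd i + D.dg (z i) :=
    fun i hi => by
    rw [D.dg_mul (pow_ne_zero _ (star_ne_zero.2 (uu_ne hm hd i))) hi, D.dg_pow, dg_star, dg_uu]
  have A : ∀ i, 4 ≤ dd i → z i ≠ 0 → D.dg (z i) < m := by
    by_contra hc
    push Not at hc
    obtain ⟨i, a1, a2, a3⟩ := hc
    obtain ⟨i₀, b1, b2⟩ := Finset.exists_max_image
      (Finset.univ.filter fun i => z i ≠ 0 ∧ D.dg (z i) = m) dd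
      ⟨i, by simpa using ⟨a2, le_antisymm (hz' i) a3⟩⟩
    simp only [Finset.mem_filter, Finset.mem_univ, true_and] at b1 b2
    have b3 := b2 i ⟨a2, le_antisymm (hz' i) a3⟩
    have := top_mem D _ h.h1 i₀ (K := dd i₀ + p ^ 2 * m) fun j hj => by
      by_cases hj0 : z j = 0
      · rw [hj0, zero_pow hn, mul_zero]; exact zero_mem _
      rw [D.mem_lt' (mul_ne_zero (uu_ne hm hd j) (pow_ne_zero _ hj0)), e1 j hj0]
      by_cases hjm : D.dg (z j) = m
      · have := b2 j ⟨hj0, hjm⟩
        have := dd_inj.ne hj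
        rw [hjm]
        omega
      · have := hz' j
        have := dd_le j
        have : p ^ 2 * (D.dg (z j) + 1) ≤ p ^ 2 * m := Nat.mul_le_mul_left _ (by omega)
        rw [mul_add] at this
        omega
    rw [D.mem_lt' (mul_ne_zero (uu_ne hm hd _) (pow_ne_zero _ b1.1)), e1 _ b1.1, b1.2] at this
    omega
  by_cases ht0 : z t = 0
  · simp [ht0]
  have := top_mem D _ h.h2 t (K := p ^ 2 * (dd t - 1) + m) fun j hj => by
    by_cases hj0 : z j = 0
    · simp [hj0]
    rw [D.mem_lt' (mul_ne_zero (pow_ne_zero _ (star_ne_zero.2 (uu_ne hm hd j))) hj0), e2 j hj0]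
    have c1 : dd j < dd t := lt_of_le_of_ne (not_lt.1 fun e => hj0 (h0 j e)) (dd_inj.ne hj)
    by_cases c2 : 4 ≤ dd j
    · have := A j c2 hj0
      have : p ^ 2 * dd j ≤ p ^ 2 * (dd t - 1) := Nat.mul_le_mul_left _ (by omega)
      omega
    · have := hz' j
      have : p ^ 2 * (dd j + 1) ≤ p ^ 2 * (dd t - 1) := Nat.mul_le_mul_left _ (by omega)
      rw [mul_add] at this
      omega
  rw [D.mem_lt' (mul_ne_zero (pow_ne_zero _ (star_ne_zero.2 (uu_ne hm hd t))) ht0), e2 t ht0] at this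
  rw [D.mem_lt' ht0]
  obtain ⟨d, hd'⟩ : ∃ d, dd t = d + 1 := ⟨dd t - 1, by omega⟩
  rw [hd', Nat.add_sub_cancel, mul_add] at this
  omega

end Pool.Agent.Lib.MP_be0804_ag.NN
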