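import Mathlib

/-! A character sum modulo sixteen. -/

set_option autoImplicit false

open Finset

namespace Pool.Agent.Lib.MP_be0804_ag.NN

variable {F : Type} [Field F] [Fintype F] [DecidableEq F]

theorem sum_lin (hr : ringChar F ≠ 2) (a : F) : ∑ x : F, quadraticChar F (x - a) = 0 := by
  rw [← quadraticChar_sum_zero hr]
  exact Fintype.sum_equiv (Equiv.subRight a) _ _ fun _ => rfl

theorem sum_pair (hr : ringChar F ≠ 2) (h1 : quadraticChar F (-1) = 1) {a b : F} (h : a ≠ b) :
    ∑ x : F, quadraticChar F (x - a) * quadraticChar F (x - b) = -1 := by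
  have e := jacobiSum_nontrivial_inv (quadraticChar_ne_one hr)
  rw [(quadraticChar_isQuadratic F).inv, h1, jacobiSum] at e
  have h0 : b - a ≠ 0 := sub_ne_zero.2 h.symm
  rw [← e]
  refine (Fintype.sum_equiv ((Equiv.mulLeft₀ _ h0).trans (Equiv.addLeft a)) _ _ fun u => ?_).symm
  change _ = quadraticChar F (a + (b - a) * u - a) * quadraticChar F (a + (b - a) * u - b)
  rw [show a + (b - a) * u - a = (b - a) * u by ring,
    show a + (b - a) * u - b = -1 * ((b - a) * (1 - u)) by ring]
  simp only [map_mul, h1]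
  linear_combination (-quadraticChar F u * quadraticChar F (1 - u)) * quadraticChar_sq_one h0

/-- all three are one -/
def tr (a b c : ℤ) : ℤ := if a = 1 ∧ b = 1 ∧ c = 1 then 1 else 0

theorem sum_triple (hr : ringChar F ≠ 2) (h1 : quadraticChar F (-1) = 1) {a b c : F}
    (hb : quadraticChar F (a - b) = 1) (hc : quadraticChar F (a - c) = 1)
    (hbc : quadraticChar F (b - c) = 1) : 2 ∣ ∑ x : F,
      tr (quadraticChar F (x - a)) (quadraticChar F (x - b)) (quadraticChar F (x - c)) := by
  have ne : ∀ {u : F}, quadraticChar F u = 1 → u ≠ 0 := fun h e => by simp [e] at h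
  have h2 : (2 : F) ≠ 0 := Ring.two_ne_zero hr
  have key : ∀ {u v w : F}, u * v = w → quadraticChar F v = 1 → quadraticChar F w = 1 →
      quadraticChar F u = 1 := fun h hv hw => by rw [← h, map_mul, hv, mul_one] at hw; exact hw
  have mul : ∀ {u v : F}, quadraticChar F u = 1 → quadraticChar F v = 1 →
      quadraticChar F (u * v) = 1 := fun hu hv => by rw [map_mul, hu, hv, mul_one]
  simp only [tr, sum_boole]
  refine (ZMod.intCast_zmod_eq_zero_iff_dvd _ 2).1 ?_
  rw [Int.cast_natCast, card_eq_sum_ones]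
  push_cast
  refine sum_involution (fun x _ => if (x - a) ^ 2 = (a - b) * (a - c) then 2 * a - x else
    a + (a - b) * (a - c) / (x - a)) (fun _ _ => by decide) (fun x hx _ => ?_) (fun x hx => ?_)
    fun x hx => ?_
  all_goals
    obtain ⟨a1, a2, a3⟩ := (mem_filter.1 hx).2
    have h0 := ne a1
  · split_ifs with h
    · exact fun e => h0 ((mul_eq_zero.1 (show 2 * (x - a) = 0 by linear_combination -e)).resolve_left h2)
    · intro e
      apply h
      have : (a - b) * (a - c) / (x - a) = x - a := by linear_combination e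
      rw [div_eq_iff h0] at this
      rw [this, sq]
  · simp only [mem_filter, mem_univ, true_and]
    split_ifs with h
    · refine ⟨key (w := -1 * ((a - b) * (a - c))) (by linear_combination -h) a1 (mul h1 (mul hb hc)),
        key (w := -1 * ((a - b) * (b - c))) (by linear_combination -h) a2 (mul h1 (mul hb hbc)),
        key (w := (a - c) * (b - c)) (by linear_combination -h) a3 (mul hc hbc)⟩
    · refine ⟨key (w := (a - b) * (a - c)) (by field_simp; ring) a1 (mul hb hc),
        key (w := (a - b) * (x - c)) (by field_simp; ring) a1 (mul hb a3),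
        key (w := (a - c) * (x - b)) (by field_simp; ring) a1 (mul hc a2)⟩
  · have hD : (a - b) * (a - c) ≠ 0 := ne (mul hb hc)
    by_cases h : (x - a) ^ 2 = (a - b) * (a - c)
    · rw [if_pos h, if_pos (by linear_combination h)]
      ring
    · rw [if_neg h, add_sub_cancel_left, if_neg, div_div_cancel₀ hD]
      · ring
      · intro e
        apply h
        rw [div_pow, div_eq_iff (pow_ne_zero 2 h0)] at e
        exact mul_left_cancel₀ hD (by linear_combination -e)

/-- the value is zero -/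
def zr (a : ℤ) : ℤ := if a = 0 then 1 else 0

theorem point {a b c d e : ℤ} (h : ((a = 1 ∨ a = -1) ∧ (b = 1 ∨ b = -1) ∧ (c = 1 ∨ c = -1) ∧
      (d = 1 ∨ d = -1) ∧ (e = 1 ∨ e = -1)) ∨ (a = 0 ∧ b = 1 ∧ c = 1 ∧ d = 1 ∧ e = 1) ∨
      (a = 1 ∧ b = 0 ∧ c = 1 ∧ d = 1 ∧ e = 1) ∨ (a = 1 ∧ b = 1 ∧ c = 0 ∧ d = 1 ∧ e = 1) ∨
      (a = 1 ∧ b = 1 ∧ c = 1 ∧ d = 0 ∧ e = 1) ∨ (a = 1 ∧ b = 1 ∧ c = 1 ∧ d = 1 ∧ e = 0)) :
    a * b * c * d * e ≡ -6 - 3 * (a + b + c + d + e) -
      (a * b + a * c + a * d + a * e + b * c + b * d + b * e + c * d + c * e + d * e) +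
      8 * (tr a b c + tr a b d + tr a b e + tr a c d + tr a c e + tr a d e + tr b c d + tr b c e +
        tr b d e + tr c d e) - 8 * (zr a + zr b + zr c + zr d + zr e) [ZMOD 16] := by
  rcases h with ⟨rfl | rfl, rfl | rfl, rfl | rfl, rfl | rfl, rfl | rfl⟩ |
    ⟨rfl, rfl, rfl, rfl, rfl⟩ | ⟨rfl, rfl, rfl, rfl, rfl⟩ | ⟨rfl, rfl, rfl, rfl, rfl⟩ |
    ⟨rfl, rfl, rfl, rfl, rfl⟩ | ⟨rfl, rfl, rfl, rfl, rfl⟩ <;> decide

theorem sum_zr (a : F) : ∑ x : F, zr (quadraticChar F (x - a)) = 1 := by
  simp only [zr, quadraticChar_eq_zero_iff, sub_eq_zero]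
  simp

theorem sum_mod (hQ : Fintype.card F % 8 = 1) (e : Fin 5 → F)
    (he : ∀ i j, i ≠ j → quadraticChar F (e i - e j) = 1) :
    ∑ x : F, quadraticChar F ((x - e 0) * (x - e 1) * (x - e 2) * (x - e 3) * (x - e 4)) ≡ 12
      [ZMOD 16] := by
  have hr : ringChar F ≠ 2 := fun h => by
    have := FiniteField.even_card_of_char_two h
    omega
  have h1 : quadraticChar F (-1) = 1 := by
    rw [quadraticChar_one_iff_isSquare (by simp), FiniteField.isSquare_neg_one_iff]
    omega
  have hn : ∀ i j, i ≠ j → e i ≠ e j := fun i j h h' => by simpa [h'] using he i j h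
  have P := fun i j h => sum_pair hr h1 (hn i j h)
  have T := fun i j l h h' h'' => sum_triple hr h1 (he i j h) (he i l h') (he j l h'')
  simp only [map_mul]
  refine (Int.ModEq.sum (s := univ) fun x _ => point ?_).trans ?_
  · by_cases h0 : x = e 0
    · rw [h0, he 0 1 (by decide), he 0 2 (by decide), he 0 3 (by decide), he 0 4 (by decide)]; simp
    by_cases h1 : x = e 1
    · rw [h1, he 1 0 (by decide), he 1 2 (by decide), he 1 3 (by decide), he 1 4 (by decide)]; simp
    by_cases h2 : x = e 2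
    · rw [h2, he 2 0 (by decide), he 2 1 (by decide), he 2 3 (by decide), he 2 4 (by decide)]; simp
    by_cases h3 : x = e 3
    · rw [h3, he 3 0 (by decide), he 3 1 (by decide), he 3 2 (by decide), he 3 4 (by decide)]; simp
    by_cases h4 : x = e 4
    · rw [h4, he 4 0 (by decide), he 4 1 (by decide), he 4 2 (by decide), he 4 3 (by decide)]; simp
    exact Or.inl ⟨quadraticChar_dichotomy (sub_ne_zero.2 h0), quadraticChar_dichotomy
      (sub_ne_zero.2 h1), quadraticChar_dichotomy (sub_ne_zero.2 h2), quadraticChar_dichotomy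
      (sub_ne_zero.2 h3), quadraticChar_dichotomy (sub_ne_zero.2 h4)⟩
  · simp only [sum_add_distrib, sum_sub_distrib, ← mul_sum, sum_lin hr, sum_zr, sum_const, card_univ]
    rw [P 0 1 (by decide), P 0 2 (by decide), P 0 3 (by decide), P 0 4 (by decide),
      P 1 2 (by decide), P 1 3 (by decide), P 1 4 (by decide), P 2 3 (by decide),
      P 2 4 (by decide), P 3 4 (by decide)]
    obtain ⟨t1, h⟩ := T 0 1 2 (by decide) (by decide) (by decide); rw [h]
    obtain ⟨t2, h⟩ := T 0 1 3 (by decide) (by decide) (by decide); rw [h]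
    obtain ⟨t3, h⟩ := T 0 1 4 (by decide) (by decide) (by decide); rw [h]
    obtain ⟨t4, h⟩ := T 0 2 3 (by decide) (by decide) (by decide); rw [h]
    obtain ⟨t5, h⟩ := T 0 2 4 (by decide) (by decide) (by decide); rw [h]
    obtain ⟨t6, h⟩ := T 0 3 4 (by decide) (by decide) (by decide); rw [h]
    obtain ⟨t7, h⟩ := T 1 2 3 (by decide) (by decide) (by decide); rw [h]
    obtain ⟨t8, h⟩ := T 1 2 4 (by decide) (by decide) (by decide); rw [h]
    obtain ⟨t9, h⟩ := T 1 3 4 (by decide) (by decide) (by decide); rw [h]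
    obtain ⟨t10, h⟩ := T 2 3 4 (by decide) (by decide) (by decide); rw [h]
    rw [Int.ModEq, nsmul_eq_mul]
    omega

end Pool.Agent.Lib.MP_be0804_ag.NN
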