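import Pool.Agent.Lib.MP_be0804_ag.NMat
import Pool.Agent.Lib.MP_be0804_ag.NEnd2

/-! Divisibility of the character sum by `p ^ 2`. -/

set_option autoImplicit false
set_option linter.unusedSectionVars false

open Polynomial Finset

namespace Pool.Agent.Lib.MP_be0804_ag.NN

variable {F R : Type} [Field F] [Fintype F] [DecidableEq F] [CommRing R] [IsDomain R]

theorem sum_tau_pow (π : R →+* F) (τ : F →* R) (h1 : ∀ x, π (τ x) = x) (h0 : τ 0 = 0) {k : ℕ}
    (hk : k ≠ 0) : ∑ x : F, τ x ^ k =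
      if Fintype.card F - 1 ∣ k then ((Fintype.card F - 1 : ℕ) : R) else 0 := by
  classical
  let φ : Fˣ →* R := (powMonoidHom k).comp (τ.comp (Units.coeHom F))
  have e : ∑ x : F, τ x ^ k = ∑ x : Fˣ, φ x := by
    rw [← Finset.add_sum_erase _ _ (mem_univ 0), h0, zero_pow hk, zero_add]
    symm
    refine sum_bij (fun x _ => (x : F)) (fun x _ => by simp) (fun _ _ _ _ h => Units.ext h)
      (fun b hb => ⟨Units.mk0 b (ne_of_mem_erase hb), mem_univ _, rfl⟩) fun _ _ => rfl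
  have e2 : φ = 1 ↔ Fintype.card F - 1 ∣ k := by
    rw [← FiniteField.forall_pow_eq_one_iff]
    constructor
    · intro h x
      have : τ x ^ k = 1 := DFunLike.congr_fun h x
      have := congrArg π this
      rw [map_pow, h1, map_one] at this
      exact Units.ext (by simpa using this)
    · intro h
      ext x
      change τ x ^ k = 1
      rw [← map_pow, ← Units.val_pow_eq_pow_val, h, Units.val_one, map_one]
  rw [e, sum_hom_units, Fintype.card_units]
  simp only [e2]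
  split_ifs <;> simp

theorem sum_tau_eval (π : R →+* F) (τ : F →* R) (h1 : ∀ x, π (τ x) = x) (h0 : τ 0 = 0) {P : R[X]}
    (hP : P.coeff 0 = 0) {J : ℕ} (hJ : P.natDegree < (J + 1) * (Fintype.card F - 1)) :
    ∑ x : F, P.eval (τ x) = ((Fintype.card F - 1 : ℕ) : R) *
      ∑ j : Fin J, P.coeff ((j.val + 1) * (Fintype.card F - 1)) := by
  have hd : 0 < Fintype.card F - 1 := by have := Fintype.one_lt_card (α := F); omega
  simp only [eval_eq_sum_range' hJ]
  rw [sum_comm]
  generalize hc : Fintype.card F - 1 = d at *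
  have e : ∀ k ∈ range ((J + 1) * d), ∑ x : F, P.coeff k * τ x ^ k =
      if d ∣ k then (d : R) * P.coeff k else 0 := fun k _ => by
    rw [← mul_sum]
    by_cases hk : k = 0
    · simp [hk, hP]
    · rw [sum_tau_pow π τ h1 h0 hk, hc]
      split_ifs <;> ring
  rw [sum_congr rfl e, ← sum_filter, ← mul_sum]
  congr 1
  rw [← Finset.sum_range (fun j => P.coeff ((j + 1) * d)), ← add_zero (∑ j ∈ range J, _), ← hP,
    ← zero_mul d, ← sum_range_succ' (fun j => P.coeff (j * d))]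
  symm
  refine sum_bij (fun j _ => j * d) (fun j hj => ?_) (fun _ _ _ _ h => Nat.eq_of_mul_eq_mul_right hd h)
    (fun b hb => ?_) fun _ _ => rfl
  · rw [mem_filter, mem_range]
    exact ⟨Nat.mul_lt_mul_of_pos_right (mem_range.1 hj) hd, dvd_mul_left _ _⟩
  · rw [mem_filter, mem_range] at hb
    obtain ⟨h, j, rfl⟩ := hb
    rw [mul_comm d] at h
    exact ⟨j, mem_range.2 (lt_of_mul_lt_mul_right h hd.le), mul_comm _ _⟩

variable {p : ℕ} [hp : Fact p.Prime] [CharP F p]

theorem mat_entry (h0 : p ≠ 0) (g : R[X]) (a b : Fin 2) :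
    mat 2 2 (dw h0 g) a b = g.coeff ((a.val + 1) * p - (b.val + 1)) := by
  have := hp.out.two_le
  have := b.2
  rw [mat, Matrix.of_apply, dw_apply, coeff_contract h0, coeff_mul_X_pow', if_pos]
  rw [add_mul]
  omega

theorem sum_dvd_aux (π : R →+* F) (τ : F →* R) (h1 : ∀ x, π (τ x) = x) (h0 : τ 0 = 0)
    (hπ : ∀ a, π a = 0 → (p : R) ∣ a) {m : ℕ} (hm : p = 2 * m + 1)
    (hF : Fintype.card F = (p ^ 2) ^ 2) (e : Fin 5 → F) (he : ∀ i, e i ^ p ^ 2 = e i)
    (e0 : e 0 = 0) {f : F[X]} (hf : f = ∏ i, (X - C (e i))) (hA : Nil p (f ^ m)) :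
    (p : R) ^ 2 ∣ ((∑ x : F, quadraticChar F (f.eval x) : ℤ) : R) := by
  have p0 := hp.out.ne_zero
  have p2 := hp.out.two_le
  have hr : ringChar F ≠ 2 := by rw [ringChar.eq F p]; omega
  obtain ⟨f₀, hf₀⟩ : ∃ f₀ : R[X], f₀ = ∏ i, (X - C (τ (e i))) := ⟨_, rfl⟩
  obtain ⟨f₁, hf₁⟩ : ∃ f₁ : R[X], f₁ = ∏ i, (X - C (τ (e i ^ p))) := ⟨_, rfl⟩
  have m₀ : f₀.map π = f := by simp [hf₀, hf, Polynomial.map_prod, h1]
  have m₁ : f₁.map π = fr p f := by
    rw [hf, map_prod]
    simp only [hf₁, Polynomial.map_prod, Polynomial.map_sub, map_X, map_C, h1, fr_lin]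
  have m₂ : fr p (fr p f) = f := by
    rw [hf]
    simp only [map_prod, fr_lin, ← pow_mul, ← sq, he]
  have dd : ∀ t : Fin 5 → R, (∏ i, (X - C (t i))).natDegree = 5 := fun t => by
    rw [natDegree_prod_of_monic _ _ fun i _ => monic_X_sub_C _]
    simp
  have d₀ : f₀.natDegree = 5 := hf₀ ▸ dd _
  have d₁ : f₁.natDegree = 5 := hf₁ ▸ dd _
  have lift : ∀ g g' : R[X], g.map π = g'.map π → ∃ K, g = g' + C (p : R) * K := fun g g' h => by
    obtain ⟨K, hK⟩ := (C_dvd_iff_dvd_coeff (p : R) (g - g')).2 fun i => hπ _ (by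
      rw [← coeff_map, Polynomial.map_sub, h, sub_self, coeff_zero])
    exact ⟨K, by rw [← hK]; ring⟩
  obtain ⟨K₀, k₀⟩ := lift ((f₀ ^ p) ^ m) (expand R p (f₁ ^ m)) (by
    simp only [Polynomial.map_pow, map_expand, m₀, m₁, map_pow, expand_fr])
  obtain ⟨K₁, k₁⟩ := lift ((f₁ ^ p) ^ m) (expand R p (f₀ ^ m)) (by
    simp only [Polynomial.map_pow, map_expand, m₀, m₁, map_pow]
    rw [← expand_fr p (fr p f), m₂])
  have liftM : ∀ M : Matrix (Fin 2) (Fin 2) R, (∀ a b, π (M a b) = 0) →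
      ∃ B : Matrix (Fin 2) (Fin 2) R, M = (p : R) • B := fun M h => by
    choose B hB using fun a b => hπ _ (h a b)
    exact ⟨Matrix.of B, by ext a b; simp [hB]⟩
  have c₀ : ∀ j, π ((f₀ ^ m).coeff j) = (f ^ m).coeff j := fun j => by
    rw [← coeff_map, Polynomial.map_pow, m₀]
  have c₁ : ∀ j, π ((f₁ ^ m).coeff j) = (f ^ m).coeff j ^ p := fun j => by
    rw [← coeff_map, Polynomial.map_pow, m₁, ← map_pow, coeff_fr]
  have c₂ : ∀ j, ((f ^ m).coeff j ^ p) ^ p = (f ^ m).coeff j := fun j => by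
    rw [← coeff_fr, ← coeff_fr, map_pow, map_pow, m₂]
  obtain ⟨B', hB'⟩ := liftM (mat 2 2 (dw p0 (f₁ ^ m)) * mat 2 2 (dw p0 (f₀ ^ m))) fun a b => by
    simpa [Matrix.mul_apply, mat_entry, c₀, c₁, one_add_one_eq_two] using hA a b a.2 b.2
  obtain ⟨B, hB⟩ := liftM (mat 2 2 (dw p0 (f₀ ^ m)) * mat 2 2 (dw p0 (f₁ ^ m))) fun a b => by
    have := congrArg (· ^ p) (hA a b a.2 b.2)
    simp only [add_pow_char, mul_pow, c₂, zero_pow p0] at this
    simpa [Matrix.mul_apply, mat_entry, c₀, c₁, one_add_one_eq_two] using this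
  have D₀ : ((f₀ ^ p) ^ m).natDegree = 5 * m * p := by rw [natDegree_pow, natDegree_pow, d₀]; ring
  have D₁ : ((f₁ ^ p) ^ m).natDegree = 5 * m * p := by rw [natDegree_pow, natDegree_pow, d₁]; ring
  have key := dwork_dvd hm p0 k₀ k₁ (by rw [natDegree_pow, d₀, mul_comm])
    (by rw [natDegree_pow, d₁, mul_comm]) D₀.le D₁.le hB hB'
  obtain ⟨n, hn⟩ : ∃ n, n = m * (1 + p + p ^ 2 + p ^ 3) := ⟨_, rfl⟩
  have hQ : Fintype.card F = 2 * n + 1 := by rw [hF, hn, hm]; ring
  have hQ' : p ^ 4 = 2 * n + 1 := by rw [← hQ, hF]; ring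
  set P := (f₀ ^ p) ^ m * expand R p ((f₁ ^ p) ^ m * expand R p ((f₀ ^ p) ^ m *
    expand R p ((f₁ ^ p) ^ m))) with hP
  have s1 := sum_tau_eval π τ h1 h0 (P := P) (J := 5 * m + 2) (by
    have : f₀.eval 0 = 0 := by
      rw [hf₀, eval_prod]
      exact prod_eq_zero (mem_univ 0) (by simp [e0, h0])
    rw [coeff_zero_eq_eval_zero, hP, eval_mul, eval_pow, eval_pow, this, zero_pow p0,
      zero_pow (by omega), zero_mul]) (by
    have : P.natDegree ≤ 5 * m * p + (5 * m * p + (5 * m * p + 5 * m * p * p) * p) * p := by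
      refine natDegree_mul_le.trans (Nat.add_le_add D₀.le ?_)
      rw [natDegree_expand]
      refine Nat.mul_le_mul_right _ (natDegree_mul_le.trans (Nat.add_le_add D₁.le ?_))
      rw [natDegree_expand]
      refine Nat.mul_le_mul_right _ (natDegree_mul_le.trans (Nat.add_le_add D₀.le ?_))
      rw [natDegree_expand, D₁]
    have e : 5 * m * p + (5 * m * p + (5 * m * p + 5 * m * p * p) * p) * p = 5 * p * n := by
      rw [hn]; ring
    have : 0 < n := by rw [hn]; exact Nat.mul_pos (by omega) (by omega)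
    rw [hQ, Nat.add_sub_cancel]
    nlinarith)
  have s2 : ∀ j : Fin (5 * m + 2), (P * X ^ (j.val + 1)).coeff ((j.val + 1) * p ^ 4) =
      P.coeff ((j.val + 1) * (Fintype.card F - 1)) := fun j => by
    rw [hQ', hQ, Nat.add_sub_cancel, mul_add, mul_one, coeff_mul_X_pow]
  simp only [s2] at key
  have s3 : (p : R) ^ 2 ∣ ∑ x : F, P.eval (τ x) := by rw [s1]; exact key.mul_left _
  rw [Int.cast_sum]
  refine (dvd_iff_dvd_of_dvd_sub ?_).2 s3
  rw [← sum_sub_distrib]
  refine dvd_sum fun x _ => ?_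
  have t1 : ((quadraticChar F (f.eval x) : ℤ) : R) = τ (f.eval x ^ n) := by
    have := quadraticChar_eq_pow_of_char_ne_two' hr (f.eval x)
    rw [show Fintype.card F / 2 = n by omega] at this
    rw [← this]
    rcases quadraticChar_isQuadratic F (f.eval x) with h | h | h <;> rw [h]
    · simp [h0]
    · simp
    · have a1 : τ (-1) * τ (-1) = 1 := by rw [← map_mul]; simp
      rcases mul_self_eq_one_iff.1 a1 with a | a
      · have := congrArg π a
        rw [h1, map_one] at this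
        exact absurd (by linear_combination -this) (Ring.two_ne_zero hr)
      · simp [a]
  have t2 : f.eval x ^ n = (f.eval x ^ p) ^ m * (((f.eval x ^ p) ^ p) ^ m *
      ((((f.eval x ^ p) ^ p) ^ p) ^ m * ((((f.eval x ^ p) ^ p) ^ p) ^ p) ^ m)) := by
    have : (((f.eval x ^ p) ^ p) ^ p) ^ p = f.eval x := by
      conv_rhs => rw [← FiniteField.pow_card (f.eval x), hF]
      ring
    rw [this, hn]; ring
  have t3 : ∀ (g : R[X]) (u : R) (a : F), (g.map π).eval (π u) = a →
      Ideal.Quotient.mk (Ideal.span {(p : R) ^ 2}) (g.eval u) ^ p =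
        Ideal.Quotient.mk (Ideal.span {(p : R) ^ 2}) (τ a) ^ p := fun g u a h => by
    have := dvd_sub_pow_of_dvd_sub (hπ (g.eval u - τ a) (by
      rw [map_sub, h1, ← h, eval_map, eval₂_at_apply, sub_self])) 1
    rw [← map_pow, ← map_pow, Ideal.Quotient.eq, Ideal.mem_span_singleton]
    simpa [one_add_one_eq_two] using this
  rw [← Ideal.mem_span_singleton, ← Ideal.Quotient.eq, t1, t2, hP]
  simp only [eval_mul, expand_eval, eval_pow, map_mul, map_pow]
  rw [t3 f₀ _ (f.eval x) (by rw [m₀, h1]),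
    t3 f₁ _ (f.eval x ^ p) (by rw [m₁, map_pow, h1, eval_fr]),
    t3 f₀ _ ((f.eval x ^ p) ^ p) (by rw [m₀, map_pow, map_pow, h1, ← eval_fr, ← eval_fr, m₂]),
    t3 f₁ _ (((f.eval x ^ p) ^ p) ^ p) (by
      rw [m₁, map_pow, map_pow, map_pow, h1, ← eval_fr p f x, ← eval_fr p (fr p f), m₂, eval_fr])]
  simp only [map_pow]

theorem sum_dvd {m : ℕ} (hm : p = 2 * m + 1) (hF : Fintype.card F = (p ^ 2) ^ 2) (e : Fin 5 → F)
    (he : ∀ i, e i ^ p ^ 2 = e i) (e0 : e 0 = 0) {f : F[X]} (hf : f = ∏ i, (X - C (e i)))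
    (hA : Nil p (f ^ m)) : ((p ^ 2 : ℕ) : ℤ) ∣ ∑ x : F, quadraticChar F (f.eval x) := by
  obtain ⟨w, hw⟩ := sum_dvd_aux (R := WittVector p F) WittVector.constantCoeff
    (WittVector.teichmuller p) (fun _ => rfl) (WittVector.teichmuller_zero p)
    (fun a h => Ideal.mem_span_singleton.1 ((WittVector.mem_span_p_iff_coeff_zero_eq_zero a).2 h))
    hm hF e he e0 hf hA
  generalize ∑ x : F, quadraticChar F (f.eval x) = s at hw
  have key : ∀ (s : ℤ) (w : WittVector p F), (s : WittVector p F) = p * w → (p : ℤ) ∣ s :=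
    fun s w h => by
      have := congrArg WittVector.constantCoeff h
      rw [map_intCast, map_mul, map_natCast, CharP.cast_eq_zero, zero_mul] at this
      exact (CharP.intCast_eq_zero_iff F p s).1 this
  obtain ⟨t, rfl⟩ := key s (p * w) (by rw [hw]; ring)
  obtain ⟨u, rfl⟩ := key t w (mul_left_cancel₀ (WittVector.p_nonzero p F) (by
    push_cast at hw
    rw [hw]; ring))
  exact ⟨u, by push_cast; ring⟩

end Pool.Agent.Lib.MP_be0804_ag.NN
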