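import Pool.Agent.Lib.MP_be0804_ag.NSS
import Pool.Agent.Lib.MP_be0804_ag.NWitt
import Pool.Agent.Lib.MP_be0804_ag.NTwo

/-! A genus two curve of `p`-rank zero with branch points in the field with `p ^ 2` elements is
superspecial. -/

set_option autoImplicit false
set_option linter.unusedSectionVars false

open Polynomial

namespace Pool.Agent.Lib.MP_be0804_ag.NN

variable {p : ℕ} [hp : Fact p.Prime]

theorem Nil.map {k K : Type} [Field k] [Field K] (j : k →+* K) {h : k[X]} :
    Nil p (h.map j) ↔ Nil p h := by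
  refine forall₄_congr fun i l _ _ => ?_
  simp only [coeff_map, ← map_pow, ← map_mul, ← map_add, map_eq_zero]

theorem zero_finite {F : Type} [Field F] [Fintype F] [CharP F p] {m : ℕ} (hm : p = 2 * m + 1)
    (h5 : 5 ≤ p) (hF : Fintype.card F = (p ^ 2) ^ 2) (e : Fin 5 → F) (hi : Function.Injective e)
    (he : ∀ i, e i ^ p ^ 2 = e i) (e0 : e 0 = 0) {f : F[X]} (hf : f = ∏ i, (X - C (e i)))
    (hA : Nil p (f ^ m)) (i l : ℕ) (h1 : i < 2) (h2 : l < 2) :
    (f ^ m).coeff ((i + 1) * p - (l + 1)) = 0 := by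
  classical
  let k : Subfield F := (iterateFrobenius F p 2).eqLocusField (RingHom.id F)
  let e' : Fin 5 → k := fun i => ⟨e i, he i⟩
  obtain ⟨g, hg⟩ : ∃ g : k[X], g = ∏ i, (X - C (e' i)) := ⟨_, rfl⟩
  have hm' : g.map (algebraMap k F) = f := by
    rw [hg, hf, Polynomial.map_prod]
    simp only [Polynomial.map_sub, map_X, map_C]
    rfl
  have hr : ringChar F ≠ 2 := by rw [ringChar.eq F p]; omega
  obtain ⟨a, ha⟩ : ∃ a, p ^ 2 = 2 * a + 1 := ⟨2 * m ^ 2 + 2 * m, by rw [hm]; ring⟩
  rw [← hm', ← Polynomial.map_pow] at hA ⊢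
  rw [coeff_map, zero_of_sum (F := F) (hg ▸ monic_prod_of_monic _ _ fun i _ => monic_X_sub_C _) (by
      rw [hg, natDegree_prod_of_monic _ _ fun i _ => monic_X_sub_C _]; simp) hm h5
    (fun c => Subtype.ext c.2) hF ((Nil.map _).1 hA)
    (dvd_of_LL (fun i j h => hi (congrArg Subtype.val h)) hm hg) ?_ ?_ i l h1 h2, map_zero]
  · have := sum_mod (F := F) (by
      have : p % 2 = 1 := by omega
      have : p % 8 = 1 ∨ p % 8 = 3 ∨ p % 8 = 5 ∨ p % 8 = 7 := by omega
      rw [hF]
      rcases this with h | h | h | h <;> rw [Nat.pow_mod, Nat.pow_mod p, h]) e fun i j h => by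
        have d0 : e i - e j ≠ 0 := sub_ne_zero.2 (hi.ne h)
        have d1 : (e i - e j) ^ (2 * a) = 1 := mul_right_cancel₀ d0 (by
          rw [← pow_succ, ← ha, sub_pow_char_pow, he, he, one_mul])
        rw [quadraticChar_eq_pow_of_char_ne_two hr d0, if_pos]
        rw [hF, ha, show (2 * a + 1) ^ 2 / 2 = 2 * a * (a + 1) by
          rw [show (2 * a + 1) ^ 2 = 2 * (2 * a * (a + 1)) + 1 by ring]; omega, pow_mul, d1, one_pow]
    simpa [← eval_map_algebraMap, hm', hf, Fin.prod_univ_five] using this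
  · have := sum_dvd hm hF e he e0 hf (by rwa [Polynomial.map_pow, hm'] at hA)
    simpa only [← eval_map_algebraMap, hm'] using this

theorem zero_closed {K : Type} [Field K] [IsAlgClosed K] [CharP K p] {m : ℕ} (hm : p = 2 * m + 1)
    (h5 : 5 ≤ p) (e : Fin 5 → K) (hi : Function.Injective e)
    (he : ∀ i, e i ^ p ^ 2 = e i) (e0 : e 0 = 0) {f : K[X]} (hf : f = ∏ i, (X - C (e i)))
    (hA : Nil p (f ^ m)) (i l : ℕ) (h1 : i < 2) (h2 : l < 2) :
    (f ^ m).coeff ((i + 1) * p - (l + 1)) = 0 := by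
  let F := GaloisField p 4
  let _ : Fintype F := Fintype.ofFinite F
  let _ : Algebra (ZMod p) K := ZMod.algebra K p
  let j : F →+* K := (IsAlgClosed.lift : F →ₐ[ZMod p] K)
  have hF : Fintype.card F = (p ^ 2) ^ 2 := by
    rw [← Nat.card_eq_fintype_card, GaloisField.card p 4 (by omega), ← pow_mul]
  have h0 := FiniteField.X_pow_card_sub_X_ne_zero F (Fintype.one_lt_card (α := F))
  have sp : (X ^ Fintype.card F - X : F[X]).Splits := by
    rw [splits_iff_card_roots, FiniteField.roots_X_pow_card_sub_X,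
      FiniteField.X_pow_card_sub_X_natDegree_eq F Fintype.one_lt_card]
    rfl
  choose e' he' using fun i => sp.mem_range_of_isRoot h0 (i := j) (x := e i) (by
    simp [hF, sq (p ^ 2), pow_mul, he])
  have hm' : (∏ i, (X - C (e' i))).map j = f := by simp [hf, Polynomial.map_prod, he']
  rw [← hm', ← Polynomial.map_pow] at hA ⊢
  rw [coeff_map, zero_finite hm h5 hF e' (fun a b h => hi (by rw [← he', ← he', h]))
    (fun i => j.injective (by rw [map_pow, he', he])) (j.injective (by rw [he', e0, map_zero])) rfl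
    ((Nil.map _).1 hA) i l h1 h2, map_zero]

end Pool.Agent.Lib.MP_be0804_ag.NN
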