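import Mathlib

/-! Traces of the operators of Dwork modulo `p ^ 2`. -/

set_option autoImplicit false

open Polynomial Finset

namespace Pool.Agent.Lib.MP_be0804_ag.NN

variable {R : Type} [CommRing R]

/-- no constant term and degree at most `n` -/
def VV (n : ℕ) (h : R[X]) : Prop := h.coeff 0 = 0 ∧ h.natDegree ≤ n

/-- the matrix of an operator in the monomial basis -/
noncomputable def mat (n n' : ℕ) (L : R[X] →ₗ[R] R[X]) : Matrix (Fin n) (Fin n') R :=
  Matrix.of fun a b => (L (X ^ (b.val + 1))).coeff (a.val + 1)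

theorem VV.eq_sum {n : ℕ} {h : R[X]} (H : VV n h) :
    h = ∑ c : Fin n, h.coeff (c.val + 1) • X ^ (c.val + 1) := by
  conv_lhs => rw [as_sum_range' h (n + 1) (Nat.lt_succ_of_le H.2), sum_range_succ', H.1]
  rw [map_zero, add_zero, Finset.sum_range]
  exact sum_congr rfl fun c _ => by rw [smul_X_eq_monomial]

theorem mat_comp (n n' n'' : ℕ) (L L' : R[X] →ₗ[R] R[X])
    (h : ∀ b < n'', VV n' (L' (X ^ (b + 1)))) :
    mat n n'' (L ∘ₗ L') = mat n n' L * mat n' n'' L' := by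
  ext a b
  simp only [mat, Matrix.mul_apply, Matrix.of_apply, LinearMap.comp_apply]
  conv_lhs => rw [(h b b.2).eq_sum]
  simp only [map_sum, map_smul, finsetSum_coeff, coeff_smul, smul_eq_mul]
  exact sum_congr rfl fun c _ => mul_comm _ _

/-- the operator `U` -/
noncomputable def UU (R : Type) [CommRing R] {p : ℕ} (hp : p ≠ 0) : R[X] →ₗ[R] R[X] where
  toFun := contract p
  map_add' := contract_add hp
  map_smul' c h := by ext; simp [coeff_contract hp]

theorem VV.contract {p n a : ℕ} (hp : p ≠ 0) (G : R[X]) (h : G.natDegree + (a + 1) < (n + 1) * p) :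
    VV n (contract p (G * X ^ (a + 1))) := by
  constructor
  · rw [coeff_contract hp, zero_mul, pow_succ, ← mul_assoc, coeff_mul_X_zero]
  · refine natDegree_le_iff_coeff_eq_zero.2 fun j hj => ?_
    rw [coeff_contract hp]
    refine coeff_eq_zero_of_natDegree_lt (natDegree_mul_le.trans_lt ?_)
    have := natDegree_X_pow_le (R := R) (a + 1)
    have : (n + 1) * p ≤ j * p := Nat.mul_le_mul_right _ hj
    omega

theorem trace_dvd {n : Type} [Fintype n] (q : R) (N₀ N₁ E₀ E₁ Y₀ Y₁ : Matrix n n R)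
    (h0 : N₀ * N₁ * N₀ = q • Y₀) (h1 : N₁ * N₀ * N₁ = q • Y₁)
    (h : q ^ 2 ∣ (N₁ * N₀ * N₁ * N₀).trace) :
    q ^ 2 ∣ ((N₁ + q • E₁) * (N₀ + q • E₀) * (N₁ + q • E₁) * (N₀ + q • E₀)).trace := by
  obtain ⟨t, ht⟩ := h
  have a1 : (E₁ * N₀ * N₁ * N₀).trace = q * (E₁ * Y₀).trace := by
    rw [Matrix.mul_assoc, Matrix.mul_assoc, ← Matrix.mul_assoc N₀, h0, Matrix.mul_smul,
      Matrix.trace_smul, smul_eq_mul]
  have a2 : (N₁ * N₀ * N₁ * E₀).trace = q * (Y₁ * E₀).trace := by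
    rw [h1, Matrix.smul_mul, Matrix.trace_smul, smul_eq_mul]
  have a3 : (N₁ * E₀ * N₁ * N₀).trace = q * (Y₁ * E₀).trace := by
    rw [← a2, Matrix.mul_assoc, Matrix.trace_mul_comm, ← Matrix.mul_assoc]
  have a4 : (N₁ * N₀ * E₁ * N₀).trace = q * (E₁ * Y₀).trace := by
    rw [← a1, Matrix.mul_assoc, Matrix.trace_mul_comm, ← Matrix.mul_assoc]
  simp only [Matrix.add_mul, Matrix.smul_mul, Matrix.mul_smul, Matrix.trace_add,
    Matrix.trace_smul, smul_eq_mul, ht, a1, a2, a3, a4, mul_add, ← mul_assoc q q, ← sq]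
  have d : ∀ x, q ^ 2 ∣ q * (q ^ 2 * x) := fun x => (dvd_mul_right _ _).mul_left _
  have d' : ∀ x, q ^ 2 ∣ q * (q * (q ^ 2 * x)) := fun x => (d x).mul_left _
  repeat' first | exact dvd_mul_right _ _ | exact d _ | exact d' _ | apply dvd_add

/-- the operator of Dwork -/
noncomputable def dw {p : ℕ} (hp : p ≠ 0) (G : R[X]) : R[X] →ₗ[R] R[X] :=
  UU R hp ∘ₗ LinearMap.mulLeft R G

theorem dw_apply {p : ℕ} (hp : p ≠ 0) (G h : R[X]) : dw hp G h = contract p (G * h) := rfl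

theorem mat_dw {p m : ℕ} (hm : p = 2 * m + 1) (hp : p ≠ 0) {g K G : R[X]}
    (h : G = expand R p g + C (p : R) * K) :
    mat (5 * m + 2) (5 * m + 2) (dw hp G) = mat (5 * m + 2) 2 (LinearMap.mulLeft R g) *
      mat 2 (5 * m + 2) (UU R hp) + (p : R) • mat (5 * m + 2) (5 * m + 2) (dw hp K) := by
  rw [← mat_comp _ _ _ _ _ fun b hb => by
    simpa [UU] using VV.contract (n := 2) (a := b) hp (1 : R[X]) (by rw [natDegree_one]; omega)]
  ext a b
  simp only [mat, Matrix.add_apply, Matrix.smul_apply, Matrix.of_apply, dw_apply,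
    LinearMap.comp_apply, LinearMap.mulLeft_apply, h, add_mul, contract_add hp, coeff_add,
    smul_eq_mul]
  rw [mul_comm (expand R p g), contract_mul_expand hp, mul_comm g, mul_assoc, coeff_contract hp,
    coeff_contract hp, coeff_C_mul]
  rfl

theorem dwork_dvd {p m : ℕ} (hm : p = 2 * m + 1) (hp : p ≠ 0) {g₀ g₁ K₀ K₁ G₀ G₁ : R[X]}
    (h₀ : G₀ = expand R p g₁ + C (p : R) * K₀) (h₁ : G₁ = expand R p g₀ + C (p : R) * K₁)
    (d₀ : g₀.natDegree ≤ 5 * m) (d₁ : g₁.natDegree ≤ 5 * m) (D₀ : G₀.natDegree ≤ 5 * m * p)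
    (D₁ : G₁.natDegree ≤ 5 * m * p) {B B' : Matrix (Fin 2) (Fin 2) R}
    (hB : mat 2 2 (dw hp g₀) * mat 2 2 (dw hp g₁) = (p : R) • B)
    (hB' : mat 2 2 (dw hp g₁) * mat 2 2 (dw hp g₀) = (p : R) • B') :
    (p : R) ^ 2 ∣ ∑ j : Fin (5 * m + 2), (G₀ * expand R p (G₁ * expand R p (G₀ * expand R p G₁)) *
      X ^ (j.val + 1)).coeff ((j.val + 1) * p ^ 4) := by
  have v : ∀ G : R[X], G.natDegree ≤ 5 * m * p → ∀ b < 5 * m + 2,
      VV (5 * m + 2) (dw hp G (X ^ (b + 1))) := fun G hG b hb =>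
    VV.contract hp G (by rw [add_mul, add_mul]; omega)
  have w : ∀ g : R[X], g.natDegree ≤ 5 * m → mat 2 (5 * m + 2) (UU R hp) *
      mat (5 * m + 2) 2 (LinearMap.mulLeft R g) = mat 2 2 (dw hp g) := fun g hg =>
    (mat_comp _ _ _ _ _ fun b hb => ⟨by simp [pow_succ, ← mul_assoc], natDegree_mul_le.trans (by
      have := natDegree_X_pow_le (R := R) (b + 1)
      omega)⟩).symm
  have e : ∑ j : Fin (5 * m + 2), (G₀ * expand R p (G₁ * expand R p (G₀ * expand R p G₁)) *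
      X ^ (j.val + 1)).coeff ((j.val + 1) * p ^ 4) = (mat (5 * m + 2) (5 * m + 2)
        (((dw hp G₁ ∘ₗ dw hp G₀) ∘ₗ dw hp G₁) ∘ₗ dw hp G₀)).trace := by
    refine sum_congr rfl fun j _ => ?_
    simp only [Matrix.diag_apply, mat, Matrix.of_apply, LinearMap.comp_apply, dw_apply]
    have c : ∀ G H b : R[X], H * contract p (G * b) = contract p (G * expand R p H * b) :=
      fun G H b => by rw [mul_right_comm, contract_mul_expand hp, mul_comm]
    rw [c G₀ G₁ (contract _ _), c G₁ (G₀ * _), c G₀ (G₁ * _)]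
    simp only [coeff_contract hp]
    congr 1
    ring
  rw [e, mat_comp _ _ _ _ _ (v _ D₀), mat_comp _ _ _ _ _ (v _ D₁), mat_comp _ _ _ _ _ (v _ D₀),
    mat_dw hm hp h₀, mat_dw hm hp h₁]
  rw [← w _ d₀, ← w _ d₁] at hB hB'
  generalize mat 2 (5 * m + 2) (UU R hp) = U at *
  generalize mat (5 * m + 2) 2 (LinearMap.mulLeft R g₀) = I₀ at *
  generalize mat (5 * m + 2) 2 (LinearMap.mulLeft R g₁) = I₁ at *
  refine trace_dvd _ _ _ _ _ (I₁ * B * U) (I₀ * B' * U) ?_ ?_ ⟨(B * B).trace, ?_⟩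
  · rw [← Matrix.smul_mul, ← Matrix.mul_smul, ← hB]; simp only [Matrix.mul_assoc]
  · rw [← Matrix.smul_mul, ← Matrix.mul_smul, ← hB']; simp only [Matrix.mul_assoc]
  · have : (I₀ * U * (I₁ * U) * (I₀ * U) * (I₁ * U)).trace =
        ((U * I₀ * (U * I₁)) * (U * I₀ * (U * I₁))).trace := by
      rw [← Matrix.mul_assoc _ I₁ U, Matrix.trace_mul_comm]
      simp only [Matrix.mul_assoc]
    rw [this, hB, Matrix.smul_mul, Matrix.mul_smul, Matrix.trace_smul, Matrix.trace_smul,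
      smul_eq_mul, smul_eq_mul]
    ring

end Pool.Agent.Lib.MP_be0804_ag.NN
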