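import Pool.Agent.Lib.MP_be0804_ag.NDim

/-! Points of the curve and of its twist, and character sums. -/

set_option autoImplicit false
set_option linter.unusedSectionVars false

open Polynomial Module
open Pool.Agent.Lib.MP_639284_nt

namespace Pool.Agent.Lib.MP_be0804_ag.NN

variable {k Ω : Type} [Field k] [Field Ω] [Algebra k Ω] {f : k[X]}

/-- evaluation at a point -/
noncomputable def pt (x y : Ω) (h : y ^ 2 = aeval x f) : OO f →ₐ[k] Ω where
  toFun u := aeval x u.re + aeval x u.im * y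
  map_one' := by
    change aeval x (1 : k[X]) + aeval x (0 : k[X]) * y = 1
    simp
  map_mul' u v := by
    simp only [QuadraticAlgebra.re_mul, QuadraticAlgebra.im_mul, map_add, map_mul, ← h, map_zero]
    ring
  map_zero' := by simp
  map_add' u v := by
    simp only [QuadraticAlgebra.re_add, QuadraticAlgebra.im_add, map_add]
    ring
  commutes' c := by
    have : algebraMap k (OO f) c = ⟨C c, 0⟩ := rfl
    simp [this]

theorem pt_apply (x y : Ω) (h : y ^ 2 = aeval x f) (u : OO f) :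
    pt x y h u = aeval x u.re + aeval x u.im * y := rfl

variable {p : ℕ} [hp : Fact p.Prime] [CharP k p] [CharP Ω p]

variable {F : Type} [Field F] [Fintype F] [DecidableEq F] [Algebra k F] [Algebra F Ω]
  [IsScalarTower k F Ω] [IsAlgClosed Ω]

theorem count_le (h2 : p ≠ 2) (hF : Fintype.card F = (p ^ 2) ^ 2)
    {ε : ℤ} (hε : ε = 1 ∨ ε = -1) {σ : OO f → OO f} (hσ : ∀ u, σ u = ⟨u.re, ε • u.im⟩)
    (hfin : (Fix k Ω ((p ^ 2) ^ 2) σ).Finite) :
    (((p ^ 2) ^ 2 : ℕ) : ℤ) + ε * ∑ x : F, quadraticChar F (aeval x f) ≤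
      (Fix k Ω ((p ^ 2) ^ 2) σ).ncard := by
  classical
  have hc : CharP F p := (algebraMap k F).charP_iff_charP p |>.1 inferInstance
  have hr : ringChar F ≠ 2 := by rw [ringChar.eq F p]; exact h2
  have h2' : (2 : Ω) ≠ 0 := fun e => by
    have := (CharP.cast_eq_zero_iff Ω p 2).1 (by exact_mod_cast e)
    exact h2 ((Nat.prime_dvd_prime_iff_eq hp.out Nat.prime_two).1 this)
  choose y hy using fun x : F => IsAlgClosed.exists_pow_nat_eq (algebraMap F Ω (aeval x f)) two_pos
  have hy' : ∀ (x : F) (b : Bool), (if b then y x else -y x) ^ 2 = aeval (algebraMap F Ω x) f :=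
    fun x b => by rw [aeval_algebraMap_apply, ← hy]; split_ifs <;> ring
  let A : Finset (F × Bool) := Finset.univ.filter fun z =>
    quadraticChar F (aeval z.1 f) = ε ∨ (quadraticChar F (aeval z.1 f) = 0 ∧ z.2 = true)
  let g : F × Bool → (OO f →ₐ[k] Ω) := fun z => pt _ _ (hy' z.1 z.2)
  have hA : (A.card : ℤ) = ((p ^ 2) ^ 2 : ℕ) + ε * ∑ x : F, quadraticChar F (aeval x f) := by
    rw [Finset.card_filter, ← hF, Finset.mul_sum, Fintype.card_eq_sum_ones, Fintype.sum_prod_type]
    push_cast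
    rw [← Finset.sum_add_distrib]
    refine Finset.sum_congr rfl fun x _ => ?_
    rcases hε with rfl | rfl <;>
      rcases (quadraticChar_isQuadratic F) (aeval x f) with h | h | h <;> simp [h]
  have hodd : (p ^ 2) ^ 2 = 2 * (Fintype.card F / 2) + 1 := by
    have := FiniteField.odd_card_of_char_ne_two hr
    omega
  have hsub : g '' A ⊆ Fix k Ω ((p ^ 2) ^ 2) σ := by
    rintro _ ⟨⟨x, b⟩, hz, rfl⟩ u
    simp only [A, Finset.coe_filter, Finset.mem_univ, true_and, Set.mem_ofPred_eq] at hz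
    have e1 : ∀ g : k[X], aeval (algebraMap F Ω x) g ^ (p ^ 2) ^ 2 = aeval (algebraMap F Ω x) g :=
      fun g => by rw [aeval_algebraMap_apply, ← map_pow, ← hF, FiniteField.pow_card]
    have e2 : (if b then y x else -y x) ^ (p ^ 2) ^ 2 = ε * (if b then y x else -y x) := by
      rw [hodd, pow_succ, pow_mul, hy', aeval_algebraMap_apply, ← map_pow,
        ← quadraticChar_eq_pow_of_char_ne_two' hr]
      rcases hz with hz | ⟨hz, -⟩
      · rw [hz, map_intCast]
      · have : y x = 0 := by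
          have := hy x
          rw [quadraticChar_eq_zero_iff.1 hz, map_zero] at this
          exact pow_eq_zero_iff two_ne_zero |>.1 this
        simp [this]
    simp only [g, pt_apply, hσ]
    rw [← pow_mul p, add_pow_char_pow, pow_mul p, mul_pow, e1, e1, e2, map_zsmul, zsmul_eq_mul]
    ring
  have hinj : Set.InjOn g A := by
    rintro ⟨x, b⟩ hz ⟨x', b'⟩ hz' e
    simp only [A, Finset.coe_filter, Finset.mem_univ, true_and, Set.mem_ofPred_eq] at hz hz'
    have e1 := DFunLike.congr_fun e (sx f)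
    have e2 := DFunLike.congr_fun e (ty f)
    simp only [g, pt_apply, sx, ty, aeval_X, map_zero, zero_mul, add_zero, map_one, one_mul,
      zero_add] at e1 e2
    obtain rfl : x = x' := (algebraMap F Ω).injective e1
    by_cases h0 : y x = 0
    · have : quadraticChar F (aeval x f) = 0 := by
        have := hy x
        rw [h0, zero_pow two_ne_zero, eq_comm, map_eq_zero] at this
        rw [this, quadraticChar_zero]
      have hε0 : ¬ (0 = ε) := by omega
      simp only [this, hε0, false_or, true_and] at hz hz'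
      rw [hz, hz']
    · have : y x ≠ -y x := fun e => h0 (by
        exact (mul_eq_zero.1 (show 2 * y x = 0 by linear_combination e)).resolve_left h2')
      cases b <;> cases b'
      · rfl
      · exact absurd e2.symm this
      · exact absurd e2 this
      · rfl
  rw [← hA, ← Set.ncard_coe_finset, ← hinj.ncard_image]
  exact_mod_cast Set.ncard_le_ncard hsub hfin

theorem zero_of_sum (hm : f.Monic) (hd : f.natDegree = 5) {m : ℕ} (hpm : p = 2 * m + 1)
    (h5 : 5 ≤ p) (hk : ∀ c : k, c ^ p ^ 2 = c) (hF : Fintype.card F = (p ^ 2) ^ 2)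
    (hA : Nil p (f ^ m)) (hs : ∀ v : k[X], LL f v = 0 → f ^ m ∣ v)
    (h16 : ∑ x : F, quadraticChar F (aeval x f) ≡ 12 [ZMOD 16])
    (hq : ((p ^ 2 : ℕ) : ℤ) ∣ ∑ x : F, quadraticChar F (aeval x f)) (i l : ℕ) (hi : i < 2)
    (hl : l < 2) : (f ^ m).coeff ((i + 1) * p - (l + 1)) = 0 := by
  let Ω := AlgebraicClosure F
  have : CharP F p := (algebraMap k F).charP_iff_charP p |>.1 inferInstance
  have := (str hm hd).isDomain
  have h2 : p ≠ 2 := by omega
  have hlt : (str hm hd).G.card ^ 2 + 3 * (str hm hd).G.card + 1 < p ^ 2 := by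
    change 2 ^ 2 + 3 * 2 + 1 < _
    nlinarith
  obtain ⟨a1, a2⟩ := rh k (OO f) Ω (str hm hd) p 2 LinearMap.id (fun _ => le_rfl) hlt
  obtain ⟨b1, -⟩ := rh k (OO f) Ω (str hm hd) p 2 (inv f) (fun u => (degree_star hm hd u).le) hlt
  have c1 := count_le (F := F) h2 hF (Or.inl rfl) (fun u => by simp) a1
  have c2 := count_le (F := F) h2 hF (Or.inr rfl) (σ := inv f) (fun u => by
    change star u = _
    ext1 <;> simp) b1
  obtain ⟨t, ht⟩ := hq
  obtain ⟨s, hs'⟩ : ∃ s, p ^ 2 = 2 * s + 3 := ⟨2 * m ^ 2 + 2 * m - 1, by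
    have : 1 ≤ 2 * m ^ 2 + 2 * m := by omega
    rw [hpm]; zify [this]; ring⟩
  have H := setup hm hd h2 hk
  have h8 : ((p ^ 2 : ℕ) : ℤ) % 8 = 1 := by
    have : p % 8 = 1 ∨ p % 8 = 3 ∨ p % 8 = 5 ∨ p % 8 = 7 := by omega
    have : p ^ 2 % 8 = 1 := by rcases this with h | h | h | h <;> rw [Nat.pow_mod, h]
    omega
  have hpos : (0 : ℤ) < (p ^ 2 : ℕ) := by omega
  have ht4 : t ≤ -4 := by
    have e1 : ((p ^ 2 : ℕ) : ℤ) * t ≤ (p ^ 2 : ℕ) * 5 := by
      have : (str hm hd).G.card = 2 := rfl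
      rw [this] at a2
      rw [ht] at c1
      zify at a2
      push_cast at c1 ⊢
      linarith
    have e2 := le_of_mul_le_mul_left e1 hpos
    rw [ht] at h16
    obtain ⟨a, ha⟩ : ∃ a, ((p ^ 2 : ℕ) : ℤ) = 8 * a + 1 := ⟨(p ^ 2 : ℕ) / 8, by omega⟩
    rw [ha, Int.ModEq, add_mul, mul_assoc, one_mul] at h16
    obtain ⟨b, rfl⟩ : ∃ b, t = 4 * b := ⟨t / 4, by omega⟩
    rw [show a * (4 * b) = 4 * (a * b) by ring] at h16
    omega
  obtain ⟨a, b, G⟩ := exists_fund hm hd H hs' (by nlinarith) Ω (by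
    rw [ht] at c2
    zify
    push_cast at c2 hpos
    nlinarith)
  exact G.zero H der hpm h5 hA hs i l hi hl

end Pool.Agent.Lib.MP_be0804_ag.NN
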