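import Pool.Agent.Lib.MP_be0804_ag.NEnd2
import Pool.Agent.Lib.MP_639284_nt.RH

/-! The coordinate ring of `y ^ 2 = f` for a monic quintic `f`. -/

set_option autoImplicit false
set_option linter.unusedSectionVars false

open Polynomial Differential
open Pool.Agent.Lib.MP_639284_nt

namespace Pool.Agent.Lib.MP_be0804_ag.NN

variable {k : Type} [Field k]

/-- the coordinate ring -/
abbrev OO (f : k[X]) : Type := QuadraticAlgebra k[X] f 0

variable {f : k[X]}

/-- the function `x` -/
noncomputable def sx (f : k[X]) : OO f := ⟨X, 0⟩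

/-- the function `y` -/
noncomputable def ty (f : k[X]) : OO f := ⟨0, 1⟩

theorem aeval_sx (g : k[X]) : aeval (sx f) g = (⟨g, 0⟩ : OO f) := by
  have : sx f = algebraMap k[X] (OO f) X := rfl
  rw [this, aeval_algebraMap_apply, aeval_X_left_apply]
  rfl

theorem decomp (u : OO f) : u = aeval (sx f) u.re + aeval (sx f) u.im * ty f := by
  rw [aeval_sx, aeval_sx]
  ext1 <;> simp [ty]

theorem ty_sq : ty f ^ 2 = aeval (sx f) f := by
  rw [aeval_sx, sq]
  ext1 <;> simp [ty]

theorem deg_add_ne {P Q : k[X]} (h : P ≠ 0 → Q ≠ 0 → P.natDegree ≠ Q.natDegree) :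
    (P + Q).degree = max P.degree Q.degree := by
  rcases eq_or_ne P 0 with rfl | hP
  · simp
  rcases eq_or_ne Q 0 with rfl | hQ
  · simp
  rcases lt_or_gt_of_ne (h hP hQ) with h1 | h1
  · rw [degree_add_eq_right_of_degree_lt (degree_lt_degree h1),
      max_eq_right (degree_lt_degree h1).le]
  · rw [degree_add_eq_left_of_degree_lt (degree_lt_degree h1), max_eq_left (degree_lt_degree h1).le]

theorem degree_expand_two (a : k[X]) : (expand k 2 a).degree = (a * a).degree := by
  rcases eq_or_ne a 0 with rfl | ha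
  · simp
  · rw [degree_eq_natDegree ((expand_ne_zero two_pos).2 ha), degree_eq_natDegree (mul_ne_zero ha ha),
      natDegree_expand, natDegree_mul ha ha, mul_two]

/-- the pole order model -/
noncomputable def pol (f : k[X]) : OO f →ₗ[k] k[X] where
  toFun u := expand k 2 u.re + X ^ 5 * expand k 2 u.im
  map_add' u v := by simp; ring
  map_smul' c u := by simp

theorem degree_pol (u : OO f) :
    (pol f u).degree = max (u.re * u.re).degree (5 + (u.im * u.im).degree) := by
  change (expand k 2 u.re + X ^ 5 * expand k 2 u.im).degree = _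
  rw [deg_add_ne, degree_mul, degree_expand_two, degree_expand_two, degree_X_pow]
  · rfl
  · intro _ h2
    rw [natDegree_mul (left_ne_zero_of_mul h2) (right_ne_zero_of_mul h2), natDegree_expand,
      natDegree_expand, natDegree_X_pow]
    omega

theorem degree_norm (hm : f.Monic) (hd : f.natDegree = 5) (u : OO f) :
    (pol f u).degree = u.norm.degree := by
  have e : u.norm = u.re * u.re + -(f * (u.im * u.im)) := by
    rw [QuadraticAlgebra.norm_def]; ring
  rw [e, degree_pol, deg_add_ne, degree_neg, degree_mul (p := f), degree_eq_natDegree hm.ne_zero, hd]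
  · rfl
  · intro h1 h2
    have h3 := right_ne_zero_of_mul (neg_ne_zero.1 h2)
    rw [natDegree_neg, natDegree_mul hm.ne_zero h3, natDegree_mul (left_ne_zero_of_mul h1)
      (left_ne_zero_of_mul h1), natDegree_mul (left_ne_zero_of_mul h3) (left_ne_zero_of_mul h3)]
    omega

theorem pol_cases (u : OO f) (hu : u ≠ 0) :
    (u.im = 0 ∧ (pol f u).degree = (2 * u.re.natDegree : ℕ)) ∨
      (u.im ≠ 0 ∧ (pol f u).degree = (max (2 * u.re.natDegree) (2 * u.im.natDegree + 5) : ℕ)) := by
  rw [degree_pol]
  by_cases h1 : u.im = 0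
  · have h2 : u.re ≠ 0 := fun h => hu (by ext1 <;> simp [h, h1])
    refine Or.inl ⟨h1, ?_⟩
    rw [h1, degree_eq_natDegree (mul_ne_zero h2 h2), natDegree_mul h2 h2, two_mul]
    simp
  · refine Or.inr ⟨h1, ?_⟩
    rw [degree_eq_natDegree (mul_ne_zero h1 h1), natDegree_mul h1 h1]
    by_cases h2 : u.re = 0
    · rw [h2]
      simp only [mul_zero, degree_zero, natDegree_zero, bot_le, max_eq_right, zero_le]
      push_cast
      ring
    · rw [degree_eq_natDegree (mul_ne_zero h2 h2), natDegree_mul h2 h2, two_mul, two_mul,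
        add_comm _ 5]
      rfl

/-- the pole order at infinity -/
noncomputable def str (hm : f.Monic) (hd : f.natDegree = 5) : DegStr k (OO f) where
  φ := pol f
  inj := (injective_iff_map_eq_zero _).2 fun u hu => by
    by_contra h
    rcases pol_cases u h with ⟨-, h⟩ | ⟨-, h⟩ <;> rw [hu] at h <;>
      exact WithBot.natCast_ne_bot _ h.symm
  one := by change expand k 2 1 + X ^ 5 * expand k 2 0 = 1; simp
  mul a b := by simp only [degree_norm hm hd, map_mul, degree_mul]
  G := {1, 3}
  gap n := by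
    constructor
    · intro hn
      simp only [Finset.mem_insert, Finset.mem_singleton, not_or] at hn
      rcases Nat.even_or_odd' n with ⟨j, rfl | rfl⟩
      · refine ⟨⟨X ^ j, 0⟩, ?_⟩
        rw [degree_pol]
        simp only [mul_zero, degree_zero, WithBot.add_bot, bot_le, max_eq_left]
        rw [← pow_add, degree_X_pow, two_mul]
      · obtain ⟨i, rfl⟩ : ∃ i, j = i + 2 := ⟨j - 2, by omega⟩
        refine ⟨⟨0, X ^ i⟩, ?_⟩
        rw [degree_pol]
        simp only [mul_zero, degree_zero, bot_le, max_eq_right]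
        rw [← pow_add, degree_X_pow]
        push_cast
        ring
    · rintro ⟨a, ha⟩
      have h0 : a ≠ 0 := by rintro rfl; simp at ha
      simp only [Finset.mem_insert, Finset.mem_singleton, not_or]
      rcases pol_cases a h0 with ⟨-, h⟩ | ⟨-, h⟩ <;> rw [h, Nat.cast_inj] at ha <;> omega

variable (hm : f.Monic) (hd : f.natDegree = 5)

theorem dg_bounds (u : OO f) : 2 * u.re.natDegree ≤ (str hm hd).dg u ∧
    (u.im = 0 ∨ 2 * u.im.natDegree + 5 ≤ (str hm hd).dg u) := by
  rcases eq_or_ne u 0 with rfl | hu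
  · simp
  rcases pol_cases u hu with ⟨h1, h⟩ | ⟨-, h⟩
  · rw [(str hm hd).dg_of_deg h]; exact ⟨le_rfl, Or.inl h1⟩
  · rw [(str hm hd).dg_of_deg h]; omega

theorem dg_sx : (str hm hd).dg (sx f) = 2 := by
  refine (str hm hd).dg_of_deg ?_
  change (pol f _).degree = _
  rw [degree_pol]
  simp [sx]
  rfl

theorem dg_ty : (str hm hd).dg (ty f) = 5 := by
  refine (str hm hd).dg_of_deg ?_
  change (pol f _).degree = _
  rw [degree_pol]
  simp [ty]

theorem degree_star (u : OO f) : ((str hm hd).φ (star u)).degree = ((str hm hd).φ u).degree := by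
  change (pol f _).degree = (pol f _).degree
  rw [degree_norm hm hd, degree_norm hm hd, QuadraticAlgebra.norm_star]

theorem dg_star (u : OO f) : (str hm hd).dg (star u) = (str hm hd).dg u :=
  natDegree_eq_of_degree_eq (degree_star hm hd u)

theorem star_sx : star (sx f) = sx f := by ext1 <;> simp [sx]

theorem star_ty : star (ty f) = -ty f := by ext1 <;> simp [ty]

theorem star_aeval (g : k[X]) : star (aeval (sx f) g) = aeval (sx f) g := by
  rw [aeval_sx]; ext1 <;> simp

instance (p : ℕ) [CharP k p] : CharP (OO f) p :=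
  charP_of_injective_algebraMap (algebraMap k (OO f)).injective p

noncomputable instance : Differential (OO f) where
  deriv := Derivation.mk' (AddMonoidHom.toIntLinearMap
    { toFun := fun u => ⟨LL f u.im, 2 * derivative u.re⟩
      map_zero' := by ext1 <;> simp [LL]
      map_add' := fun u v => by ext1 <;> simp [LL_add, mul_add] }) fun u v => by
    ext1 <;> simp [LL, derivative_mul] <;> ring

theorem deriv_def (u : OO f) : u′ = ⟨LL f u.im, 2 * derivative u.re⟩ := rfl

theorem der : Der f (sx f) (ty f) where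
  dc c := by
    have : algebraMap k (OO f) c = ⟨C c, 0⟩ := rfl
    rw [this, deriv_def]
    ext1 <;> simp [LL]
  dS := by rw [deriv_def, two_mul (ty f)]; ext1 <;> simp [LL, sx, ty, one_add_one_eq_two]
  dT := by rw [deriv_def, aeval_sx]; ext1 <;> simp [LL, ty]

section Abstract

variable {O : Type} [CommRing O] [Algebra k O] (S : DegStr k O)

theorem sum_distinct {ι : Type} (s : Finset ι) (a : ι → O)
    (h : ∀ i ∈ s, ∀ j ∈ s, a i ≠ 0 → a j ≠ 0 → S.dg (a i) = S.dg (a j) → i = j)
    (h0 : ∑ i ∈ s, a i = 0) : ∀ i ∈ s, a i = 0 := by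
  have h1 := degree_sum_eq_of_disjoint (fun j => S.φ (a j)) s (by
    intro i hi j hj hij he
    simp only [Function.comp] at he
    have a1 : a i ≠ 0 := fun e => hi.2 (by simp [e])
    have a2 : a j ≠ 0 := fun e => hj.2 (by simp [e])
    rw [S.deg_eq a1, S.deg_eq a2, Nat.cast_inj] at he
    exact hij (h i hi.1 j hj.1 a1 a2 he))
  rw [← map_sum, h0, map_zero, degree_zero] at h1
  intro i hi
  by_contra h2
  have h3 := Finset.le_sup (f := fun j => (S.φ (a j)).degree) hi
  rw [← h1, S.deg_eq h2] at h3
  exact WithBot.coe_ne_bot (le_bot_iff.1 h3)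

theorem top_mem {ι : Type} [Fintype ι] (a : ι → O) (h0 : ∑ i, a i = 0) (i : ι) {K : ℕ}
    (h : ∀ j, j ≠ i → a j ∈ S.lt K) : a i ∈ S.lt K := by
  classical
  rw [← Finset.add_sum_erase _ _ (Finset.mem_univ i)] at h0
  rw [eq_neg_of_add_eq_zero_left h0]
  exact neg_mem (Submodule.sum_mem _ fun j hj => h j (Finset.ne_of_mem_erase hj))

include S in
theorem card_le_idg (Ω : Type) [Field Ω] [Algebra k Ω] {I : Ideal O} (hI : I ≠ ⊥) :
    {φ : O →ₐ[k] Ω | ∀ x ∈ I, φ x = 0}.Finite ∧
      {φ : O →ₐ[k] Ω | ∀ x ∈ I, φ x = 0}.ncard ≤ idg k I := by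
  have := S.finite_quot hI
  have e : {φ : O →ₐ[k] Ω | ∀ x ∈ I, φ x = 0} =
      Set.range fun ψ : (O ⧸ I) →ₐ[k] Ω => ψ.comp (Ideal.Quotient.mkₐ k _) := by
    ext φ
    constructor
    · exact fun h => ⟨Ideal.Quotient.liftₐ _ φ h, Ideal.Quotient.liftₐ_comp _ _ _⟩
    · rintro ⟨ψ, rfl⟩ x hx
      change ψ (Ideal.Quotient.mk _ x) = 0
      rw [Ideal.Quotient.eq_zero_iff_mem.2 hx, map_zero]
  rw [e]
  exact ⟨Set.finite_range _, (Finite.card_range_le _).trans (card_algHom_le_finrank k _ Ω)⟩

end Abstract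

variable {p : ℕ} [hp : Fact p.Prime] [CharP k p]

include hm hd in
theorem setup (h2 : p ≠ 2) (hk : ∀ c : k, c ^ p ^ 2 = c) : Setup p f (sx f) (ty f) where
  fix := hk
  eq := ty_sq
  tr g hg := by rw [aeval_sx] at hg; exact congrArg QuadraticAlgebra.re hg
  mon := hm
  deg := hd
  ker h hh := by
    have := (str hm hd).isDomain
    have h1 := Setup.one_lt (p := p)
    have hE : (X ^ p ^ 2 - C (sx f)).Monic := monic_X_pow_sub_C _ (by omega)
    rw [← modByMonic_eq_zero_iff_dvd hE]
    set r := h %ₘ (X ^ p ^ 2 - C (sx f)) with hr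
    have h3 : r.natDegree < p ^ 2 := by
      have := natDegree_modByMonic_lt h hE (fun e => by
        have := congrArg natDegree e
        rw [natDegree_X_pow_sub_C, natDegree_one] at this
        omega)
      rwa [natDegree_X_pow_sub_C] at this
    have h4 : ev p (sx f) r = 0 := by
      rw [hr, modByMonic_eq_sub_mul_div, map_sub, map_mul, hh]
      simp [ev_C, ev_X]
    rw [ev, coe_eval₂RingHom, eval₂_eq_sum_range' _ h3] at h4
    have hs : sx f ≠ 0 := fun e => by simpa [sx] using congrArg QuadraticAlgebra.re e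
    have h5 := sum_distinct (str hm hd) _ _ (fun i hi j hj a1 a2 he => by
      rw [DegStr.dg_mul _ (left_ne_zero_of_mul a1) (right_ne_zero_of_mul a1),
        DegStr.dg_mul _ (left_ne_zero_of_mul a2) (right_ne_zero_of_mul a2)] at he
      simp only [iterateFrobenius_def, DegStr.dg_pow, dg_sx] at he
      have h6 : i * 2 ≡ j * 2 [MOD p ^ 2] := by
        have := congrArg (· % p ^ 2) he
        simpa [Nat.ModEq] using this
      have h7 : Nat.gcd (p ^ 2) 2 = 1 :=
        Nat.Coprime.pow_left 2 ((Nat.coprime_primes hp.out Nat.prime_two).2 h2)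
      exact (Nat.ModEq.cancel_right_of_coprime h7 h6).eq_of_lt_of_lt (Finset.mem_range.1 hi)
        (Finset.mem_range.1 hj)) h4
    ext1 i
    by_cases hi : i < p ^ 2
    · have := (mul_eq_zero.1 (h5 i (Finset.mem_range.2 hi))).resolve_right (pow_ne_zero _ hs)
      rw [iterateFrobenius_def] at this
      exact pow_eq_zero_iff (by omega) |>.1 this
    · exact coeff_eq_zero_of_natDegree_lt (by omega)

end Pool.Agent.Lib.MP_be0804_ag.NN
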