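import Pool.Agent.Lib.MP_be0804_ag.NTors
import Pool.Agent.Lib.MP_02f36d_nt.Deg

/-! Supersingular values lie in the field with `p ^ 2` elements. -/

set_option autoImplicit false
set_option linter.unusedSectionVars false

open Polynomial WeierstrassCurve Filter
open Pool.Agent.Lib.MP_02f36d_nt

namespace Pool.Agent.Lib.MP_be0804_ag.NN

variable {K : Type} [Field K] [IsAlgClosed K] [DecidableEq K] {p : ℕ} [hp : Fact p.Prime]
  [CharP K p]

theorem xc_inj {V : Affine K} (ht : ∀ P : V.Point, p • P = 0 → P = 0) {P Q : V.Point} (hP : P ≠ 0)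
    (hQ : Q ≠ 0) (h : xc (p • P) = xc (p • Q)) : xc P = xc Q := by
  rcases eq_or_neg_of_xc (fun e => hP (ht P e)) (fun e => hQ (ht Q e)) h with e | e
  · rw [sub_eq_zero.1 (ht (P - Q) (by rw [nsmul_sub, e, sub_self]))]
  · rw [eq_neg_of_add_eq_zero_left (ht (P + Q) (by rw [nsmul_add, e, neg_add_cancel])), xc_neg]

theorem mob {V : Affine K} (hΔ : V.Δ ≠ 0) (ht : ∀ P : V.Point, p • P = 0 → P = 0) :
    ∃ α β γ δ : K, (α ≠ 0 ∨ γ ≠ 0) ∧ ∀ᶠ P : V.Point in cofinite, γ * xc P ^ p ^ 2 + δ ≠ 0 ∧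
      xc (p • P) * (γ * xc P ^ p ^ 2 + δ) = α * xc P ^ p ^ 2 + β := by
  have hV : Sep V := sep_of_c4 (Or.inr hΔ)
  have := infinite_pt hV
  have h1 := (alg0_id.nsmul (V := V) p).evenDeg hV
  rw [deg_nsmul hV hΔ alg0_id, deg_id hV, mul_one] at h1
  obtain ⟨A, B, h2, h3, h4⟩ := h1
  have h5 : ∀ᶠ P : V.Point in cofinite, xc (p • P) = A.eval (xc P) / B.eval (xc P) := h4
  have hq : 0 < p ^ 2 := pow_pos hp.out.pos 2
  have h6 : ∀ᶠ c : K in cofinite, ∃ u r : K, u ≠ 0 ∧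
      ∀ x, A.eval x - c * B.eval x = u * (x ^ p ^ 2 - r) := by
    have a1 : ∀ᶠ c : K in cofinite, A.coeff (p ^ 2) - c * B.coeff (p ^ 2) ≠ 0 := by
      refine (ev_eval_ne (p := C (A.coeff (p ^ 2)) - X * C (B.coeff (p ^ 2))) fun e => ?_).mono
        fun c hc => by simpa [mul_comm c] using hc
      have e0 := congrArg (coeff · 0) e
      have e1 := congrArg (coeff · 1) e
      simp only [coeff_sub, coeff_C_zero, coeff_X_mul_zero, sub_zero, coeff_zero, coeff_C_succ,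
        coeff_X_mul, zero_sub, neg_eq_zero] at e0 e1
      exact h2.top2.elim (fun h => h e0) fun h => h e1
    have a2 : ∀ᶠ c : K in cofinite, ∀ P : V.Point, c = A.eval (xc P) / B.eval (xc P) →
        xc (p • P) = A.eval (xc P) / B.eval (xc P) := by
      rw [eventually_cofinite] at h5 ⊢
      refine (h5.image fun P => A.eval (xc P) / B.eval (xc P)).subset fun c hc => ?_
      simp only [Set.mem_ofPred_eq, not_forall] at hc
      obtain ⟨P, e1, e2⟩ := hc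
      exact ⟨P, e2, e1.symm⟩
    filter_upwards [a1, a2] with c b1 b2
    have d1 : (A - C c * B).coeff (p ^ 2) ≠ 0 := by simpa using b1
    have d2 : (A - C c * B).natDegree = p ^ 2 := natDegree_eq_of_le_of_coeff_ne_zero
      ((natDegree_sub_le _ _).trans (max_le (h2.le 0) ((natDegree_C_mul_le _ _).trans (h2.le 1)))) d1
    have d0 : A - C c * B ≠ 0 := by rintro e; simp [e] at d1
    have rt : ∀ r ∈ (A - C c * B).roots, ∃ P : V.Point, P ≠ 0 ∧ xc P = r ∧ xc (p • P) = c :=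
      fun r hr => by
      have e := (mem_roots d0).1 hr
      simp only [IsRoot, eval_sub, eval_mul, eval_C] at e
      have hB : B.eval r ≠ 0 := fun h => (h2.fin2 r).elim (fun h' => h' (by simpa [h] using e))
        fun h' => h' h
      obtain ⟨y, hy⟩ := exists_eqn V r
      have e' : c = A.eval r / B.eval r := by rw [eq_div_iff hB]; linear_combination -e
      have n := (Affine.equation_iff_nonsingular_of_Δ_ne_zero hΔ).1 hy
      exact ⟨.some r y n, Affine.Point.some_ne_zero _, rfl, (b2 (.some r y n) e').trans e'.symm⟩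
    have sp := IsAlgClosed.splits (A - C c * B)
    obtain ⟨r, hr⟩ := Multiset.exists_mem_of_ne_zero (sp.roots_ne_zero (by omega))
    have e : (A - C c * B).roots = Multiset.replicate (p ^ 2) r :=
      Multiset.eq_replicate.2 ⟨by rw [← sp.natDegree_eq_card_roots, d2], fun r' hr' => by
        obtain ⟨P, e1, rfl, e2⟩ := rt r hr
        obtain ⟨Q, e3, rfl, e4⟩ := rt r' hr'
        exact xc_inj ht e3 e1 (e4.trans e2.symm)⟩
    refine ⟨(A - C c * B).leadingCoeff, r ^ p ^ 2, leadingCoeff_ne_zero.2 d0, fun x => ?_⟩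
    have := sp.eval_eq_prod_roots x
    rw [e, Multiset.map_replicate, Multiset.prod_replicate, sub_pow_char_pow] at this
    simpa using this
  obtain ⟨c₁, u₁, r₁, n₁, e₁⟩ := h6.exists
  obtain ⟨c₂, ⟨u₂, r₂, -, e₂⟩, n₂⟩ := (h6.and (eventually_cofinite_ne c₁)).exists
  have n₃ := sub_ne_zero.2 n₂
  refine ⟨u₁ + c₁ * ((u₁ - u₂) / (c₂ - c₁)), -u₁ * r₁ + c₁ * ((u₂ * r₂ - u₁ * r₁) / (c₂ - c₁)),
    (u₁ - u₂) / (c₂ - c₁), (u₂ * r₂ - u₁ * r₁) / (c₂ - c₁), ?_, ?_⟩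
  · by_contra hc
    push Not at hc
    rw [hc.2, mul_zero, add_zero] at hc
    exact n₁ hc.1
  · filter_upwards [h5, ev_eval_xc_ne V h3] with P a1 a2
    have b : (u₁ - u₂) / (c₂ - c₁) * xc P ^ p ^ 2 + (u₂ * r₂ - u₁ * r₁) / (c₂ - c₁) =
        B.eval (xc P) := by
      field_simp
      linear_combination e₂ (xc P) - e₁ (xc P)
    rw [b, a1, div_mul_cancel₀ _ a2]
    exact ⟨a2, by linear_combination e₁ (xc P) - c₁ * b⟩

theorem leg_a (l : K) : (leg l).a₁ = 0 ∧ (leg l).a₂ = -(1 + l) ∧ (leg l).a₃ = 0 ∧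
    (leg l).a₄ = l ∧ (leg l).a₆ = 0 := ⟨rfl, rfl, rfl, rfl, rfl⟩

theorem leg_sum {l : K} {P Q : (leg l).Point} (hP : P ≠ 0) (hQ : Q ≠ 0) (h : xc P ≠ xc Q) :
    xc (P + Q) * xc (P - Q) * (xc P - xc Q) ^ 2 = (xc P * xc Q - l) ^ 2 ∧
    (xc (P + Q) + xc (P - Q)) * (xc P - xc Q) ^ 2 = 2 * (xc P + xc Q) * (xc P * xc Q + l) -
      4 * (1 + l) * (xc P * xc Q) := by
  obtain ⟨-, -, h1, h2⟩ := sum_prod hP hQ h
  simp only [leg_a l, b₂, b₄, b₆, b₈] at h1 h2
  exact ⟨by linear_combination h1, by linear_combination h2⟩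

theorem leg_delta (h2 : p ≠ 2) {l : K} (l0 : l ≠ 0) (l1 : l ≠ 1) : (leg l).Δ ≠ 0 := by
  have h : (2 : K) ≠ 0 := fun e => by
    have := (CharP.cast_eq_zero_iff K p 2).1 (by exact_mod_cast e)
    exact h2 ((Nat.prime_dvd_prime_iff_eq hp.out Nat.prime_two).1 this)
  have : (leg l).Δ = 2 ^ 4 * l ^ 2 * (l - 1) ^ 2 := by
    simp only [leg, Δ, b₂, b₄, b₆, b₈]; ring
  rw [this]
  exact mul_ne_zero (mul_ne_zero (pow_ne_zero _ h) (pow_ne_zero _ l0))
    (pow_ne_zero _ (sub_ne_zero.2 l1))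

theorem affine {l : K} (hΔ : (leg l).Δ ≠ 0) (ht : ∀ P : (leg l).Point, p • P = 0 → P = 0)
    {α β γ δ : K} (h : ∀ᶠ P : (leg l).Point in cofinite, γ * xc P ^ p ^ 2 + δ ≠ 0 ∧
      xc (p • P) * (γ * xc P ^ p ^ 2 + δ) = α * xc P ^ p ^ 2 + β) : γ = 0 := by
  have hV : Sep (leg l) := sep_of_c4 (Or.inr hΔ)
  have := infinite_pt hV
  by_contra hγ
  have inj : Function.Injective fun P : (leg l).Point => p • P := fun P Q e =>
    sub_eq_zero.1 (ht _ (by rw [nsmul_sub]; exact sub_eq_zero.2 e))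
  have a1 := inj.tendsto_cofinite.eventually (ev_eval_xc_ne (leg l)
    (monic_X_pow_sub_C l two_ne_zero).ne_zero)
  have a2 := ev_eval_xc_ne (leg l) (p := expand K (p ^ 2) (C γ * (X ^ 2 - C (l ^ p ^ 2)) ^ 2 +
      C δ * (4 * X * (X ^ 2 + C (l ^ p ^ 2)) - 4 * (1 + C (l ^ p ^ 2)) * X ^ 2))) (by
    refine (expand_ne_zero (pow_pos hp.out.pos 2)).2 fun e => hγ ?_
    have : (C γ * (X ^ 2 - C (l ^ p ^ 2)) ^ 2 + C δ * (4 * X * (X ^ 2 + C (l ^ p ^ 2)) -
        4 * (1 + C (l ^ p ^ 2)) * X ^ 2)).coeff 4 = γ := by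
      generalize l ^ p ^ 2 = l'
      compute_degree!
    rw [← this, e, coeff_zero])
  obtain ⟨P, P0, ⟨b1, b2⟩, b3, b4⟩ := ((ev_ne_zero _).and (h.and (a1.and a2))).exists
  simp only [expand_eval, eval_add, eval_mul, eval_C, eval_sub, eval_pow, eval_X, eval_ofNat,
    eval_one] at b3 b4
  have E := poly_eq_zero_of_ev_xc hV (p := expand K (p ^ 2)
    ((C α ^ 2 * (C (xc P ^ p ^ 2) * X - C (l ^ p ^ 2)) ^ 2 + C α * C β *
      (2 * (C (xc P ^ p ^ 2) + X) * (C (xc P ^ p ^ 2) * X + C (l ^ p ^ 2)) -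
        4 * (1 + C (l ^ p ^ 2)) * (C (xc P ^ p ^ 2) * X)) + C β ^ 2 * (C (xc P ^ p ^ 2) - X) ^ 2) *
      (C (xc (p • P)) * (C γ * X + C δ) - (C α * X + C β)) ^ 2 -
    (C γ ^ 2 * (C (xc P ^ p ^ 2) * X - C (l ^ p ^ 2)) ^ 2 + C γ * C δ *
      (2 * (C (xc P ^ p ^ 2) + X) * (C (xc P ^ p ^ 2) * X + C (l ^ p ^ 2)) -
        4 * (1 + C (l ^ p ^ 2)) * (C (xc P ^ p ^ 2) * X)) + C δ ^ 2 * (C (xc P ^ p ^ 2) - X) ^ 2) *
      (C (xc (p • P)) * (C α * X + C β) - C l * (C γ * X + C δ)) ^ 2)) (by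
    filter_upwards [h, ev_add_left h P, ev_neg (ev_add_left h P), ev_ne_zero _,
      (tendsto_xc _).eventually (eventually_cofinite_ne (xc P))] with Q c1 c2 c3 Q0 c4
    obtain ⟨s1, s2⟩ := leg_sum P0 Q0 c4.symm
    obtain ⟨s3, -⟩ := leg_sum (fun e => P0 (ht P e)) (fun e => Q0 (ht Q e))
      fun e => c4.symm (xc_inj ht P0 Q0 e)
    rw [← nsmul_add, ← nsmul_sub] at s3
    rw [← sub_eq_add_neg] at c3
    replace s1 := congrArg (iterateFrobenius K p 2) s1
    replace s2 := congrArg (iterateFrobenius K p 2) s2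
    simp only [map_mul, map_add, map_sub, map_pow, map_ofNat, map_one] at s1 s2
    simp only [iterateFrobenius_def] at s1 s2
    simp only [expand_eval, eval_add, eval_mul, eval_C, eval_sub, eval_pow, eval_X, eval_ofNat,
      eval_one]
    rw [← s1, ← s2, ← c1.2]
    have c5 := c2.2
    have c6 := c3.2
    generalize xc (P + Q) ^ p ^ 2 = z₁, xc (P - Q) ^ p ^ 2 = z₂, xc P ^ p ^ 2 = z,
      xc Q ^ p ^ 2 = s, xc (p • (P + Q)) = X₁, xc (p • (P - Q)) = X₂, xc (p • P) = X₀,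
      xc (p • Q) = Y at s3 c5 c6
    have c7 : (α * z₁ + β) * (α * z₂ + β) = X₁ * X₂ * ((γ * z₁ + δ) * (γ * z₂ + δ)) := by
      rw [← c5, ← c6]; ring
    linear_combination ((z - s) ^ 2 * (γ * s + δ) ^ 2 * (X₀ - Y) ^ 2) * c7 +
      ((z - s) ^ 2 * (γ * s + δ) ^ 2 * ((γ * z₁ + δ) * (γ * z₂ + δ))) * s3)
  have E' := congrArg (eval (xc P)) E
  simp only [expand_eval, eval_add, eval_mul, eval_C, eval_sub, eval_pow, eval_X, eval_ofNat,
    eval_one, eval_zero] at E'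
  rw [← b2] at E'
  refine mul_ne_zero (mul_ne_zero hγ b4) (pow_ne_zero 2 (mul_ne_zero b3 b1)) ?_
  linear_combination -E'

theorem ss_fixed {m : ℕ} (hm : p = 2 * m + 1) {l : K} (l0 : l ≠ 0) (l1 : l ≠ 1)
    (h0 : ((X * (X - 1) * (X - C l)) ^ m).coeff (p - 1) = 0) : l ^ p ^ 2 = l := by
  have hΔ := leg_delta (p := p) (by omega) l0 l1
  have hV : Sep (leg l) := sep_of_c4 (Or.inr hΔ)
  have := infinite_pt hV
  have ht := no_torsion hm l0 l1 h0
  obtain ⟨α, β, γ, δ, h1, h⟩ := mob hΔ ht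
  obtain rfl := affine hΔ ht h
  have hα : α ≠ 0 := h1.resolve_right (by simp)
  simp only [zero_mul, zero_add] at h
  have hδ : δ ≠ 0 := h.exists.elim fun _ h => h.1
  have two : ∀ e : K, e * (e - 1) * (e - l) = 0 → ∃ T : (leg l).Point, T ≠ 0 ∧ xc T = e ∧
      yc T = 0 ∧ p • T = T := fun e he => by
    have n := (Affine.equation_iff_nonsingular_of_Δ_ne_zero (x := e) (y := 0) hΔ).1 (by
      rw [Affine.equation_iff]; simp only [leg]; linear_combination -he)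
    refine ⟨.some e 0 n, Affine.Point.some_ne_zero _, rfl, rfl, ?_⟩
    have e := Affine.Point.add_self_of_Y_eq (h₁ := n) (by simp [leg, Affine.negY])
    rw [hm, succ_nsmul, mul_nsmul, two_nsmul, e, nsmul_zero, zero_add]
  obtain ⟨T₀, a0, a1, a2, a3⟩ := two 0 (by ring)
  obtain ⟨T₁, b0, b1, b2, b3⟩ := two 1 (by ring)
  have t0 : ∀ Q : (leg l).Point, Q ≠ 0 → xc Q ≠ 0 → xc (T₀ + Q) * xc Q = l := fun Q q0 q1 => by
    obtain ⟨-, e⟩ := xc_add_mul a0 q0 (by rw [a1]; exact q1.symm)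
    have := eqn q0
    simp only [leg_a l, a1, a2] at e this
    exact mul_right_cancel₀ q1 (by linear_combination e + this)
  have t1 : ∀ Q : (leg l).Point, Q ≠ 0 → xc Q ≠ 1 → xc (T₁ + Q) * (xc Q - 1) = xc Q - l :=
    fun Q q0 q1 => by
    obtain ⟨-, e⟩ := xc_add_mul b0 q0 (by rw [b1]; exact q1.symm)
    have := eqn q0
    simp only [leg_a l, b1, b2] at e this
    exact mul_right_cancel₀ (sub_ne_zero.2 q1) (by linear_combination e + this)
  have E0 := poly_eq_zero_of_ev_xc hV (p := expand K (p ^ 2) (C (α * β) * X ^ 2 +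
      C (α ^ 2 * l ^ p ^ 2 + β ^ 2 - l * δ ^ 2) * X + C (α * β * l ^ p ^ 2))) (by
    filter_upwards [h, ev_add_left h T₀, ev_ne_zero _,
      (tendsto_xc _).eventually (eventually_cofinite_ne 0)] with Q c1 c2 q0 q1
    have s1 := congrArg (· ^ p ^ 2) (t0 Q q0 q1)
    have s2 := t0 (p • Q) (fun e => q0 (ht Q e)) fun e =>
      q1 (by rw [← a1]; exact xc_inj ht q0 a0 (by rw [e, a3, a1]))
    rw [← a3, ← nsmul_add] at s2
    simp only [mul_pow] at s1
    simp only [expand_eval, eval_add, eval_mul, eval_C, eval_pow, eval_X]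
    have c3 := c1.2
    have c4 := c2.2
    generalize xc (T₀ + Q) ^ p ^ 2 = z₁, xc Q ^ p ^ 2 = s, xc (p • (T₀ + Q)) = X₁,
      xc (p • Q) = Y, l ^ p ^ 2 = l' at s1 s2 c3 c4
    linear_combination (-α * (α * s + β)) * s1 + (δ ^ 2 * s) * s2 - (s * (α * s + β)) * c4 -
      (s * X₁ * δ) * c3)
  have E1 := poly_eq_zero_of_ev_xc hV (p := expand K (p ^ 2) (C (α * (α + β - δ)) * X ^ 2 +
      C ((α + β - δ) * (β - δ - α) + α ^ 2 * (1 - l ^ p ^ 2) - (1 - l) * δ ^ 2) * X +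
      C ((α * (1 - l ^ p ^ 2) - (α + β - δ)) * (β - δ) + (1 - l) * δ ^ 2))) (by
    filter_upwards [h, ev_add_left h T₁, ev_ne_zero _,
      (tendsto_xc _).eventually (eventually_cofinite_ne 1)] with Q c1 c2 q0 q1
    have s1 := congrArg (· ^ p ^ 2) (t1 Q q0 q1)
    have s2 := t1 (p • Q) (fun e => q0 (ht Q e)) fun e =>
      q1 (by rw [← b1]; exact xc_inj ht q0 b0 (by rw [e, b3, b1]))
    rw [← b3, ← nsmul_add] at s2
    simp only [mul_pow, sub_pow_char_pow, one_pow] at s1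
    simp only [expand_eval, eval_add, eval_mul, eval_C, eval_pow, eval_X]
    have c3 := c1.2
    have c4 := c2.2
    generalize xc (T₁ + Q) ^ p ^ 2 = z₁, xc Q ^ p ^ 2 = s, xc (p • (T₁ + Q)) = X₁,
      xc (p • Q) = Y, l ^ p ^ 2 = l' at s1 s2 c3 c4
    linear_combination (-α * (α * s + β - δ)) * s1 + (δ ^ 2 * (s - 1)) * s2 -
      ((s - 1) * (α * s + β - δ)) * c4 - ((s - 1) * (X₁ - 1) * δ) * c3)
  rw [expand_eq_zero (pow_pos hp.out.pos 2)] at E0 E1
  have f2 := congrArg (coeff · 2) E0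
  have f1 := congrArg (coeff · 1) E0
  have g2 := congrArg (coeff · 2) E1
  simp only [coeff_add, coeff_C_mul, coeff_X_pow, coeff_X, coeff_C_succ, coeff_zero] at f2 f1 g2
  norm_num at f2 f1 g2
  obtain rfl : β = 0 := f2.resolve_left hα
  obtain rfl : α = δ := by linear_combination g2.resolve_left hα
  exact mul_left_cancel₀ (pow_ne_zero 2 hα) (by linear_combination f1)

end Pool.Agent.Lib.MP_be0804_ag.NN
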