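import Pool.Agent.Lib.MP_be0804_ag.All

/-! The curve branched at `0, 1, ∞, -1, 2, 1 / 2` for `p ≡ 11` modulo `12`. -/

set_option autoImplicit false

open Polynomial

namespace Pool.Agent.Lib.MP_be0804_ag

variable {k : Type*} [Field k]

theorem Exact.add {G H : k[X]} (h : Exact G) (h' : Exact H) : Exact (G + H) := by
  obtain ⟨a, rfl⟩ := h
  obtain ⟨b, rfl⟩ := h'
  exact ⟨a + b, derivative_add⟩

theorem exact_mon {p : ℕ} [CharP k p] {w : k} (hw : w ^ 2 - 1 ≠ 0) {i j : ℕ}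
    (h : i + j + 2 = 3 * p) (hi : ¬ p ∣ i + 1) : Exact ((C w * X + 1) ^ i * (X + C w) ^ j) := by
  have h1 : ((i : k) + 1) * (w ^ 2 - 1) ≠ 0 := mul_ne_zero (by
    exact_mod_cast (CharP.cast_eq_zero_iff k p (i + 1)).not.2 hi) hw
  have h2 : (C (i : k) + C (j : k) + 2 : k[X]) = 0 := by
    have : ((i + j + 2 : ℕ) : k) = 0 := (CharP.cast_eq_zero_iff k p _).2 ⟨3, by omega⟩
    have := congrArg (C : k → k[X]) this
    simpa [map_ofNat] using this
  have h3 := congrArg (C : k → k[X]) (inv_mul_cancel₀ h1)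
  refine ⟨C (((i : k) + 1) * (w ^ 2 - 1))⁻¹ * ((C w * X + 1) ^ (i + 1) * (X + C w) ^ (j + 1)), ?_⟩
  simp only [derivative_mul, derivative_C, derivative_pow_succ, derivative_add, derivative_X,
    derivative_one, map_add, map_one]
  rw [map_mul, map_mul, map_add, map_sub, map_pow, map_one] at h3
  linear_combination ((C w * X + 1) ^ i * (X + C w) ^ j) * h3 +
    (C (((i : k) + 1) * (w ^ 2 - 1))⁻¹ * (C w * X + 1) ^ (i + 1) * (X + C w) ^ j) * h2

theorem exact_hex {n : ℕ} [CharP k (2 * n + 1)] (hn : n % 3 = 2) {w : k} (hw : w ^ 2 - 1 ≠ 0)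
    (s t : k) : Exact ((C s * (C w * X + 1) + C t * (X + C w)) *
      ((C w * X + 1) ^ 6 - (X + C w) ^ 6) ^ n) := by
  rw [sub_eq_add_neg, add_pow, Finset.mul_sum]
  refine Finset.sum_induction _ _ (fun _ _ => Exact.add) ⟨0, by simp⟩ fun i hi => ?_
  obtain ⟨j, rfl⟩ := Nat.exists_eq_add_of_le (Nat.lt_succ_iff.1 (Finset.mem_range.1 hi))
  have nd : ∀ a, a % 6 = 1 ∨ a % 6 = 2 → a < 3 * (2 * (i + j) + 1) → ¬ 2 * (i + j) + 1 ∣ a := by
    rintro a ha h ⟨c, rfl⟩
    have : c < 3 := by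
      rw [mul_comm 3] at h
      exact lt_of_mul_lt_mul_left h (Nat.zero_le _)
    interval_cases c <;> omega
  have e1 := (exact_mon hw (i := 6 * i + 1) (j := 6 * j) (by ring) (nd _ (by omega) (by omega))).C_mul
    (s * ((-1) ^ j * ((i + j).choose i : k)))
  have e2 := (exact_mon hw (i := 6 * i) (j := 6 * j + 1) (by ring) (nd _ (by omega) (by omega))).C_mul
    (t * ((-1) ^ j * ((i + j).choose i : k)))
  convert e1.add e2 using 1
  rw [Nat.add_sub_cancel_left, neg_pow]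
  simp only [map_mul, map_pow, map_neg, map_one, map_natCast, ← pow_mul]
  generalize (C w * X + 1 : k[X]) = u
  generalize (X + C w : k[X]) = v
  ring

theorem main_sup [IsAlgClosed k] (n : ℕ) [CharP k (2 * n + 1)] (hn : n % 6 = 5)
    (hp : (2 * n + 1).Prime) :
    (-1 : k) ≠ 2 ∧ (-1 : k) ≠ 2⁻¹ ∧ (2 : k) ≠ 2⁻¹ ∧
      ((-1 : k) ≠ 0 ∧ (-1 : k) ≠ 1 ∧ ((X * (X - 1) * (X - C (-1 : k))) ^ n).coeff (2 * n) = 0) ∧
      ((2 : k) ≠ 0 ∧ (2 : k) ≠ 1 ∧ ((X * (X - 1) * (X - C (2 : k))) ^ n).coeff (2 * n) = 0) ∧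
      ((2⁻¹ : k) ≠ 0 ∧ (2⁻¹ : k) ≠ 1 ∧ ((X * (X - 1) * (X - C (2⁻¹ : k))) ^ n).coeff (2 * n) = 0) ∧
      ∀ i j : ℕ, j < 2 → ((X * (X - 1) * (X - C (-1 : k)) * (X - C 2) * (X - C 2⁻¹)) ^ n).coeff
        ((i + 1) * (2 * n + 1) - (j + 1)) = 0 := by
  have h3 : (3 : k) ≠ 0 := by
    exact_mod_cast cast_ne_zero (k := k) (p := 2 * n + 1) (j := 3) (by omega) (by omega)
  have h2 : (2 : k) ≠ 0 := by
    exact_mod_cast cast_ne_zero (k := k) (p := 2 * n + 1) (j := 2) (by omega) (by omega)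
  have hi : (2 : k) * 2⁻¹ = 1 := mul_inv_cancel₀ h2
  have hi' : (2 : k[X]) * C 2⁻¹ = 1 := by
    simpa [map_ofNat] using congrArg (C : k → k[X]) hi
  have E : Exact ((X * (X - 1) * (X - C (-1 : k))) ^ n) := by
    rw [exact_iff_cubic (by compute_degree!),
      show (X * (X - 1) * (X - C (-1 : k))) ^ n = X ^ n * expand k 2 ((X - 1) ^ n) by
        simp only [map_neg, map_one, map_pow, map_sub, expand_X, ← mul_pow]
        exact congrArg (· ^ n) (by ring),
      two_mul, coeff_X_pow_mul, coeff_expand two_pos, if_neg (by omega)]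
  refine ⟨fun h => h3 (by linear_combination -h), fun h => h3 (by linear_combination -2 * h - hi),
    fun h => h3 (by linear_combination 2 * h + hi), ⟨by simp, fun h => h2 (by linear_combination -h),
    (exact_iff_cubic (by compute_degree!)).1 E⟩, ⟨h2, fun h => one_ne_zero (α := k)
    (by linear_combination h), (exact_iff_cubic (by compute_degree!)).1 ?_⟩, ⟨inv_ne_zero h2,
    fun h => one_ne_zero (α := k) (by linear_combination -2 * h + hi),
    (exact_iff_cubic (by compute_degree!)).1 ?_⟩, ?_⟩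
  · convert E.comp one_ne_zero (-1) using 1
    simp only [pow_comp, mul_comp, sub_comp, X_comp, one_comp, map_neg, map_one, neg_comp,
      map_ofNat]
    exact congrArg (· ^ n) (by ring)
  · convert (E.comp h2 (-1)).C_mul ((2⁻¹ ^ 3) ^ n) using 1
    simp only [pow_comp, mul_comp, sub_comp, X_comp, one_comp, map_neg, map_one, neg_comp,
      map_ofNat, map_pow, ← mul_pow]
    refine congrArg (· ^ n) ?_
    generalize (C 2⁻¹ : k[X]) = t at hi'
    linear_combination (X * (X - 1) * (-X * (4 * t ^ 2 + 2 * t + 1) + t * (2 * t + 1))) * hi'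
  · obtain ⟨w, hw⟩ : ∃ w : k, w ^ 2 + w + 1 = 0 := by
      obtain ⟨w, hw⟩ := IsAlgClosed.exists_root (X ^ 2 + X + 1 : k[X]) (by
        have : (X ^ 2 + X + 1 : k[X]).degree = 2 := by compute_degree!
        rw [this]; decide)
      exact ⟨w, by simpa using hw⟩
    have w1 : w ^ 2 - 1 ≠ 0 := fun h => h3 (by linear_combination (w - 1) * h - (w - 2) * hw)
    have w2 : 6 * (w ^ 2 - w) ≠ 0 := mul_ne_zero
      (fun h => mul_ne_zero h2 h3 (by linear_combination h))
      (fun h => h3 (by linear_combination (2 * w + 1) * h - (2 * w - 3) * hw))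
    have c := congrArg (C : k → k[X]) hw
    simp only [map_add, map_pow, map_one, map_zero] at c
    have F : (C w * X + 1) ^ 6 - (X + C w) ^ 6 = C (6 * (w ^ 2 - w)) *
        (X * (X - 1) * (X - C (-1 : k)) * (X - C 2) * (X - C 2⁻¹)) := by
      simp only [map_mul, map_sub, map_pow, map_neg, map_one, map_ofNat]
      generalize (C 2⁻¹ : k[X]) = t at hi'
      generalize (C w : k[X]) = W at c
      linear_combination (W - 1) * ((1 + W ^ 3) * (X ^ 6 - 1) + 6 * W ^ 2 * (X ^ 5 - X) +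
        15 * W * (X ^ 4 - X ^ 2)) * c + 3 * (W ^ 2 - W) * X * (X ^ 2 - 1) * (X - 2) * hi'
    intro i j hj
    have G : Exact (X ^ j * (X * (X - 1) * (X - C (-1 : k)) * (X - C 2) * (X - C 2⁻¹)) ^ n) := by
      have hu := mul_inv_cancel₀ (mul_ne_zero w1 (pow_ne_zero n w2))
      have hu' := congrArg (C : k → k[X]) hu
      rw [map_mul, map_mul, map_pow, map_sub, map_pow, map_one] at hu'
      generalize (X * (X - 1) * (X - C (-1 : k)) * (X - C 2) * (X - C 2⁻¹) : k[X]) = g at F ⊢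
      interval_cases j
      · convert (exact_hex (by omega) w1 (-1) w).C_mul
          ((w ^ 2 - 1) * (6 * (w ^ 2 - w)) ^ n)⁻¹ using 1
        rw [F, mul_pow (C _), map_neg, map_one]
        linear_combination -g ^ n * hu'
      · convert (exact_hex (by omega) w1 w (-1)).C_mul
          ((w ^ 2 - 1) * (6 * (w ^ 2 - w)) ^ n)⁻¹ using 1
        rw [F, mul_pow (C _), map_neg, map_one]
        linear_combination -X * g ^ n * hu'
    have := (exact_iff (2 * n + 1) _).1 G ((i + 1) * (2 * n + 1) - (j + 1) + j)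
      ⟨i + 1, by rw [mul_comm _ (i + 1), add_mul i]; omega⟩
    rwa [coeff_X_pow_mul] at this

end Pool.Agent.Lib.MP_be0804_ag
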