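import Pool.Agent.Lib.MP_be0804_ag.NCart

/-! Tails of polynomials. -/

set_option autoImplicit false

open Polynomial

namespace Pool.Agent.Lib.MP_be0804_ag.NN

variable {R : Type} [CommRing R]

/-- the quotient by `X ^ j` -/
noncomputable def tl (j : ℕ) (h : R[X]) : R[X] := h /ₘ X ^ j

theorem tl_spec (j : ℕ) (h : R[X]) : ∃ r : R[X], h = r + X ^ j * tl j h ∧ r.degree < j := by
  rcases subsingleton_or_nontrivial R with _ | _
  · exact ⟨0, Subsingleton.elim _ _, by simp⟩
  refine ⟨h %ₘ X ^ j, (modByMonic_add_div _ _).symm, ?_⟩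
  have := degree_modByMonic_lt h (monic_X_pow j)
  rwa [degree_X_pow] at this

theorem coeff_tl (j : ℕ) (h : R[X]) (i : ℕ) : (tl j h).coeff i = h.coeff (i + j) := by
  obtain ⟨r, h1, h2⟩ := tl_spec j h
  conv_rhs => rw [h1]
  rw [coeff_add, coeff_X_pow_mul, coeff_eq_zero_of_degree_lt
    (h2.trans_le (by exact_mod_cast Nat.le_add_left _ _)), zero_add]

theorem tl_unique {j : ℕ} {h r t : R[X]} (h1 : h = r + X ^ j * t) (h2 : r.degree < j) :
    tl j h = t := by
  ext i
  rw [coeff_tl, h1, coeff_add, coeff_X_pow_mul, coeff_eq_zero_of_degree_lt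
    (h2.trans_le (by exact_mod_cast Nat.le_add_left _ _)), zero_add]

theorem tl_map {S : Type} [CommRing S] (j : R →+* S) (i : ℕ) (h : R[X]) :
    (tl i h).map j = tl i (h.map j) := by
  ext k; simp [coeff_tl]

theorem natDegree_tl (j : ℕ) (h : R[X]) : (tl j h).natDegree = h.natDegree - j := by
  nontriviality R
  rw [tl, natDegree_divByMonic _ (monic_X_pow j), natDegree_X_pow]

theorem coeff_div_lin (h : R[X]) (u : R) (j : ℕ) :
    (h /ₘ (X - C u)).coeff j = (tl (j + 1) h).eval u := by
  have e : ∀ j, (tl (j + 1) h).eval u = h.coeff (j + 1) + u * (tl (j + 1 + 1) h).eval u := fun j => by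
    have : tl (j + 1) h = C (h.coeff (j + 1)) + X * tl (j + 1 + 1) h := by
      ext i
      rcases i with _ | i
      · simp [coeff_tl]
      · rw [coeff_add, coeff_X_mul, coeff_tl, coeff_tl, coeff_C_succ, zero_add]
        congr 1
        omega
    rw [this]; simp
  have z : ∀ j, h.natDegree ≤ j → (h /ₘ (X - C u)).coeff j = (tl (j + 1) h).eval u := fun j hj => by
    have : tl (j + 1) h = 0 := by
      ext i
      rw [coeff_tl, coeff_eq_zero_of_natDegree_lt (by omega), coeff_zero]
    rw [this, coeff_divByMonic_X_sub_C, Finset.Icc_eq_empty (by omega)]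
    simp
  by_cases hj : h.natDegree ≤ j
  · exact z j hj
  · refine Nat.decreasingInduction' (P := fun j => (h /ₘ (X - C u)).coeff j = (tl (j + 1) h).eval u)
      (fun n _ _ ih => ?_) (le_of_not_ge hj) (z _ le_rfl)
    rw [coeff_divByMonic_X_sub_C_rec, ih, ← e]

variable (p : ℕ) [hp : Fact p.Prime] [CharP R p]

theorem fr_lin (u : R) : fr p (X - C u) = X - C (u ^ p) := by rw [map_sub, fr_X, fr_C]

theorem car_lin_mul (h : R[X]) (u : R) : car p ((X - C u) ^ (p - 1) * h) =
    C (h.eval u) + (X - C (u ^ p)) * car p (h /ₘ (X - C u)) := by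
  have h0 := hp.out.ne_zero
  have e : (X - C u) ^ p = (X - C u) ^ (p - 1) * (X - C u) := by
    rw [← pow_succ, Nat.sub_add_cancel hp.out.pos]
  have h1 := modByMonic_add_div h (X - C u)
  rw [modByMonic_X_sub_C_eq_C_eval] at h1
  conv_lhs => rw [← h1]
  rw [mul_add, car_add h0, mul_comm, car_C_mul h0, ← mul_assoc, ← e, car_pow_mul, fr_lin,
    sub_eq_add_neg X (C u), ← C_neg, car_lin, mul_one]

theorem LL_add (f g h : R[X]) : LL f (g + h) = LL f g + LL f h := by
  simp only [LL, derivative_add]; ring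

theorem LL_const_mul (f h : R[X]) {g : R[X]} (hg : derivative g = 0) :
    LL f (g * h) = g * LL f h := by
  simp only [LL, derivative_mul, hg]; ring

theorem LL_map {S : Type} [CommRing S] (j : R →+* S) (f g : R[X]) :
    (LL f g).map j = LL (f.map j) (g.map j) := by simp [LL]

omit hp in
theorem LL_pow (f : R[X]) {m : ℕ} (hm : p ∣ 2 * m + 1) : LL f (f ^ m) = 0 := by
  have hz : ((2 * m + 1 : ℕ) : R) = 0 := (CharP.cast_eq_zero_iff R p _).2 hm
  have hz' := congrArg (C : R → R[X]) hz
  push_cast at hz'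
  simp only [map_add, map_mul, map_natCast, map_one, map_zero, map_ofNat] at hz'
  rcases m with _ | m
  · have : (1 : R[X]) = 0 := by simpa using hz'
    rw [← mul_one (LL _ _), this, mul_zero]
  · simp only [LL, derivative_pow_succ, map_add, map_natCast, map_one]
    push_cast at hz'
    linear_combination (derivative f * f ^ (m + 1)) * hz'

omit hp in
theorem derivative_pow_char (g : R[X]) {n : ℕ} (hn : p ∣ n) : derivative (g ^ n) = 0 := by
  rw [derivative_pow, (CharP.cast_eq_zero_iff R p _).2 hn]; simp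

/-- the tails of `h ^ (p + 1)` -/
theorem tl_pow (h : R[X]) (hd : h.natDegree < 3 * p) (h3 : 3 ≤ p) {j : ℕ} (hj : 1 ≤ j) :
    tl (j * p ^ 2) (h * h ^ p) = C (h.coeff (j * p - 1) ^ p) * tl p h +
      C (h.coeff (j * p - 2) ^ p) * tl (2 * p) h + h * tl (j * p) h ^ p := by
  nontriviality R
  obtain ⟨d, hd'⟩ : ∃ d, j * p = d + 3 := ⟨j * p - 3, by
    have : 1 * p ≤ j * p := Nat.mul_le_mul_right _ hj
    omega⟩
  obtain ⟨r0, e0, d0⟩ := tl_spec p h
  obtain ⟨r1, e1, d1⟩ := tl_spec (2 * p) h
  obtain ⟨r, e, dr⟩ := tl_spec (d + 1) h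
  have e2 : tl (d + 1) h = C (h.coeff (d + 1)) + C (h.coeff (d + 2)) * X + X ^ 2 * tl (d + 3) h := by
    ext i
    rcases i with _ | _ | i
    · simp [coeff_tl]
    · simp [coeff_tl, coeff_X_pow_mul', add_comm, add_left_comm]
    · rw [coeff_add, coeff_X_pow_mul, coeff_tl, coeff_tl]
      simp only [coeff_add, coeff_C_succ, coeff_mul_X, zero_add]
      congr 1
      omega
  have hq : j * p ^ 2 = (d + 3) * p := by rw [← hd']; ring
  rw [hq, hd', show d + 3 - 1 = d + 2 from rfl, show d + 3 - 2 = d + 1 from rfl]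
  refine tl_unique (r := h * r ^ p + C (h.coeff (d + 2) ^ p) * (X ^ ((d + 2) * p) * r0) +
    C (h.coeff (d + 1) ^ p) * (X ^ ((d + 1) * p) * r1)) ?_ ?_
  · have e3 : h ^ p = r ^ p + X ^ ((d + 1) * p) * (C (h.coeff (d + 1) ^ p) +
        C (h.coeff (d + 2) ^ p) * X ^ p + X ^ (2 * p) * tl (d + 3) h ^ p) := by
      conv_lhs => rw [e, e2]
      simp only [add_pow_char, mul_pow, ← pow_mul, map_pow]
    rw [e3]
    linear_combination (C (h.coeff (d + 2) ^ p) * X ^ ((d + 2) * p)) * e0 +
      (C (h.coeff (d + 1) ^ p) * X ^ ((d + 1) * p)) * e1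
  · have b : ∀ (c : R) (a b : ℕ) (u : R[X]), u.degree < b → a + b = (d + 3) * p →
        (C c * (X ^ a * u)).degree < (((d + 3) * p : ℕ) : WithBot ℕ) := fun c a b u hu hab => by
      rw [← smul_eq_C_mul]
      refine (degree_smul_le _ _).trans_lt ?_
      rw [mul_comm, (monic_X_pow a).degree_mul, degree_X_pow, ← hab, add_comm a]
      push_cast
      exact WithBot.add_lt_add_right (WithBot.natCast_ne_bot a) hu
    refine (degree_add_le _ _).trans_lt (max_lt ((degree_add_le _ _).trans_lt (max_lt ?_ ?_)) ?_)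
    · have : r.natDegree ≤ d := by
        rcases eq_or_ne r 0 with rfl | hr
        · simp
        · exact Nat.lt_succ_iff.1 ((natDegree_lt_iff_degree_lt hr).2 dr)
      refine degree_le_natDegree.trans_lt ?_
      have h4 : (h * r ^ p).natDegree ≤ h.natDegree + p * d :=
        natDegree_mul_le.trans (Nat.add_le_add_left (natDegree_pow_le_of_le p this) _)
      exact_mod_cast (by nlinarith : (h * r ^ p).natDegree < (d + 3) * p)
    · exact b _ _ _ _ d0 (by ring)
    · exact b _ _ _ _ d1 (by ring)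

end Pool.Agent.Lib.MP_be0804_ag.NN
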