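import Pool.Agent.Lib.MP_be0804_ag.NPts

/-! A Legendre curve with vanishing Hasse invariant has no point of order `p`. -/

set_option autoImplicit false
set_option linter.unusedSectionVars false

open Polynomial WeierstrassCurve

namespace Pool.Agent.Lib.MP_be0804_ag.NN

variable {K : Type} [Field K] {p : ℕ} [hp : Fact p.Prime] [CharP K p]

theorem dvd_of_LL {ι : Type} [Fintype ι] {e : ι → K} (he : Function.Injective e) {m : ℕ}
    (hm : p = 2 * m + 1) {f : K[X]} (hf : f = ∏ i, (X - C (e i))) (v : K[X]) (h : LL f v = 0) :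
    f ^ m ∣ v := by
  classical
  rcases eq_or_ne v 0 with rfl | hv
  · exact dvd_zero _
  rw [hf, ← Finset.prod_pow]
  refine Finset.prod_dvd_of_coprime (fun i _ j _ hij => (pairwise_coprime_X_sub_C he hij).pow)
    fun i _ => ?_
  obtain ⟨u, hu, hu0⟩ := exists_eq_pow_rootMultiplicity_mul_and_not_dvd v hv (e i)
  generalize v.rootMultiplicity (e i) = j at hu
  have hf' : f = (X - C (e i)) * ∏ l ∈ Finset.univ.erase i, (X - C (e l)) := by
    rw [hf, Finset.mul_prod_erase _ (fun l => X - C (e l)) (Finset.mem_univ i)]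
  have g0 : (∏ l ∈ Finset.univ.erase i, (X - C (e l))).eval (e i) ≠ 0 := by
    rw [eval_prod]
    exact Finset.prod_ne_zero_iff.2 fun l hl => by
      simpa [sub_eq_zero] using (he.ne (Finset.ne_of_mem_erase hl)).symm
  generalize ∏ l ∈ Finset.univ.erase i, (X - C (e l)) = g at hf' g0
  have d : (X - C (e i)) * derivative ((X - C (e i)) ^ j) = (j : K[X]) * (X - C (e i)) ^ j := by
    rcases j with _ | j
    · simp
    · rw [derivative_pow_succ, derivative_X_sub_C]
      simp only [map_add, map_natCast, map_one]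
      push_cast
      ring
  have h1 : (X - C (e i)) ^ j * ((2 * (j : K[X]) + 1) * g * u +
      (X - C (e i)) * (derivative g * u + 2 * g * derivative u)) = 0 := by
    rw [← h, hu, hf', LL, derivative_mul, derivative_mul, derivative_X_sub_C]
    linear_combination (-2 * g * u) * d
  have h2 := congrArg (eval (e i)) ((mul_eq_zero.1 h1).resolve_left
    (pow_ne_zero _ (X_sub_C_ne_zero _)))
  simp only [eval_add, eval_mul, eval_sub, eval_X, eval_C, sub_self, zero_mul, add_zero, eval_zero,
    eval_ofNat, eval_natCast, eval_one, mul_eq_zero] at h2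
  have h3 : ((2 * j + 1 : ℕ) : K) = 0 := by
    push_cast
    exact (h2.resolve_right fun e => hu0 (dvd_iff_isRoot.2 e)).resolve_right g0
  have := Nat.le_of_dvd (by omega) ((CharP.cast_eq_zero_iff K p _).1 h3)
  rw [hu]
  exact (pow_dvd_pow _ (by omega)).mul_right _

theorem no_function {m : ℕ} (hm : p = 2 * m + 1) {f : K[X]} (hf : f.Monic)
    (hd : f.natDegree = 3) (hs : ∀ v, LL f v = 0 → f ^ m ∣ v) (h0 : (f ^ m).coeff (p - 1) = 0)
    {a b : K[X]} {c x : K} (hc : c ≠ 0) (hN : a ^ 2 - b ^ 2 * f = C c * (X - C x) ^ p)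
    (hx : a.eval x ≠ 0 ∨ b.eval x ≠ 0) : False := by
  have p0 := hp.out.ne_zero
  have p2 := hp.out.two_le
  have hN0 : C c * (X - C x) ^ p ≠ 0 :=
    mul_ne_zero (C_ne_zero.2 hc) (pow_ne_zero _ (X_sub_C_ne_zero _))
  have hNd : (C c * (X - C x) ^ p).natDegree = p := by
    rw [natDegree_C_mul hc, natDegree_pow, natDegree_X_sub_C, mul_one]
  have hb : b ≠ 0 := by
    rintro rfl
    rw [← hN, zero_pow two_ne_zero, zero_mul, sub_zero, natDegree_pow] at hNd
    omega
  have d1 : (b ^ 2 * f).natDegree = 2 * b.natDegree + 3 := by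
    rw [natDegree_mul (pow_ne_zero _ hb) hf.ne_zero, natDegree_pow, hd]
  have d2 : 2 * a.natDegree < p ∧ 2 * b.natDegree + 3 ≤ p := by
    rw [← hN] at hNd
    rcases lt_trichotomy (a ^ 2).natDegree (b ^ 2 * f).natDegree with h | h | h
    · rw [natDegree_sub_eq_right_of_natDegree_lt h] at hNd
      rw [natDegree_pow] at h
      omega
    · rw [natDegree_pow] at h; omega
    · rw [natDegree_sub_eq_left_of_natDegree_lt h, natDegree_pow] at hNd
      omega
  have hN' : derivative (a ^ 2 - b ^ 2 * f) = 0 := by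
    rw [hN, derivative_mul, derivative_C, derivative_pow_char p _ dvd_rfl]; simp
  simp only [derivative_sub, derivative_mul, derivative_sq, map_ofNat] at hN'
  have e1 : ZZ f a b * a = LL f b * (C c * (X - C x) ^ p) := by
    rw [← hN, ZZ, LL]; linear_combination (-b * f) * hN'
  have e2 : ZZ f a b * b = 2 * derivative a * (C c * (X - C x) ^ p) := by
    rw [← hN, ZZ, LL]; linear_combination (-a) * hN'
  obtain ⟨w, hw⟩ : C c * (X - C x) ^ p ∣ ZZ f a b := by
    rw [C_mul_dvd hc]
    rcases hx with hx | hx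
    · exact (prime_X_sub_C x).pow_dvd_of_dvd_mul_right p (fun h => hx (dvd_iff_isRoot.1 h))
        ⟨LL f b * C c, by rw [e1]; ring⟩
    · exact (prime_X_sub_C x).pow_dvd_of_dvd_mul_right p (fun h => hx (dvd_iff_isRoot.1 h))
        ⟨2 * derivative a * C c, by rw [e2]; ring⟩
  have e3 : w * b = 2 * derivative a := mul_left_cancel₀ hN0 (by rw [← mul_assoc, ← hw, e2]; ring)
  have e4 : w * a = LL f b := mul_left_cancel₀ hN0 (by rw [← mul_assoc, ← hw, e1]; ring)
  have hw0 : w = 0 := by
    by_contra hw0
    have d3 : w.natDegree = 0 := by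
      have h2 : (2 : K[X]) = C 2 := rfl
      have a0 : derivative a ≠ 0 := fun h => mul_ne_zero hw0 hb (by rw [e3, h, mul_zero])
      have a1 : a ≠ 0 := by rintro rfl; simp at a0
      have a2 := natDegree_derivative_lt (p := a) (fun h => a0 (derivative_of_natDegree_zero h))
      have a3 : w.natDegree + b.natDegree ≤ (derivative a).natDegree := by
        rw [← natDegree_mul hw0 hb, e3, h2]; exact natDegree_C_mul_le _ _
      have a4 : w.natDegree + a.natDegree ≤ b.natDegree + 2 := by
        rw [← natDegree_mul hw0 a1, e4]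
        have := natDegree_derivative_le f
        refine (natDegree_add_le _ _).trans (max_le (natDegree_mul_le.trans (by omega)) ?_)
        rcases Nat.eq_zero_or_pos b.natDegree with h | h
        · rw [derivative_of_natDegree_zero h]; simp
        · have := natDegree_derivative_le b
          have := natDegree_C_mul_le 2 f
          rw [h2]
          exact natDegree_mul_le.trans (by omega)
      omega
    obtain ⟨t, rfl⟩ := natDegree_eq_zero.1 d3
    have h1 := car_hyp p hm hf.ne_zero a b
    rw [hN, hw, show (C c * (X - C x) ^ p) ^ (p - 1) * (f ^ m * (C c * (X - C x) ^ p * C t)) =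
      ((C c * (X - C x) ^ p) ^ (p - 1) * (C c * (X - C x) ^ p)) * (C t * f ^ m) by ring, ← pow_succ,
      Nat.sub_add_cancel hp.out.pos, car_pow_mul, map_mul (fr p) _ (C t), car_C_mul p0, fr_C] at h1
    have h2 := congrArg (coeff · 0) (mul_left_cancel₀ (map_ne_zero hN0) h1)
    simp only [coeff_C_mul, coeff_car p0, zero_mul, zero_add, h0, mul_zero, coeff_C_zero] at h2
    exact hw0 (by rw [pow_eq_zero_iff p0 |>.1 h2.symm, map_zero])
  rw [hw0, zero_mul] at e4
  have := natDegree_le_of_dvd (hs b e4.symm) hb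
  rw [natDegree_pow, hd] at this
  omega

/-- the Legendre curve -/
def leg (l : K) : Affine K := ⟨0, -(1 + l), 0, l, 0⟩

theorem no_torsion [DecidableEq K] {m : ℕ} (hm : p = 2 * m + 1) {l : K} (l0 : l ≠ 0) (l1 : l ≠ 1)
    (h0 : ((X * (X - 1) * (X - C l)) ^ m).coeff (p - 1) = 0) (P : (leg l).Point) (hP : p • P = 0) :
    P = 0 := by
  have p0 := hp.out.ne_zero
  obtain ⟨f, hf⟩ : ∃ f : K[X], f = X * (X - 1) * (X - C l) := ⟨_, rfl⟩
  rw [← hf] at h0
  have hf' : f = ∏ i, (X - C (![0, 1, l] i)) := by simp [hf, Fin.prod_univ_three]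
  have mo : f.Monic := hf' ▸ monic_prod_of_monic _ _ fun i _ => monic_X_sub_C _
  have de : f.natDegree = 3 := by
    rw [hf', natDegree_prod_of_monic _ _ fun i _ => monic_X_sub_C _]; simp
  have hs := dvd_of_LL (e := ![0, 1, l]) (by
    intro i j h
    fin_cases i <;> fin_cases j <;> simp [l0, l1, l0.symm, l1.symm] at h ⊢) hm hf'
  rcases P with _ | ⟨x, y, h⟩
  · rfl
  exfalso
  have hneg : (leg l).negY x y = -y := by simp [leg, Affine.negY]
  have hy : y ≠ 0 := by
    rintro rfl
    have e := Affine.Point.add_self_of_Y_eq (h₁ := h) (by rw [hneg, neg_zero])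
    rw [hm, succ_nsmul, mul_nsmul, two_nsmul, e, nsmul_zero, zero_add] at hP
    exact Affine.Point.some_ne_zero _ hP
  have h2 : (2 : K) ≠ 0 := fun e => by
    have := (CharP.cast_eq_zero_iff K p 2).1 (by exact_mod_cast e)
    have := Nat.le_of_dvd two_pos this
    have := hp.out.two_le
    omega
  have gen : ∀ {y : K} (h : (leg l).Nonsingular x y), p • Affine.Point.some x y h = 0 →
      ∃ g, Affine.CoordinateRing.XYIdeal (leg l) x (C y) ^ p = Ideal.span {g} := fun {y} h hP => by
    have e := congrArg Affine.Point.toClass hP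
    rw [map_nsmul, map_zero, Affine.Point.toClass_some] at e
    have e' : ClassGroup.mk (leg l).FunctionField (Affine.CoordinateRing.XYIdeal' h ^ p) = 1 := by
      rw [map_pow]; exact e
    obtain ⟨g, -, hg⟩ := (ClassGroup.mk_eq_one_of_coe_ideal (I' :=
      Affine.CoordinateRing.XYIdeal (leg l) x (C y) ^ p) (by
        rw [Units.val_pow_eq_pow_val, Affine.CoordinateRing.XYIdeal'_eq,
          FractionalIdeal.coeIdeal_pow])).1 e'
    exact ⟨g, hg⟩
  obtain ⟨g, hg⟩ := gen h hP
  obtain ⟨g', hg'⟩ := gen ((Affine.nonsingular_neg ..).2 h) (by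
    rw [← Affine.Point.neg_some h, neg_nsmul, hP, neg_zero])
  have e := congrArg (· ^ p) (Affine.CoordinateRing.XYIdeal_neg_mul h)
  simp only [mul_pow, hg, hg', Affine.CoordinateRing.XIdeal, Ideal.span_singleton_pow,
    Ideal.span_singleton_mul_span_singleton] at e
  obtain ⟨u, hu⟩ := Ideal.mem_span_singleton.1 (e.ge (Ideal.mem_span_singleton_self _))
  obtain ⟨v, hv⟩ := Ideal.mem_span_singleton.1 (e.le (Ideal.mem_span_singleton_self _))
  have mem : ∀ y : K, Affine.CoordinateRing.YClass (leg l) (C y) ^ p ∈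
      Affine.CoordinateRing.XYIdeal (leg l) x (C y) ^ p := fun y =>
    Ideal.pow_mem_pow (Ideal.subset_span (by simp)) p
  obtain ⟨a, ha⟩ := Ideal.mem_span_singleton.1 (hg.le (mem _))
  obtain ⟨b, hb⟩ := Ideal.mem_span_singleton.1 (hg'.le (mem _))
  let j : (leg l).CoordinateRing →+* OO f :=
    AdjoinRoot.lift (algebraMap K[X] (OO f)) (ty f) (by
      have : ty f ^ 2 = algebraMap K[X] (OO f) f := by rw [ty_sq, aeval_sx]; rfl
      simp only [Affine.polynomial, eval₂_sub, eval₂_pow, eval₂_X, eval₂_C,
        this, leg, map_zero, zero_mul, add_zero, sub_eq_zero]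
      congr 1
      rw [hf]
      simp only [map_neg, map_add, map_one]
      ring)
  have jX : j (Affine.CoordinateRing.XClass (leg l) x) = algebraMap K[X] (OO f) (X - C x) := by
    simp only [j, Affine.CoordinateRing.XClass, AdjoinRoot.lift_mk, eval₂_C]
  have jY : ∀ y : K, j (Affine.CoordinateRing.YClass (leg l) (C y)) =
      ty f - algebraMap K[X] (OO f) (C y) := fun y => by
    simp only [j, Affine.CoordinateRing.YClass, AdjoinRoot.lift_mk, eval₂_C, eval₂_sub, eval₂_X]
  replace hu := congrArg j hu
  replace hv := congrArg j hv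
  replace ha := congrArg j ha
  replace hb := congrArg j hb
  simp only [map_mul, map_pow, jX, jY, hneg] at hu hv ha hb
  generalize j g = G, j g' = G', j u = U, j v = V, j a = A, j b = B at hu hv ha hb
  have hxy : y ^ 2 = aeval x f := by
    have := (Affine.equation_iff ..).1 h.1
    simp only [leg] at this
    rw [hf]
    simp only [map_mul, map_sub, aeval_X, map_one, aeval_C, Algebra.algebraMap_self, RingHom.id_apply]
    linear_combination this
  have hxy' : (-y) ^ 2 = aeval x f := by rw [neg_sq, hxy]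
  have pa : ∀ (y : K) (h : y ^ 2 = aeval x f) (r : K[X]),
      pt x y h (algebraMap K[X] (OO f) r) = r.eval x := fun y h r => by simp [pt_apply]
  have pb : ∀ (y : K) (h : y ^ 2 = aeval x f), pt x y h (ty f) = y := fun y h => by
    simp [pt_apply, ty]
  have n1 : pt x (-y) hxy' G ≠ 0 := fun e => by
    have := congrArg (pt x (-y) hxy') ha
    rw [map_mul, e, zero_mul, map_pow, map_sub, pa, pb, pow_eq_zero_iff p0, eval_C] at this
    exact mul_ne_zero h2 hy (by linear_combination -this)
  have n2 : pt x y hxy G' ≠ 0 := fun e => by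
    have := congrArg (pt x y hxy) hb
    rw [map_mul, e, zero_mul, map_pow, map_sub, pa, pb, pow_eq_zero_iff p0, eval_C] at this
    exact mul_ne_zero h2 hy (by linear_combination this)
  have n3 : pt x y hxy (star G) = pt x (-y) hxy' G := by simp [pt_apply]
  have nd : G.norm ∣ (X - C x) ^ (2 * p) := by
    have := congrArg QuadraticAlgebra.norm hu
    rw [map_pow, QuadraticAlgebra.norm_algebraMap, ← pow_mul, map_mul, map_mul] at this
    exact ⟨G'.norm * U.norm, by rw [this]; ring⟩
  obtain ⟨i, -, w, hw⟩ := (dvd_prime_pow (prime_X_sub_C x) _).1 nd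
  obtain ⟨c, hc0, hc⟩ := isUnit_iff.1 w⁻¹.isUnit
  have hN : G.norm = C c * (X - C x) ^ i := by
    rw [hc, ← hw, mul_comm, mul_assoc, Units.mul_inv, mul_one]
  have hS := QuadraticAlgebra.algebraMap_norm_eq_mul_star G
  rw [hN, map_mul, map_pow] at hS
  have canc : ∀ (n : ℕ) (s t : OO f), algebraMap K[X] (OO f) (X - C x) ^ n * s =
      algebraMap K[X] (OO f) (X - C x) ^ n * t → s = t := fun n s t h => by
    rw [← map_pow, ← Algebra.smul_def, ← Algebra.smul_def] at h
    exact smul_right_injective _ (pow_ne_zero _ (X_sub_C_ne_zero x)) h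
  have hi : i = p := by
    rcases lt_trichotomy i p with h | h | h
    · obtain ⟨d, hd⟩ := Nat.exists_eq_add_of_lt h
      have := canc i (algebraMap K[X] (OO f) (C c) * G')
        (algebraMap K[X] (OO f) (X - C x) ^ (d + 1) * (V * star G)) (by
          rw [hd] at hv
          linear_combination G' * hS + star G * hv)
      have := congrArg (pt x y hxy) this
      simp only [map_mul, map_pow, pa, eval_sub, eval_X, eval_C, sub_self, zero_pow d.succ_ne_zero,
        zero_mul] at this
      exact absurd this (mul_ne_zero hc0.ne_zero n2)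
    · exact h
    · obtain ⟨d, hd⟩ := Nat.exists_eq_add_of_lt h
      have := canc p (star G) (algebraMap K[X] (OO f) (X - C x) ^ (d + 1) *
        (algebraMap K[X] (OO f) (C c) * G' * U)) (by
          rw [hd] at hS
          linear_combination star G * hu - G' * U * hS)
      have := congrArg (pt x y hxy) this
      simp only [map_mul, map_pow, pa, eval_sub, eval_X, eval_C, sub_self, zero_pow d.succ_ne_zero,
        zero_mul, n3] at this
      exact absurd this n1
  refine no_function hm mo de hs h0 (a := G.re) (b := G.im) hc0.ne_zero (x := x) ?_ ?_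
  · rw [← hi, ← hN, QuadraticAlgebra.norm_def]; ring
  · by_contra hc
    push Not at hc
    exact n1 (by simp [pt_apply, hc.1, hc.2])

end Pool.Agent.Lib.MP_be0804_ag.NN
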