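import Pool.Agent.Lib.MP_be0804_ag.PPull

/-! Supersingularity of curves with complex multiplication of discriminant `-12` and `-60`. -/

set_option autoImplicit false

open Polynomial

namespace Pool.Agent.Lib.MP_be0804_ag.PP

variable {k : Type} [Field k] [IsAlgClosed k] {p : ℕ} [hp : Fact p.Prime] [CharP k p]

omit [IsAlgClosed k] hp in
theorem nat_ne {j : ℕ} (h : ¬ p ∣ j) : (j : k) ≠ 0 := (CharP.cast_eq_zero_iff k p j).not.2 h

omit [IsAlgClosed k] hp in
theorem thirty (h7 : 7 ≤ p) : (2 : k) ≠ 0 ∧ (3 : k) ≠ 0 ∧ (5 : k) ≠ 0 :=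
  ⟨by exact_mod_cast nat_ne (k := k) (j := 2) fun h => by have := Nat.le_of_dvd (by omega) h; omega,
   by exact_mod_cast nat_ne (k := k) (j := 3) fun h => by have := Nat.le_of_dvd (by omega) h; omega,
   by exact_mod_cast nat_ne (k := k) (j := 5) fun h => by have := Nat.le_of_dvd (by omega) h; omega⟩

omit [IsAlgClosed k] in
theorem two_pow_p : (2 : k) ^ p = 2 := by
  have := add_pow_char (1 : k) 1 p
  rwa [one_pow, one_add_one_eq_two] at this

omit hp [CharP k p] in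
theorem exists_rt (f : k[X]) (d : ℕ) (h : f.natDegree = d + 1) : ∃ x, f.eval x = 0 :=
  IsAlgClosed.exists_root f (by
    rw [degree_eq_natDegree (by rintro rfl; simp at h), h]; exact_mod_cast Nat.succ_ne_zero d)

theorem frob_c (h7 : 7 ≤ p) (h3 : p % 3 = 2) {c : k} (hc : c ^ 2 = -3) : c ^ p = -c := by
  obtain ⟨w, hw⟩ := exists_rt (X ^ 2 + X + 1 : k[X]) 1 (by compute_degree!)
  simp only [eval_add, eval_pow, eval_X, eval_one] at hw
  have w3 : w ^ 3 = 1 := by linear_combination (w - 1) * hw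
  have wp : w ^ p = w ^ 2 := by
    rw [← Nat.div_add_mod p 3, pow_add, pow_mul, w3, one_pow, one_mul, h3]
  have e : (2 * w + 1) ^ p = -(2 * w + 1) := by
    rw [add_pow_char, mul_pow, two_pow_p, wp, one_pow]; linear_combination 2 * hw
  have : (c - (2 * w + 1)) * (c + (2 * w + 1)) = 0 := by linear_combination hc - 4 * hw
  rcases mul_eq_zero.1 this with h | h
  · rw [sub_eq_zero.1 h, e]
  · rw [eq_neg_of_add_eq_zero_left h, (hp.out.odd_of_ne_two (by omega)).neg_pow, e]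

theorem frob_t (h7 : 7 ≤ p) (h5 : p % 5 = 1 ∨ p % 5 = 4) {t : k} (ht : t ^ 2 = 5) : t ^ p = t := by
  obtain ⟨w, hw⟩ := exists_rt (X ^ 4 + X ^ 3 + X ^ 2 + X + 1 : k[X]) 3 (by compute_degree!)
  simp only [eval_add, eval_pow, eval_X, eval_one] at hw
  have w5 : w ^ 5 = 1 := by linear_combination (w - 1) * hw
  have wp : w ^ p = w ^ (p % 5) := by
    conv_lhs => rw [← Nat.div_add_mod p 5, pow_add, pow_mul, w5, one_pow, one_mul]
  have e : (1 + 2 * w + 2 * w ^ 4) ^ p = 1 + 2 * w + 2 * w ^ 4 := by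
    rw [add_pow_char, add_pow_char, mul_pow, mul_pow, two_pow_p, pow_right_comm, wp, one_pow]
    rcases h5 with h | h <;> rw [h]
    · ring
    · linear_combination (2 * w * (w ^ 10 + w ^ 5 + 1)) * w5
  have : (t - (1 + 2 * w + 2 * w ^ 4)) * (t + (1 + 2 * w + 2 * w ^ 4)) = 0 := by
    linear_combination ht - 4 * hw - (4 * w ^ 3 + 8) * w5
  rcases mul_eq_zero.1 this with h | h
  · rw [sub_eq_zero.1 h, e]
  · rw [eq_neg_of_add_eq_zero_left h, (hp.out.odd_of_ne_two (by omega)).neg_pow, e]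

theorem cm_step {n : ℕ} (hn : p = 2 * n + 1) (h7 : 7 ≤ p) {r c : k} (hr : r ^ 2 + 7 * r + 11 = 0)
    (hc : c ^ 2 = -3) : HH n (-12 * r) 768 0 =
      (-5 - r + c * (13 + 3 * r)) ^ n * HH n (-6 * (-7 - r)) 192 0 := by
  obtain ⟨h2, h3, h5⟩ := thirty (k := k) h7
  have h0 : -5 - r + c * (13 + 3 * r) ≠ 0 := fun h => by
    have : (2 : k) ^ 4 = 0 := by
      linear_combination ((-5 - r - c * (13 + 3 * r)) * (-7 - 3 * r)) * h +
        ((7 + 3 * r) * (-9 * c ^ 2 + 1) + 144) * hr + (7 + 3 * r) * (-15 * r - 70) * hc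
    exact h2 (pow_eq_zero_iff (by norm_num) |>.1 this)
  rw [aff hn (α := 1) (β := 6 * r + 2 * c * (3 * r + 14)) (a' := 6 * r + 6 * c * (3 * r + 14))
    (b' := 4 * c * (3 * r + 14) * (6 * r + 2 * c * (3 * r + 14))) (c' := 0) one_ne_zero (by ring)
    (by linear_combination (36 * c ^ 2 - 36) * hr + (84 * r + 388) * hc)
    (by linear_combination (216 * r * c ^ 3 + 216 * r * c ^ 2 - 216 * r * c - 216 * r +
      1512 * c ^ 3 + 504 * c ^ 2 + 504 * c + 1512) * hr +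
      (1152 * r * c - 1200 * r + 5320 * c - 5544) * hc), one_pow, one_mul, iso hn rfl rfl]
  exact aff hn (β := -48 - 6 * r + c * (172 + 38 * r)) h0
    (by linear_combination (-18 * c + 6) * hr)
    (by linear_combination (-96 * c ^ 2 - 768 * c + 96) * hr + (96 * r + 352) * hc)
    (by linear_combination (4256 * r * c ^ 3 - 29856 * r * c ^ 2 + 10080 * r * c - 864 * r +
      21088 * c ^ 3 - 137760 * c ^ 2 + 67104 * c - 7776) * hr +
      (4608 * r * c - 1728 * r + 21216 * c - 8352) * hc)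

theorem cm_sixty {n : ℕ} (hn : p = 2 * n + 1) (h7 : 7 ≤ p) (h3 : p % 3 = 2)
    (h5 : p % 5 = 1 ∨ p % 5 = 4) {r : k} (hr : r ^ 2 + 7 * r + 11 = 0) :
    HH n (6 * r) (9 * r ^ 2 - 192) 0 = 0 := by
  obtain ⟨n2, n3, n5⟩ := thirty (k := k) h7
  obtain ⟨c, hc⟩ := IsAlgClosed.exists_pow_nat_eq (-3 : k) two_pos
  rw [iso hn (a' := -12 * r) (b' := 768) (by ring) (by ring)]
  by_contra h0
  have e1 := cm_step hn h7 hr hc
  have e2 := cm_step hn h7 hr (c := -c) (by rw [neg_sq, hc])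
  have e3 : HH n (-6 * (-7 - r)) 192 0 ≠ 0 := fun h => h0 (by rw [e1, h, mul_zero])
  have e4 : (-5 - r + -c * (13 + 3 * r)) ^ n ≠ 0 := fun h => h0 (by rw [e2, h, zero_mul])
  have e5 := mul_right_cancel₀ e3 (e1.symm.trans e2)
  have e6 : (2 ^ 2) ^ 2 * (-5 - r + c * (13 + 3 * r)) =
      (1 - c * (2 * r + 7)) ^ 2 * (-5 - r + -c * (13 + 3 * r)) := by
    linear_combination (12 * r * c ^ 3 + 4 * r * c ^ 2 + 52 * c ^ 3 + 8 * c ^ 2 - 4 * c) * hr +
      (15 * r * c - 5 * r + 65 * c - 25) * hc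
  have e7 := congrArg (· ^ n) e6
  simp only [mul_pow, e5] at e7
  have e8 := mul_right_cancel₀ e4 e7
  have e9 : ((2 : k) ^ 2) ^ p = 2 ^ 2 := by rw [pow_right_comm, two_pow_p]
  have e10 : (1 - c * (2 * r + 7)) ^ p = 1 + c * (2 * r + 7) := by
    rw [sub_pow_char, mul_pow, frob_c h7 h3 hc, frob_t h7 h5 (t := 2 * r + 7) (by linear_combination 4 * hr), one_pow]
    ring
  rw [hn, pow_succ, pow_mul] at e9 e10
  rw [← e8, (mul_eq_right₀ (pow_ne_zero 2 n2)).1 e9] at e10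
  have : (2 : k) ^ 2 * 3 * 5 = 0 := by
    linear_combination (2 * c * (2 * r + 7)) * e10 + 16 * c ^ 2 * hr + 20 * hc
  exact mul_ne_zero (mul_ne_zero (pow_ne_zero 2 n2) n3) n5 this

theorem cm_twelve {n : ℕ} (hn : p = 2 * n + 1) (h3 : p % 3 = 2) {a b β : k} (ha : -2 * a = 3 * β)
    (hb : a ^ 2 - 4 * b = 3 * β ^ 2) : HH n a b 0 = 0 := by
  have := aff hn (α := 1) (β := β) (a := 0) (b := 0) (c := -β ^ 3) (a' := 3 * β) (b' := 3 * β ^ 2)
    (c' := 0) one_ne_zero (by ring) (by ring) (by ring)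
  rw [j_zero (by omega), one_pow, one_mul] at this
  rw [iso hn ha.symm hb.symm, ← this]

/-- the supersingular values -/
def SS (n : ℕ) (l : k) : Prop := l ≠ 0 ∧ l ≠ 1 ∧ HH n (-(1 + l)) l 0 = 0

theorem SS.one_sub {n : ℕ} (hn : p = 2 * n + 1) {l : k} (h : SS n l) : SS n (1 - l) := by
  refine ⟨sub_ne_zero.2 h.2.1.symm, fun e => h.1 (by linear_combination -e), ?_⟩
  rw [aff hn (α := -1) (β := 1) (a' := -(1 + l)) (b' := l) (c' := 0) (by simp) (by ring) (by ring)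
    (by ring), h.2.2, mul_zero]

theorem SS.inv {n : ℕ} (hn : p = 2 * n + 1) {l m : k} (h : SS n l) (hm : l * m = 1) : SS n m := by
  have m0 := right_ne_zero_of_mul_eq_one hm
  refine ⟨m0, fun e => h.2.1 (by linear_combination hm - l * e), ?_⟩
  rw [aff hn (α := m) (β := 0) (a' := -(1 + l)) (b' := l) (c' := 0) m0 (by linear_combination hm)
    (by linear_combination -m * hm) (by ring), h.2.2, mul_zero]

theorem ss_of {n : ℕ} (hn : p = 2 * n + 1) (h7 : 7 ≤ p) {g θ r : k} (hg : 3 * g ^ 2 = 64)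
    (hθ : 2 * g * θ = 1) (hr : 3 * r ^ 2 ≠ 64) (h : HH n (6 * r) (9 * r ^ 2 - 192) 0 = 0) :
    SS n (θ * (g + r)) := by
  obtain ⟨n2, n3, n5⟩ := thirty (k := k) h7
  have g0 : 6 * g ≠ 0 := fun e => n3 (by linear_combination θ * e - 3 * hθ)
  refine ⟨fun e => hr (by grind), fun e => hr (by grind), ?_⟩
  rw [aff hn (α := 6 * g) (β := -3 * (r + g)) (a' := -(1 + θ * (g + r))) (b' := θ * (g + r))
    (c' := 0) g0 (by grind) (by grind) (by grind)] at h
  exact (mul_eq_zero.1 h).resolve_left (pow_ne_zero _ g0)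

end Pool.Agent.Lib.MP_be0804_ag.PP
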