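import Pool.Agent.Lib.MP_be0804_ag.POrd

/-! Two triples of values with complex multiplication and their Cartier-Manin matrices. -/

set_option autoImplicit false

open Polynomial

namespace Pool.Agent.Lib.MP_be0804_ag.PP

open NN

variable {k : Type} [Field k]

/-- the Cartier-Manin matrix -/
noncomputable def CM (p n : ℕ) (f : k[X]) : Matrix (Fin 2) (Fin 2) k :=
  Matrix.of fun i j => (f ^ n).coeff ((i.val + 1) * p - (j.val + 1))

variable [IsAlgClosed k] {p : ℕ} [hp : Fact p.Prime] [CharP k p]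

theorem eig2 {n : ℕ} (hn : p = 2 * n + 1) {N A f S : k[X]} {a b c κ v ρ : k} (hS : S ≠ 0)
    (hκ : κ ≠ 0) (hv : v ≠ 0)
    (hG : N ^ 3 * A + C a * N ^ 2 * A ^ 2 + C b * N * A ^ 3 + C c * A ^ 4 = C κ * f * S ^ 2)
    (hW : derivative N * A - N * derivative A = S * (C v * (X - C ρ))) :
    ∃ m : k, (m = 0 ↔ HH n a b c = 0) ∧ CM p n f 0 1 - CM p n f 0 0 * ρ = -m * ρ ^ p ∧
      CM p n f 1 1 - CM p n f 1 0 * ρ = m := by
  have h := eig hn hS hG hW
  have h0 := hp.out.ne_zero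
  have h2 := hp.out.two_le
  have hu : κ ^ n * v ≠ 0 := mul_ne_zero (pow_ne_zero _ hκ) hv
  rw [mul_left_comm, car_C_mul h0, map_mul (fr p), map_sub, fr_C, fr_X, fr_C] at h
  have e : ∀ i, (car p (f ^ n * (X - C ρ))).coeff i =
      (f ^ n).coeff ((i + 1) * p - (1 + 1)) - (f ^ n).coeff ((i + 1) * p - (0 + 1)) * ρ := by
    intro i
    rw [coeff_car h0, mul_sub, coeff_sub, coeff_mul_C, add_mul i,
      show i * p + (p - 1) = i * p + 1 * p - (1 + 1) + 1 by omega, coeff_mul_X]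
    congr 3
    omega
  have e0 := congrArg (·.coeff 0) h
  have e1 := congrArg (·.coeff 1) h
  simp only [coeff_C_mul, e, coeff_sub, coeff_X_zero, coeff_C_zero, coeff_X_one, coeff_C_succ] at e0 e1
  refine ⟨HH n a b c * v ^ p / (κ ^ n * v), by simp [hκ, hv], mul_left_cancel₀ hu ?_,
    mul_left_cancel₀ hu ?_⟩
  · simp only [CM, Matrix.of_apply, Fin.val_zero, Fin.val_one]
    field_simp
    linear_combination e0
  · simp only [CM, Matrix.of_apply, Fin.val_zero, Fin.val_one]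
    field_simp
    linear_combination e1

theorem ss_three {n : ℕ} (hn : p = 2 * n + 1) (h7 : 7 ≤ p) (h3 : p % 3 = 2)
    (h5 : p % 5 = 1 ∨ p % 5 = 4) {g θ r : k} (hg : 3 * g ^ 2 = 64) (hθ : 2 * g * θ = 1)
    (hr : r ^ 2 + 7 * r + 11 = 0) : SS n (θ * (g + -4)) ∧ SS n (θ * (g + r)) := by
  obtain ⟨n2, n3, n5⟩ := thirty (k := k) h7
  exact ⟨ss_of hn h7 hg hθ (fun h => pow_ne_zero 4 n2 (by linear_combination -h))
    (cm_twelve hn h3 (β := 16) (by ring) (by ring)), ss_of hn h7 hg hθ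
    (fun h => one_ne_zero (α := k) (by grind)) (cm_sixty hn h7 h3 h5 hr)⟩

omit hp in
theorem exists_par (h7 : 7 ≤ p) : ∃ g θ r : k, 3 * g ^ 2 = 64 ∧ 2 * g * θ = 1 ∧
    r ^ 2 + 7 * r + 11 = 0 := by
  obtain ⟨n2, n3, n5⟩ := thirty (k := k) h7
  obtain ⟨g, hg⟩ := IsAlgClosed.exists_pow_nat_eq (64 / 3 : k) two_pos
  obtain ⟨r, hr⟩ := exists_rt (X ^ 2 + 7 * X + 11 : k[X]) 1 (by compute_degree!)
  have hg' : 3 * g ^ 2 = 64 := by rw [hg]; field_simp
  have g0 : 2 * g ≠ 0 := fun h => pow_ne_zero 8 n2 (by linear_combination 6 * g * h - 4 * hg')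
  exact ⟨g, (2 * g)⁻¹, r, hg', mul_inv_cancel₀ g0, by simpa using hr⟩

theorem rank_one {n : ℕ} (hn : p = 2 * n + 1) (h7 : 7 ≤ p) (h3 : p % 3 = 2)
    (h5 : p % 5 = 1 ∨ p % 5 = 4) (h0 : HH n (-11 : k) (-1) 0 ≠ 0) :
    ∃ l₁ l₂ l₃ : k, l₁ ≠ l₂ ∧ l₁ ≠ l₃ ∧ l₂ ≠ l₃ ∧ SS n l₁ ∧ SS n l₂ ∧ SS n l₃ ∧
      (CM p n (X * (X - 1) * (X - C l₁) * (X - C l₂) * (X - C l₃))).det = 0 ∧
      (CM p n (X * (X - 1) * (X - C l₁) * (X - C l₂) * (X - C l₃))).map (fun a => a ^ p) *
        CM p n (X * (X - 1) * (X - C l₁) * (X - C l₂) * (X - C l₃)) ≠ 0 := by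
  obtain ⟨n2, n3, n5⟩ := thirty (k := k) h7
  obtain ⟨g, θ, r, hg, hθ, hr⟩ := exists_par (k := k) h7
  have hr' : (-7 - r) ^ 2 + 7 * (-7 - r) + 11 = 0 := by linear_combination hr
  obtain ⟨s1, s2⟩ := ss_three hn h7 h3 h5 hg hθ hr
  obtain ⟨-, s3⟩ := ss_three hn h7 h3 h5 hg hθ hr'
  have g0 : 2 * g ≠ 0 := left_ne_zero_of_mul_eq_one hθ
  refine ⟨_, _, _, fun h => one_ne_zero (α := k) (by grind), fun h => one_ne_zero (α := k) (by grind),
    fun h => n5 (by grind), s1, s2, s3, ?_⟩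
  generalize hf : X * (X - 1) * (X - C (θ * (g + -4))) * (X - C (θ * (g + r))) *
    (X - C (θ * (g + (-7 - r)))) = f
  obtain ⟨w, hw⟩ : ∃ w : k[X], w = C (2 * g) * X - C g := ⟨_, rfl⟩
  have c1 := congrArg (C : k → k[X]) hg
  have c2 := congrArg (C : k → k[X]) hθ
  have c3 := congrArg (C : k → k[X]) hr
  simp only [map_mul, map_add, map_pow, map_ofNat, map_one, map_zero] at c1 c2 c3
  have key : ∀ ρ : k, w - C ρ = C (2 * g) * (X - C (θ * (g + ρ))) := fun ρ => by
    simp only [hw, map_mul, map_add, map_ofNat]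
    linear_combination (C g + C ρ) * c2
  have hd : derivative w = C (2 * g) := by simp [hw, map_ofNat]
  have hF : (3 * w ^ 2 - 64) * (w + 4) * (w ^ 2 + 7 * w + 11) = C (3 * (2 * g) ^ 5) * f := by
    have a1 : w + C g = C (2 * g) * X := by rw [hw]; ring
    have a2 : w - C g = C (2 * g) * (X - 1) := by rw [hw, map_mul, map_ofNat]; ring
    have : (3 * w ^ 2 - 64) * (w + 4) * (w ^ 2 + 7 * w + 11) =
        3 * (w + C g) * (w - C g) * (w - C (-4)) * (w - C r) * (w - C (-7 - r)) := by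
      simp only [map_neg, map_sub, map_ofNat]
      linear_combination (w + 4) * (w ^ 2 + 7 * w + 11) * c1 +
        3 * (w + C g) * (w - C g) * (w + 4) * c3
    rw [this, a1, a2, key, key, key, ← hf, map_mul C 3, map_pow, map_ofNat]
    ring
  have ev : ∀ u : k, w.eval (θ * (g + u)) = u := fun u => by
    simp only [hw, eval_sub, eval_mul, eval_C, eval_X]
    linear_combination (g + u) * hθ
  have k0 : 3 * (2 * g) ^ 5 ≠ 0 := mul_ne_zero n3 (pow_ne_zero _ g0)
  obtain ⟨m, m1, m2, m3⟩ := eig2 hn (N := (w + 4) ^ 3) (A := 3 * w ^ 2 - 64) (f := f)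
    (S := (w + 4) * (w ^ 2 - 8 * w - 64)) (a := -11) (b := -1) (c := 0) (κ := 3 * (2 * g) ^ 5)
    (v := 3 * (2 * g) ^ 2) (ρ := θ * (g + -4)) (fun h => by
      have := congrArg (eval (θ * (g + 0))) h
      simp only [eval_mul, eval_add, eval_sub, eval_pow, ev, eval_ofNat, eval_zero] at this
      exact pow_ne_zero 8 n2 (by linear_combination -this)) k0 (mul_ne_zero n3 (pow_ne_zero _ g0))
    (by rw [← hF, map_neg, map_neg, map_ofNat, map_one, map_zero]; ring)
    (by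
      have := key (-4)
      simp only [derivative_mul, derivative_pow, derivative_add, derivative_sub, derivative_ofNat,
        hd, map_natCast]
      rw [map_neg, map_ofNat] at this
      rw [map_mul C 3, map_pow, map_ofNat]
      push_cast
      linear_combination 3 * C (2 * g) * (w + 4) * (w ^ 2 - 8 * w - 64) * this)
  obtain ⟨m', o1, o2, o3⟩ := eig2 hn (N := (3 * w + 14) ^ 2) (A := (w + 4) * (w ^ 2 + 7 * w + 11))
    (f := f) (S := (3 * w + 14) * (3 * w ^ 2 + 24 * w + 47)) (a := 18) (b := -27) (c := 0)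
    (κ := -(3 * (2 * g) ^ 5)) (v := -(2 * g) ^ 2) (ρ := θ * (g + -6)) (fun h => by
      have := congrArg (eval (θ * (g + -4))) h
      simp only [eval_mul, eval_add, eval_pow, ev, eval_ofNat, eval_zero] at this
      exact n2 (by linear_combination -this)) (neg_ne_zero.2 k0) (neg_ne_zero.2 (pow_ne_zero _ g0))
    (by rw [map_neg C (3 * _), neg_mul, ← hF, map_neg, map_ofNat, map_ofNat, map_zero]; ring)
    (by
      have := key (-6)
      simp only [derivative_mul, derivative_pow, derivative_add, derivative_ofNat, hd, map_natCast]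
      rw [map_neg, map_ofNat] at this
      rw [map_neg, map_pow]
      push_cast
      linear_combination -C (2 * g) * (3 * w + 14) * (3 * w ^ 2 + 24 * w + 47) * this)
  obtain rfl := o1.2 (cm_twelve hn h3 (β := -12) (by ring) (by ring))
  have m0 := mt m1.1 h0
  generalize CM p n f = M at *
  refine ⟨by rw [Matrix.det_fin_two]; linear_combination M 0 0 * o3 - M 1 0 * o2, fun h => ?_⟩
  have a0 := congrFun (congrFun h 1) 0
  have a1 := congrFun (congrFun h 1) 1
  simp only [Matrix.mul_apply, Fin.sum_univ_two, Matrix.map_apply, Matrix.zero_apply] at a0 a1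
  have a2 := congrArg (· ^ p) m3
  simp only [sub_pow_char, mul_pow] at a2 m2
  exact mul_ne_zero m0 (pow_ne_zero p m0) (by
    linear_combination a1 - θ * (g + -4) * a0 - M 1 0 ^ p * m2 - M 1 1 ^ p * m3 - m * a2)

theorem hex_step {n : ℕ} (hn : p = 2 * n + 1) (h7 : 7 ≤ p) {l u ρ : k}
    (h1 : 16 * l - 15 + 16 * u = 2 * ρ) (h2 : 16 * u * l = ρ ^ 2)
    (hu : SS n u) {M : Matrix (Fin 2) (Fin 2) k}
    (hM : M = CM p n (X * (X - 1) * (X - C l) * (X - C (16 * l)) * (X - C (16 * l - 15)))) :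
    M 0 1 = M 0 0 * (2 * l - ρ) ∧ M 1 1 = M 1 0 * (2 * l - ρ) := by
  obtain ⟨n2, n3, n5⟩ := thirty (k := k) h7
  have c1 := congrArg (C : k → k[X]) h1
  have c2 := congrArg (C : k → k[X]) h2
  simp only [map_mul, map_add, map_sub, map_pow, map_ofNat] at c1 c2
  obtain ⟨m, o1, o2, o3⟩ := eig2 hn (N := X * (X - C (16 * l - 15))) (A := X - C l)
    (f := X * (X - 1) * (X - C l) * (X - C (16 * l)) * (X - C (16 * l - 15))) (S := X - C ρ)
    (a := -(16 + 16 * u)) (b := 256 * u) (c := 0) (κ := 1) (v := 1) (ρ := 2 * l - ρ)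
    (X_sub_C_ne_zero ρ) one_ne_zero one_ne_zero
    (by
      simp only [map_mul, map_add, map_sub, map_neg, map_ofNat, map_one, map_zero]
      linear_combination X * (X - 1) * (X - C l) * (X - 16 * C l) * (X - (16 * C l - 15)) *
        (c2 - X * c1))
    (by
      simp only [derivative_mul, derivative_X, derivative_C, map_mul, map_sub,
        map_ofNat, map_one, derivative_ofNat]
      linear_combination C l * c1 - c2)
  obtain rfl := o1.2 (by
    rw [aff hn (α := 16) (β := 0) (a' := -(1 + u)) (b' := u) (c' := 0)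
      (fun h => pow_ne_zero 4 n2 (by linear_combination h)) (by ring) (by ring) (by ring), hu.2.2,
      mul_zero])
  rw [hM]
  exact ⟨by linear_combination o2, by linear_combination o3⟩

theorem rank_zero {n : ℕ} (hn : p = 2 * n + 1) (h7 : 7 ≤ p) (h3 : p % 3 = 2)
    (h5 : p % 5 = 1 ∨ p % 5 = 4) :
    ∃ l₁ l₂ l₃ : k, l₁ ≠ l₂ ∧ l₁ ≠ l₃ ∧ l₂ ≠ l₃ ∧ SS n l₁ ∧ SS n l₂ ∧ SS n l₃ ∧
      CM p n (X * (X - 1) * (X - C l₁) * (X - C l₂) * (X - C l₃)) = 0 := by
  obtain ⟨n2, n3, n5⟩ := thirty (k := k) h7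
  obtain ⟨g, θ, r, hg, hθ, hr⟩ := exists_par (k := k) h7
  have hr' : (-7 - r) ^ 2 + 7 * (-7 - r) + 11 = 0 := by linear_combination hr
  obtain ⟨s1, s2⟩ := ss_three hn h7 h3 h5 hg hθ hr
  obtain ⟨-, s3⟩ := ss_three hn h7 h3 h5 hg hθ hr'
  obtain ⟨l, hl⟩ : ∃ l, l = 1 - θ * (g + -4) := ⟨_, rfl⟩
  have h16 : 16 * l ^ 2 - 16 * l + 1 = 0 := by grind
  have t1 : SS n l := hl ▸ s1.one_sub hn
  have t2 : SS n (16 * l) := s1.inv hn (by grind)
  have t3 : SS n (16 * l - 15) := by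
    have := (t1.inv hn (m := 16 * (1 - l)) (by linear_combination -h16)).one_sub hn
    rwa [show 1 - 16 * (1 - l) = 16 * l - 15 by ring] at this
  refine ⟨_, _, _, fun h => t1.1 ((mul_eq_zero.1 (show 3 * 5 * l = 0 by
      linear_combination -h)).resolve_left (mul_ne_zero n3 n5)),
    fun h => t1.2.1 (sub_eq_zero.1 ((mul_eq_zero.1 (show 3 * 5 * (l - 1) = 0 by
      linear_combination -h)).resolve_left (mul_ne_zero n3 n5))),
    fun h => mul_ne_zero n3 n5 (by linear_combination h), t1, t2, t3, ?_⟩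
  generalize hM : CM p n (_ : k[X]) = M
  obtain ⟨a1, a2⟩ := hex_step hn h7 (l := l) (ρ := g * θ * (16 * l - 15 + 16 * (θ * (g + r))))
    (by grind) (by grind) s2 hM.symm
  obtain ⟨b1, b2⟩ := hex_step hn h7 (l := l) (ρ := g * θ * (16 * l - 15 + 16 * (θ * (g + (-7 - r)))))
    (by grind) (by grind) s3 hM.symm
  have d : g * θ * (16 * (θ * (2 * r + 7))) ≠ 0 := fun h => mul_ne_zero (pow_ne_zero 3 n2) n5 (by grind)
  have e0 : M 0 0 = 0 := (mul_eq_zero.1 (by linear_combination a1 - b1)).resolve_right d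
  have e1 : M 1 0 = 0 := (mul_eq_zero.1 (by linear_combination a2 - b2)).resolve_right d
  ext i j
  fin_cases i <;> fin_cases j <;> simp [e0, e1, a1, a2]

end Pool.Agent.Lib.MP_be0804_ag.PP
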