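import Pool.Agent.Lib.MP_be0804_ag.PCM

/-! The curve `y ^ 2 = x (x ^ 2 - 11 x - 1)` is ordinary in six classes modulo `120`. -/

set_option autoImplicit false

open Polynomial Finset

namespace Pool.Agent.Lib.MP_be0804_ag.PP

section
variable {F : Type} [Field F] [Fintype F] [DecidableEq F]

theorem sum_lin (hr : ringChar F ≠ 2) (a : F) : ∑ x : F, quadraticChar F (x - a) = 0 := by
  rw [← quadraticChar_sum_zero hr]
  exact Fintype.sum_equiv (Equiv.subRight a) _ _ fun _ => rfl

theorem sum_pair (hr : ringChar F ≠ 2) {a b : F} (h : a ≠ b) :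
    ∑ x : F, quadraticChar F (x - a) * quadraticChar F (x - b) = -1 := by
  have e := jacobiSum_nontrivial_inv (quadraticChar_ne_one hr)
  rw [(quadraticChar_isQuadratic F).inv, jacobiSum] at e
  have h0 : b - a ≠ 0 := sub_ne_zero.2 h.symm
  have h1 := quadraticChar_sq_one (F := F) (a := -1) (by simp)
  rw [show (-1 : ℤ) = quadraticChar F (-1) * -quadraticChar F (-1) by linear_combination h1, ← e,
    mul_sum]
  refine (Fintype.sum_equiv ((Equiv.mulLeft₀ _ h0).trans (Equiv.addLeft a)) _ _ fun u => ?_).symm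
  change _ = quadraticChar F (a + (b - a) * u - a) * quadraticChar F (a + (b - a) * u - b)
  rw [show a + (b - a) * u - a = (b - a) * u by ring,
    show a + (b - a) * u - b = -1 * ((b - a) * (1 - u)) by ring]
  simp only [map_mul]
  linear_combination (-quadraticChar F (-1) * quadraticChar F u * quadraticChar F (1 - u)) *
    quadraticChar_sq_one h0

theorem sum_eight (hr : ringChar F ≠ 2) {a b c : F} (hab : a ≠ b) (hac : a ≠ c) (hbc : b ≠ c) :
    8 ∣ (∑ x : F, quadraticChar F ((x - a) * (x - b) * (x - c))) + Fintype.card F - 3 -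
      ((1 + quadraticChar F (a - b)) * (1 + quadraticChar F (a - c)) +
        (1 + quadraticChar F (b - a)) * (1 + quadraticChar F (b - c)) +
        (1 + quadraticChar F (c - a)) * (1 + quadraticChar F (c - b))) := by
  have : 8 ∣ ∑ x : F, (quadraticChar F ((x - a) * (x - b) * (x - c)) + 1 +
      (quadraticChar F (x - a) + quadraticChar F (x - b) + quadraticChar F (x - c)) +
      (quadraticChar F (x - a) * quadraticChar F (x - b) +
        quadraticChar F (x - a) * quadraticChar F (x - c) +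
        quadraticChar F (x - b) * quadraticChar F (x - c)) -
      ((if x = a then (1 + quadraticChar F (a - b)) * (1 + quadraticChar F (a - c)) else 0) +
        (if x = b then (1 + quadraticChar F (b - a)) * (1 + quadraticChar F (b - c)) else 0) +
        (if x = c then (1 + quadraticChar F (c - a)) * (1 + quadraticChar F (c - b)) else 0))) := by
    refine dvd_sum fun x _ => ?_
    simp only [map_mul]
    by_cases h1 : x = a
    · subst h1
      rw [if_pos rfl, if_neg hab, if_neg hac, sub_self, quadraticChar_zero]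
      exact ⟨0, by ring⟩
    by_cases h2 : x = b
    · subst h2
      rw [if_pos rfl, if_neg h1, if_neg hbc, sub_self, quadraticChar_zero]
      exact ⟨0, by ring⟩
    by_cases h3 : x = c
    · subst h3
      rw [if_pos rfl, if_neg h1, if_neg h2, sub_self, quadraticChar_zero]
      exact ⟨0, by ring⟩
    rw [if_neg h1, if_neg h2, if_neg h3]
    rcases quadraticChar_dichotomy (sub_ne_zero.2 h1) with e1 | e1 <;>
    rcases quadraticChar_dichotomy (sub_ne_zero.2 h2) with e2 | e2 <;>
    rcases quadraticChar_dichotomy (sub_ne_zero.2 h3) with e3 | e3 <;>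
    rw [e1, e2, e3] <;> decide
  simp only [sum_add_distrib, sum_sub_distrib, sum_lin hr, sum_pair hr hab, sum_pair hr hac,
    sum_pair hr hbc, sum_ite_eq', mem_univ, if_true, sum_const, card_univ, nsmul_eq_mul] at this
  convert this using 1
  ring

theorem sum_pw {n : ℕ} (hn : Fintype.card F = 2 * n + 1) {i : ℕ} (hi : i < 4 * n) :
    ∑ x : F, x ^ i = if i = 2 * n then -1 else 0 := by
  have hc := FiniteField.pow_card (K := F)
  rcases lt_trichotomy i (2 * n) with h | rfl | h
  · rw [if_neg h.ne, FiniteField.sum_pow_lt_card_sub_one F i (by omega)]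
  · have : ∀ x : F, x ^ (2 * n) = 1 - if x = 0 then 1 else 0 := fun x => by
      split_ifs with h
      · rw [h, zero_pow (by omega), sub_self]
      · rw [sub_zero, ← FiniteField.pow_card_sub_one_eq_one x h, hn, Nat.add_sub_cancel]
    simp [this]
  · obtain ⟨j, rfl⟩ : ∃ j, i = 2 * n + 1 + j := ⟨i - (2 * n + 1), by omega⟩
    rw [if_neg h.ne', ← FiniteField.sum_pow_lt_card_sub_one F (1 + j) (by omega)]
    exact sum_congr rfl fun x _ => by rw [pow_add, ← hn, hc, pow_add, pow_one]

theorem sum_eval {n : ℕ} (hn : Fintype.card F = 2 * n + 1) {g : F[X]} (hg : g.natDegree < 4 * n) :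
    ∑ x : F, g.eval x = -g.coeff (2 * n) := by
  simp only [eval_eq_sum_range' hg]
  rw [sum_comm]
  simp only [← mul_sum]
  rw [sum_congr rfl fun i hi => by rw [sum_pw hn (mem_range.1 hi)]]
  simp only [mul_ite, mul_zero, sum_ite_eq', mem_range]
  rw [if_pos (by omega)]
  ring

end

theorem sum_zero {p n : ℕ} [hp : Fact p.Prime] (hn : p = 2 * n + 1) {a b c : ZMod p}
    (h : HH n (-(a + b + c)) (a * b + a * c + b * c) (-(a * b * c)) = 0) :
    ∑ x : ZMod p, quadraticChar (ZMod p) ((x - a) * (x - b) * (x - c)) = 0 := by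
  have h2 := hp.out.two_le
  have hr : ringChar (ZMod p) ≠ 2 := by rw [ZMod.ringChar_zmod_n]; omega
  have hc : Fintype.card (ZMod p) = 2 * n + 1 := by rw [ZMod.card, hn]
  have hd : (X ^ 3 + C (-(a + b + c)) * X ^ 2 + C (a * b + a * c + b * c) * X + C (-(a * b * c)) :
      (ZMod p)[X]).natDegree ≤ 3 := by compute_degree
  have e := sum_eval hc ((natDegree_pow_le.trans (Nat.mul_le_mul_left n hd)).trans_lt (by omega))
  rw [HH] at h
  rw [h, neg_zero] at e
  refine Int.eq_zero_of_abs_lt_dvd ((ZMod.intCast_zmod_eq_zero_iff_dvd _ p).1 ?_) ?_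
  · rw [Int.cast_sum, ← e]
    refine sum_congr rfl fun x _ => ?_
    rw [quadraticChar_eq_pow_of_char_ne_two' hr, hc, show (2 * n + 1) / 2 = n by omega, eval_pow]
    congr 1
    simp only [eval_add, eval_mul, eval_pow, eval_X, eval_C]
    ring
  · refine (abs_sum_le_sum_abs _ _).trans_lt ?_
    calc _ < ∑ _x : ZMod p, (1 : ℤ) := by
          refine sum_lt_sum (fun x _ => ?_) ⟨a, mem_univ _, by simp⟩
          rcases quadraticChar_isQuadratic (ZMod p) ((x - a) * (x - b) * (x - c)) with h | h | h <;>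
            rw [h] <;> simp
      _ = p := by simp

variable {k : Type} [Field k] [IsAlgClosed k] {p : ℕ} [hp : Fact p.Prime] [CharP k p]

theorem exists_eps {n : ℕ} (hn : p = 2 * n + 1) (h : p % 10 = 1 ∨ p % 10 = 9) :
    ∃ e : k, e ^ 2 = e + 1 ∧ e ^ p = e ∧
      (e + 2) ^ n = if p % 20 = 1 ∨ p % 20 = 19 then 1 else -1 := by
  obtain ⟨n2, n3, n5⟩ := thirty (k := k) (p := p) (by have := hp.out.two_le; omega)
  obtain ⟨z, hz⟩ := exists_rt (X ^ 8 - X ^ 6 + X ^ 4 - X ^ 2 + 1 : k[X]) 7 (by compute_degree!)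
  simp only [eval_add, eval_sub, eval_pow, eval_X, eval_one] at hz
  have z10 : z ^ 10 = -1 := by linear_combination (z ^ 2 + 1) * hz
  have z20 : z ^ 20 = 1 := by linear_combination (z ^ 10 - 1) * z10
  have zp : z ^ p = z ^ (p % 20) := by
    conv_lhs => rw [← Nat.div_add_mod p 20, pow_add, pow_mul, z20, one_pow, one_mul]
  have he : ((z - z ^ 9) ^ 2 - 2) ^ 2 = (z - z ^ 9) ^ 2 - 2 + 1 := by grind
  have e : (z - z ^ 9) ^ p = (if p % 20 = 1 ∨ p % 20 = 19 then 1 else -1) * (z - z ^ 9) := by
    rw [sub_pow_char, pow_right_comm, zp]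
    have : p % 20 = 1 ∨ p % 20 = 9 ∨ p % 20 = 11 ∨ p % 20 = 19 := by omega
    rcases this with h | h | h | h <;> rw [h] <;> simp only [Nat.reduceEqDiff, or_false, or_true,
      or_self, if_true, if_false] <;> grind
  generalize z - z ^ 9 = w at he e
  have w0 : w ≠ 0 := fun h => n5 (by rw [h] at he; linear_combination he)
  refine ⟨w ^ 2 - 2, he, ?_, ?_⟩
  · rw [sub_pow_char, two_pow_p, pow_right_comm, e]
    split_ifs <;> ring
  · rw [sub_add_cancel, ← pow_mul]
    refine mul_right_cancel₀ w0 ?_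
    rw [← pow_succ, ← hn, e]

omit [IsAlgClosed k] in
theorem HH_map {F : Type} [Field F] (φ : F →+* k) (n : ℕ) (a b c : F) :
    HH n (φ a) (φ b) (φ c) = φ (HH n a b c) := by
  rw [HH, HH, ← coeff_map]
  simp

theorem ord_twenty {n : ℕ} (hn : p = 2 * n + 1) (h : p % 120 = 29 ∨ p % 120 = 41 ∨ p % 120 = 59 ∨
    p % 120 = 71 ∨ p % 120 = 89 ∨ p % 120 = 101) : HH n (-11 : k) (-1) 0 ≠ 0 := by
  intro h0
  obtain ⟨e', h1, h2, h3⟩ := exists_eps (k := k) hn (by omega)
  obtain ⟨m, rfl⟩ := (mem_bot_iff_intCast p k).1 ((Subfield.mem_bot_iff_pow_eq_self k p).2 h2)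
  let φ := ZMod.castHom (dvd_refl p) k
  have hφ := φ.injective
  obtain ⟨e, he⟩ : ∃ e : ZMod p, φ e = m := ⟨m, map_intCast φ m⟩
  rw [← he] at h1 h3
  have h1' : e ^ 2 = e + 1 := hφ (by simpa using h1)
  obtain ⟨n2, n3, n5⟩ := thirty (k := ZMod p) (p := p) (by omega)
  have hr : ringChar (ZMod p) ≠ 2 := by rw [ZMod.ringChar_zmod_n]; omega
  have s := sum_zero hn (a := 0) (b := 5 * e + 3) (c := 8 - 5 * e) (hφ (by
    rw [← HH_map, map_zero, ← h0]
    congr 1
    · rw [show -(0 + (5 * e + 3) + (8 - 5 * e)) = -11 by ring, map_neg, map_ofNat]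
    · rw [show 0 * (5 * e + 3) + 0 * (8 - 5 * e) + (5 * e + 3) * (8 - 5 * e) = -1 by
        linear_combination -25 * h1', map_neg, map_one]
    · simp))
  have b0 : 0 - (5 * e + 3) ≠ 0 := fun h => one_ne_zero (α := ZMod p)
    (by linear_combination (8 - 5 * e) * h - 25 * h1')
  have c0 : 0 - (8 - 5 * e) ≠ 0 := fun h => one_ne_zero (α := ZMod p)
    (by linear_combination (5 * e + 3) * h - 25 * h1')
  have d0 : 5 * e + 3 - (8 - 5 * e) ≠ 0 := fun h => pow_ne_zero 3 n5
    (by linear_combination (10 * e - 5) * h - 100 * h1')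
  have t := sum_eight hr (sub_ne_zero.1 b0) (sub_ne_zero.1 c0) (sub_ne_zero.1 d0)
  rw [s, ZMod.card] at t
  have q1 : quadraticChar (ZMod p) (5 * e + 3 - 0) =
      quadraticChar (ZMod p) (-1) * quadraticChar (ZMod p) (0 - (5 * e + 3)) := by
    rw [← map_mul]; congr 1; ring
  have q2 : quadraticChar (ZMod p) (8 - 5 * e - 0) =
      quadraticChar (ZMod p) (-1) * quadraticChar (ZMod p) (0 - (8 - 5 * e)) := by
    rw [← map_mul]; congr 1; ring
  have q3 : quadraticChar (ZMod p) (8 - 5 * e - (5 * e + 3)) =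
      quadraticChar (ZMod p) (-1) * quadraticChar (ZMod p) (5 * e + 3 - (8 - 5 * e)) := by
    rw [← map_mul]; congr 1; ring
  have q4 : quadraticChar (ZMod p) (0 - (5 * e + 3)) * quadraticChar (ZMod p) (0 - (8 - 5 * e)) =
      quadraticChar (ZMod p) (-1) := by
    rw [← map_mul]; congr 1; linear_combination -25 * h1'
  have u0 : 3 * e + 1 ≠ 0 := fun h => n5 (by linear_combination (3 * e - 4) * h - 9 * h1')
  have q5 : quadraticChar (ZMod p) (0 - (5 * e + 3)) *
      quadraticChar (ZMod p) (5 * e + 3 - (8 - 5 * e)) =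
      quadraticChar (ZMod p) (-1) * quadraticChar (ZMod p) (e + 2) := by
    rw [← mul_one (quadraticChar (ZMod p) (e + 2)), ← quadraticChar_sq_one' u0, ← map_mul,
      ← map_mul, ← map_mul]
    congr 1
    linear_combination (9 * e - 17) * h1'
  have q6 : quadraticChar (ZMod p) (e + 2) = if p % 20 = 1 ∨ p % 20 = 19 then 1 else -1 := by
    have v := quadraticChar_eq_pow_of_char_ne_two' hr (e + 2)
    rw [ZMod.card, show p / 2 = n by omega] at v
    have v2 : (e + 2) ^ n = if p % 20 = 1 ∨ p % 20 = 19 then 1 else -1 :=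
      hφ (by rw [map_pow, map_add, map_ofNat, h3]; split_ifs <;> simp)
    rw [v2] at v
    have v0 : e + 2 ≠ 0 := fun h => n5 (by linear_combination (3 - e) * h + h1')
    rcases quadraticChar_dichotomy v0 with w | w <;> rw [w] at v ⊢ <;> split_ifs at v ⊢ <;>
      first | rfl | exact absurd (by push_cast at v; linear_combination v) n2 |
        exact absurd (by push_cast at v; linear_combination -v) n2
  have q7 : p % 4 = 3 → quadraticChar (ZMod p) (-1) = -1 := fun h => by
    rw [quadraticChar_neg_one_iff_not_isSquare, ZMod.exists_sq_eq_neg_one_iff]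
    omega
  rw [q1, q2, q3] at t
  rw [q6] at q5
  have m0 := quadraticChar_dichotomy (F := ZMod p) (a := -1) (by simp)
  have x0 := quadraticChar_dichotomy b0
  have y0 := quadraticChar_dichotomy c0
  have z0 := quadraticChar_dichotomy d0
  generalize quadraticChar (ZMod p) (-1) = m at *
  generalize quadraticChar (ZMod p) (0 - (5 * e + 3)) = x at *
  generalize quadraticChar (ZMod p) (0 - (8 - 5 * e)) = y at *
  generalize quadraticChar (ZMod p) (5 * e + 3 - (8 - 5 * e)) = z at *
  clear * - h t q4 q5 q7 m0 x0 y0 z0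
  rcases m0 with rfl | rfl <;> rcases x0 with rfl | rfl <;> rcases y0 with rfl | rfl <;>
    rcases z0 with rfl | rfl <;> split_ifs at q5 <;> omega

end Pool.Agent.Lib.MP_be0804_ag.PP
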