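import Pool.Agent.Lib.MP_be0804_ag.NCart

/-! Pull-back of the Cartier operator along a rational map, isogenies of degree two. -/

set_option autoImplicit false

open Polynomial

namespace Pool.Agent.Lib.MP_be0804_ag.PP

open NN

variable {k : Type} [Field k]

theorem car_deriv {p : ℕ} (h0 : p ≠ 0) [CharP k p] (g : k[X]) : car p (derivative g) = 0 := by
  ext i
  rw [coeff_car h0, coeff_derivative, coeff_zero]
  have : ((i * p + (p - 1) + 1 : ℕ) : k) = 0 :=
    (CharP.cast_eq_zero_iff k p _).2 ⟨i + 1, by rw [mul_add, mul_comm p]; omega⟩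
  push_cast at this
  push_cast
  rw [this, mul_zero]

/-- the Hasse invariant of `y ^ 2 = x ^ 3 + a x ^ 2 + b x + c` -/
noncomputable def HH (n : ℕ) (a b c : k) : k :=
  ((X ^ 3 + C a * X ^ 2 + C b * X + C c : k[X]) ^ n).coeff (2 * n)

variable [IsAlgClosed k] {p : ℕ} [hp : Fact p.Prime] [CharP k p]

theorem car_mono (N A : k[X]) {i j : ℕ} (h : i + j + 2 = 2 * p) :
    car p (N ^ i * A ^ j * (derivative N * A - N * derivative A)) =
      if i = p - 1 then fr p (derivative N * A - N * derivative A) else 0 := by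
  have h0 := hp.out.ne_zero
  have e : ∀ u : k[X], u ^ p = u ^ (p - 1) * u := fun u => by
    rw [← pow_succ, Nat.sub_add_cancel hp.out.pos]
  split_ifs with hi
  · obtain rfl : j = p - 1 := by omega
    have : N ^ i * A ^ (p - 1) * (derivative N * A - N * derivative A) =
        A ^ p * (N ^ (p - 1) * derivative N) - N ^ p * (A ^ (p - 1) * derivative A) := by
      rw [e, e, hi]; ring
    rw [this, car_sub h0, car_pow_mul, car_pow_mul, car_log p (IsAlgClosed.splits _),
      car_log p (IsAlgClosed.splits _)]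
    simp only [map_sub, map_mul]
    ring
  · have h1 : ((i : k) + 1) ≠ 0 := by
      intro h2
      obtain ⟨c, hc⟩ := (CharP.cast_eq_zero_iff k p (i + 1)).1 (by exact_mod_cast h2)
      have : c < 2 := by
        by_contra h3
        have : p * 2 ≤ p * c := Nat.mul_le_mul_left _ (by omega)
        omega
      interval_cases c <;> omega
    have h2 : (C (i : k) + C (j : k) + 2 : k[X]) = 0 := by
      have : ((i + j + 2 : ℕ) : k) = 0 := (CharP.cast_eq_zero_iff k p _).2 ⟨2, by omega⟩
      have := congrArg (C : k → k[X]) this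
      simpa [map_ofNat] using this
    have h3 : derivative (N ^ (i + 1) * A ^ (j + 1)) =
        C ((i : k) + 1) * (N ^ i * A ^ j * (derivative N * A - N * derivative A)) := by
      simp only [derivative_mul, derivative_pow_succ, map_add, map_one]
      linear_combination (N ^ (i + 1) * A ^ j * derivative A) * h2
    have h4 := car_deriv h0 (N ^ (i + 1) * A ^ (j + 1))
    rw [h3, car_C_mul h0] at h4
    exact (mul_eq_zero.1 h4).resolve_left (C_ne_zero.2 h1)

theorem pull (N A h : k[X]) (hd : h.natDegree ≤ 2 * p - 2) :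
    car p (MvPolynomial.aeval ![N, A] (homogenize h (2 * p - 2)) *
      (derivative N * A - N * derivative A)) =
      C (h.coeff (p - 1)) * fr p (derivative N * A - N * derivative A) := by
  have h0 := hp.out.ne_zero
  have h2 := hp.out.two_le
  conv_lhs => rw [h.as_sum_range_C_mul_X_pow' (n := 2 * p - 2 + 1) (by omega),
    homogenize_finsetSum, map_sum, Finset.sum_mul]
  have hs : ∀ (s : Finset ℕ) (F : ℕ → k[X]), car p (∑ i ∈ s, F i) = ∑ i ∈ s, car p (F i) := by
    intro s F
    induction s using Finset.induction_on with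
    | empty => simp [car_zero]
    | insert a s ha ih => rw [Finset.sum_insert ha, Finset.sum_insert ha, car_add h0, ih]
  rw [hs, Finset.sum_eq_single (p - 1)]
  · rw [homogenize_C_mul, homogenize_X_pow (by omega)]
    simp only [map_mul, map_pow, MvPolynomial.aeval_C, MvPolynomial.aeval_X, Matrix.cons_val_zero,
      Matrix.cons_val_one, algebraMap_eq]
    rw [mul_assoc, car_C_mul h0, car_mono N A (by omega), if_pos rfl]
  · intro i hi hne
    have := Finset.mem_range.1 hi
    rw [homogenize_C_mul, homogenize_X_pow (by omega)]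
    simp only [map_mul, map_pow, MvPolynomial.aeval_C, MvPolynomial.aeval_X, Matrix.cons_val_zero,
      Matrix.cons_val_one, algebraMap_eq]
    rw [mul_assoc, car_C_mul h0, car_mono N A (by omega), if_neg hne, mul_zero]
  · intro hi
    exact absurd (Finset.mem_range.2 (by omega)) hi

omit [IsAlgClosed k] in
theorem hom_pow (g : k[X]) (hg : g.natDegree ≤ 4) (n : ℕ) :
    homogenize (g ^ n) (4 * n) = homogenize g 4 ^ n := by
  induction n with
  | zero => simp
  | succ n ih =>
    rw [pow_succ, Nat.mul_succ, homogenize_mul _ _ (natDegree_pow_le.trans (by nlinarith)) hg, ih,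
      pow_succ]

theorem pull3 {n : ℕ} (hn : p = 2 * n + 1) (N A : k[X]) (a b c : k) :
    car p ((N ^ 3 * A + C a * N ^ 2 * A ^ 2 + C b * N * A ^ 3 + C c * A ^ 4) ^ n *
      (derivative N * A - N * derivative A)) =
      C (HH n a b c) * fr p (derivative N * A - N * derivative A) := by
  have hg : (X ^ 3 + C a * X ^ 2 + C b * X + C c : k[X]).natDegree ≤ 4 := by
    compute_degree!
  have := pull (p := p) N A ((X ^ 3 + C a * X ^ 2 + C b * X + C c : k[X]) ^ n)
    (natDegree_pow_le.trans (by have := Nat.mul_le_mul_left n hg; omega))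
  rw [show 2 * p - 2 = 4 * n by omega, hom_pow _ hg, show p - 1 = 2 * n by omega, map_pow] at this
  rw [HH, ← this]
  congr 3
  simp only [homogenize_add, homogenize_C_mul, homogenize_C]
  rw [homogenize_X_pow (by omega), homogenize_X_pow (by omega), homogenize_X (by omega)]
  simp only [map_add, map_mul, map_pow, MvPolynomial.aeval_C, MvPolynomial.aeval_X,
    Matrix.cons_val_zero, Matrix.cons_val_one, algebraMap_eq]
  ring

theorem eig {n : ℕ} (hn : p = 2 * n + 1) {N A f S q : k[X]} {a b c κ : k} (hS : S ≠ 0)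
    (hG : N ^ 3 * A + C a * N ^ 2 * A ^ 2 + C b * N * A ^ 3 + C c * A ^ 4 = C κ * f * S ^ 2)
    (hW : derivative N * A - N * derivative A = S * q) :
    C (κ ^ n) * car p (f ^ n * q) = C (HH n a b c) * fr p q := by
  have h := pull3 hn N A a b c
  have hS' : fr p S ≠ 0 := by rw [fr_apply]; exact map_ne_zero hS
  rw [hG, hW, show (C κ * f * S ^ 2) ^ n * (S * q) = C (κ ^ n) * (S ^ p * (f ^ n * q)) by
    rw [hn, map_pow]; ring, car_C_mul hp.out.ne_zero, car_pow_mul, map_mul] at h
  exact mul_left_cancel₀ hS' (by linear_combination h)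

theorem car_cubic {n : ℕ} (hn : p = 2 * n + 1) (a b c : k) :
    car p ((X ^ 3 + C a * X ^ 2 + C b * X + C c : k[X]) ^ n) = C (HH n a b c) := by
  have := eig hn (N := X) (A := 1) (f := X ^ 3 + C a * X ^ 2 + C b * X + C c) (S := 1) (q := 1)
    (a := a) (b := b) (c := c) (κ := 1) one_ne_zero (by simp) (by simp)
  simpa using this

theorem iso {n : ℕ} (hn : p = 2 * n + 1) {a b a' b' : k} (ha : a' = -2 * a)
    (hb : b' = a ^ 2 - 4 * b) : HH n a b 0 = HH n a' b' 0 := by
  have := eig hn (N := X ^ 2 + C a * X + C b) (A := X)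
    (f := X ^ 3 + C a * X ^ 2 + C b * X + C 0) (S := X ^ 2 - C b) (q := 1)
    (a := a') (b := b') (c := 0) (κ := 1) (X_pow_sub_C_ne_zero two_pos b)
    (by simp only [ha, hb, map_mul, map_neg, map_sub, map_pow, map_ofNat, map_zero, map_one]; ring)
    (by simp only [derivative_add, derivative_X_pow, derivative_mul, derivative_C, derivative_X,
      map_natCast]; push_cast; ring)
  rw [mul_one, car_cubic hn, map_one] at this
  exact C_injective (by simpa using this)

theorem aff {n : ℕ} (hn : p = 2 * n + 1) {α β a b c a' b' c' : k} (h0 : α ≠ 0)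
    (h1 : 3 * β + a = α * a') (h2 : 3 * β ^ 2 + 2 * a * β + b = α ^ 2 * b')
    (h3 : β ^ 3 + a * β ^ 2 + b * β + c = α ^ 3 * c') : HH n a b c = α ^ n * HH n a' b' c' := by
  have c1 := congrArg (C : k → k[X]) h1
  have c2 := congrArg (C : k → k[X]) h2
  have c3 := congrArg (C : k → k[X]) h3
  simp only [map_mul, map_add, map_pow, map_ofNat] at c1 c2 c3
  have := eig hn (N := C α * X + C β) (A := 1)
    (f := X ^ 3 + C a' * X ^ 2 + C b' * X + C c') (S := 1) (q := C α)
    (a := a) (b := b) (c := c) (κ := α ^ 3) one_ne_zero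
    (by rw [map_pow]; linear_combination (C α ^ 2 * X ^ 2) * c1 + (C α * X) * c2 + c3)
    (by simp)
  rw [mul_comm _ (C α), car_C_mul hp.out.ne_zero, car_cubic hn, fr_C, ← map_mul, ← map_mul,
    ← map_mul, C_inj, hn] at this
  exact mul_left_cancel₀ (pow_ne_zero (2 * n + 1) h0) (by linear_combination -this)

omit [IsAlgClosed k] hp [CharP k p] in
theorem j_zero {n : ℕ} (hn : n % 3 = 2) (c : k) : HH n 0 0 c = 0 := by
  rw [HH, show (X ^ 3 + C 0 * X ^ 2 + C 0 * X + C c : k[X]) ^ n = expand k 3 ((X + C c) ^ n) by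
    simp, coeff_expand (by norm_num), if_neg (by omega)]

end Pool.Agent.Lib.MP_be0804_ag.PP
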